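import Mathlib

/-!
Complex derivatives on `ι → ℂ`: `D s j u = (∂u/∂x_j + s i ∂u/∂y_j)/2`; `dbar = D 1`,
`del = D (-1)`.
-/

namespace Pool.Agent.Lib.Hormander

open MeasureTheory Set Topology Filter
open scoped ContDiff ComplexConjugate

set_option linter.unusedSectionVars false

variable {ι : Type*} [Fintype ι] [DecidableEq ι]

/-- `(∂u/∂x_j + s i ∂u/∂y_j)/2` -/
noncomputable def D (s : ℂ) (j : ι) (u : (ι → ℂ) → ℂ) (z : ι → ℂ) : ℂ :=
  (fderiv ℝ u z (Pi.single j 1) + s * Complex.I * fderiv ℝ u z (Pi.single j Complex.I)) / 2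

/-- `∂u/∂z̄_j` -/
noncomputable def dbar (j : ι) (u : (ι → ℂ) → ℂ) (z : ι → ℂ) : ℂ :=
  (fderiv ℝ u z (Pi.single j 1) + Complex.I * fderiv ℝ u z (Pi.single j Complex.I)) / 2

/-- `∂u/∂z_j` -/
noncomputable def del (j : ι) (u : (ι → ℂ) → ℂ) (z : ι → ℂ) : ℂ :=
  (fderiv ℝ u z (Pi.single j 1) - Complex.I * fderiv ℝ u z (Pi.single j Complex.I)) / 2

/-- the Levi form of a real function -/
noncomputable def levi (φ : (ι → ℂ) → ℝ) (z w : ι → ℂ) : ℝ :=
  (∑ j, ∑ k, dbar k (del j (fun y => (φ y : ℂ))) z * w j * conj (w k)).re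

lemma dbar_eq (j : ι) (u : (ι → ℂ) → ℂ) : dbar j u = D 1 j u := by
  funext z; simp [dbar, D]

lemma del_eq (j : ι) (u : (ι → ℂ) → ℂ) : del j u = D (-1) j u := by
  funext z; simp [del, D, sub_eq_add_neg]

section D

variable {s t : ℂ} {j k : ι} {u v : (ι → ℂ) → ℂ} {z : ι → ℂ}

lemma D_add (hu : DifferentiableAt ℝ u z) (hv : DifferentiableAt ℝ v z) :
    D s j (fun y => u y + v y) z = D s j u z + D s j v z := by
  simp only [D, fderiv_fun_add hu hv, _root_.add_apply]
  ring

lemma D_sub (hu : DifferentiableAt ℝ u z) (hv : DifferentiableAt ℝ v z) :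
    D s j (fun y => u y - v y) z = D s j u z - D s j v z := by
  simp only [D, fderiv_fun_sub hu hv, _root_.sub_apply]
  ring

lemma D_neg : D s j (fun y => -u y) z = -D s j u z := by
  simp only [D, fderiv_fun_neg, _root_.neg_apply]
  ring

lemma D_const_mul (c : ℂ) (hu : DifferentiableAt ℝ u z) :
    D s j (fun y => c * u y) z = c * D s j u z := by
  simp only [D, fderiv_const_mul hu, _root_.smul_apply, smul_eq_mul]
  ring

lemma D_const (c : ℂ) : D s j (fun _ : ι → ℂ => c) z = 0 := by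
  simp [D]

lemma D_mul (hu : DifferentiableAt ℝ u z) (hv : DifferentiableAt ℝ v z) :
    D s j (fun y => u y * v y) z = D s j u z * v z + u z * D s j v z := by
  simp only [D, fderiv_fun_mul hu hv, _root_.add_apply, _root_.smul_apply, smul_eq_mul]
  ring

lemma D_sum {κ : Type*} {S : Finset κ} {f : κ → (ι → ℂ) → ℂ}
    (hf : ∀ i ∈ S, DifferentiableAt ℝ (f i) z) :
    D s j (fun y => ∑ i ∈ S, f i y) z = ∑ i ∈ S, D s j (f i) z := by
  simp only [D, fderiv_fun_sum hf, _root_.sum_apply, ← Finset.sum_div, Finset.sum_add_distrib,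
    Finset.mul_sum]

lemma D_congr (h : u =ᶠ[𝓝 z] v) : D s j u z = D s j v z := by
  simp only [D, h.fderiv_eq]

lemma D_conj (hu : DifferentiableAt ℝ u z) :
    D s j (fun y => conj (u y)) z = conj (D (-conj s) j u z) := by
  have h : fderiv ℝ (fun y => conj (u y)) z =
      (Complex.conjCLE : ℂ →L[ℝ] ℂ).comp (fderiv ℝ u z) := by
    have h1 := (Complex.conjCLE : ℂ →L[ℝ] ℂ).hasFDerivAt.comp z hu.hasFDerivAt
    exact h1.fderiv
  simp only [D, h, ContinuousLinearMap.comp_apply, ContinuousLinearEquiv.coe_coe,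
    Complex.conjCLE_apply, map_div₀, map_add, map_mul, map_neg, Complex.conj_conj, Complex.conj_I,
    map_ofNat]
  ring

lemma contDiff_D (hu : ContDiff ℝ ∞ u) : ContDiff ℝ ∞ (D s j u) := by
  unfold D
  have h : ∀ w : ι → ℂ, ContDiff ℝ ∞ (fun z => fderiv ℝ u z w) := fun w =>
    (hu.fderiv_right (m := ∞) (by simp)).clm_apply contDiff_const
  exact ((h _).add (contDiff_const.mul (h _))).div_const _

lemma continuous_D (hu : ContDiff ℝ 1 u) : Continuous (D s j u) := by
  unfold D
  have h : ∀ w : ι → ℂ, Continuous (fun z => fderiv ℝ u z w) := fun w =>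
    (hu.continuous_fderiv (by simp)).clm_apply continuous_const
  fun_prop

lemma D_comm (hu : ContDiff ℝ ∞ u) : D s j (D t k u) z = D t k (D s j u) z := by
  have hd : DifferentiableAt ℝ (fderiv ℝ u) z :=
    ((hu.fderiv_right (m := 1) (WithTop.coe_le_coe.2 le_top)).differentiable (by simp)) z
  have h2 : ∀ w w' : ι → ℂ, fderiv ℝ (fun y => fderiv ℝ u y w) z w' =
      fderiv ℝ (fderiv ℝ u) z w' w := by
    intro w w'
    have : HasFDerivAt (fun y => fderiv ℝ u y w)
        ((fderiv ℝ (fderiv ℝ u) z).flip w) z := by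
      have h3 := hd.hasFDerivAt.clm_apply (hasFDerivAt_const w z)
      simpa using h3
    rw [this.fderiv]
    rfl
  have hs : ∀ w w' : ι → ℂ, fderiv ℝ (fderiv ℝ u) z w' w = fderiv ℝ (fderiv ℝ u) z w w' := by
    intro w w'
    have h : IsSymmSndFDerivAt ℝ u z :=
      hu.contDiffAt.isSymmSndFDerivAt (by
        rw [minSmoothness_of_isRCLikeNormedField]
        exact WithTop.coe_le_coe.2 le_top)
    exact h.eq _ _
  have hdd : ∀ w : ι → ℂ, DifferentiableAt ℝ (fun y => fderiv ℝ u y w) z := fun w =>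
    hd.clm_apply (differentiableAt_const w)
  have h4 : ∀ (r : ℂ) (i : ι) (w' : ι → ℂ), fderiv ℝ (D r i u) z w' =
      (fderiv ℝ (fderiv ℝ u) z w' (Pi.single i 1) +
        r * Complex.I * fderiv ℝ (fderiv ℝ u) z w' (Pi.single i Complex.I)) / 2 := by
    intro r i w'
    have e : D r i u = fun y => (1 / 2 : ℂ) * (fderiv ℝ u y (Pi.single i 1) +
        (r * Complex.I) * fderiv ℝ u y (Pi.single i Complex.I)) := by
      funext y
      simp only [D]
      ring
    rw [e, fderiv_const_mul ((hdd _).fun_add ((hdd _).const_mul _)),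
      fderiv_fun_add (hdd _) ((hdd _).const_mul _), fderiv_const_mul (hdd _)]
    simp only [_root_.smul_apply, _root_.add_apply, smul_eq_mul, h2]
    ring
  rw [D, D, h4, h4, h4, h4, hs (Pi.single k 1) (Pi.single j 1),
    hs (Pi.single k Complex.I) (Pi.single j 1), hs (Pi.single k 1) (Pi.single j Complex.I),
    hs (Pi.single k Complex.I) (Pi.single j Complex.I)]
  ring

lemma D_eq_zero_of_notMem (hz : z ∉ tsupport u) : D s j u z = 0 := by
  have h : u =ᶠ[𝓝 z] fun _ => 0 := notMem_tsupport_iff_eventuallyEq.1 hz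
  rw [D_congr h, D_const]

lemma hasCompactSupport_D (hu : HasCompactSupport u) : HasCompactSupport (D s j u) :=
  HasCompactSupport.intro' hu.isCompact (isClosed_tsupport u) fun _ hz => D_eq_zero_of_notMem hz

end D

end Pool.Agent.Lib.Hormander
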