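import Pool.Agent.Lib.Hormander.L2Tools

/-!
The basic estimate for square integrable forms satisfying the equations weakly.
-/

namespace Pool.Agent.Lib.Hormander

open MeasureTheory Set Topology Filter
open scoped ContDiff ComplexConjugate ENNReal

set_option linter.unusedSectionVars false

variable {ι : Type*} [Fintype ι] [DecidableEq ι]

/-- weak formulation of `∂̄ a = 0`, `∂̄* a = h` -/
structure WeakData (φ : (ι → ℂ) → ℝ) (a : ι → (ι → ℂ) → ℂ) (h : (ι → ℂ) → ℂ) : Prop where
  ha : ∀ j, LocL2 (a j)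
  hh : LocL2 h
  W1 : ∀ (j k : ι) (η : (ι → ℂ) → ℂ), ContDiff ℝ ∞ η → HasCompactSupport η →
    ∫ z, a j z * D 1 k η z = ∫ z, a k z * D 1 j η z
  W2 : ∀ η : (ι → ℂ) → ℂ, ContDiff ℝ ∞ η → HasCompactSupport η →
    ∑ j, ∫ z, a j z * (D (-1) j η z * W φ z) = ∫ z, h z * (η z * W φ z)

/-- the translated mollifier -/
noncomputable def eta (m : ℕ) (x y : ι → ℂ) : ℂ := (rho ((m : ℝ) + 1) (x - y) : ℂ)

lemma contDiff_eta (m : ℕ) (x : ι → ℂ) : ContDiff ℝ ∞ (eta m x) :=
  (contDiff_rhoC (ι := ι) ((m : ℝ) + 1)).comp (contDiff_const.sub contDiff_id)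

lemma hasCompactSupport_eta (m : ℕ) (x : ι → ℂ) : HasCompactSupport (eta m x) :=
  (hasCompactSupport_rhoC (ι := ι) (t := (m : ℝ) + 1) (by positivity)).comp_homeomorph
    (Homeomorph.subLeft x)

lemma mol_eq_integral (m : ℕ) (F : (ι → ℂ) → ℂ) (x : ι → ℂ) :
    mol m F x = ∫ y, F y * eta m x y := rfl

lemma D_mol (m : ℕ) {F : (ι → ℂ) → ℂ} (hF : LocallyIntegrable F) {s : ℂ} {j : ι} (x : ι → ℂ) :
    D s j (mol m F) x = -∫ y, F y * D s j (eta m x) y := by
  have hr := contDiff_rhoC (ι := ι) ((m : ℝ) + 1)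
  have hc := hasCompactSupport_rhoC (ι := ι) (t := (m : ℝ) + 1) (by positivity)
  rw [mol, D_conv hF hr hc, conv, ← integral_neg]
  congr 1
  funext y
  have := D_comp_sub (s := s) (j := j) x y
    (u := fun z => (rho ((m : ℝ) + 1) z : ℂ)) (hr.differentiable (by simp) _)
  have h2 : D s j (eta m x) y = -D s j (fun z => (rho ((m : ℝ) + 1) z : ℂ)) (x - y) := this
  rw [h2]
  ring

lemma LocL2.mul_continuous {F χ : (ι → ℂ) → ℂ} (hF : LocL2 F) (hχ : Continuous χ) :
    LocL2 fun z => χ z * F z := by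
  intro R
  obtain ⟨C, hC⟩ : ∃ C, ∀ x ∈ Metric.closedBall (0 : ι → ℂ) R, ‖χ x‖ ≤ C :=
    (isCompact_closedBall (0 : ι → ℂ) R).exists_bound_of_continuousOn hχ.continuousOn
  have e : (Metric.closedBall (0 : ι → ℂ) R).indicator (fun z => χ z * F z) =
      fun z => χ z * (Metric.closedBall (0 : ι → ℂ) R).indicator F z := by
    funext z
    by_cases hz : z ∈ Metric.closedBall (0 : ι → ℂ) R
    · simp [indicator_of_mem hz]
    · simp [indicator_of_notMem hz]
  rw [e]
  refine (hF R).of_le_mul (c := C) (hχ.aestronglyMeasurable.mul (hF R).1)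
    (Eventually.of_forall fun z => ?_)
  by_cases hz : z ∈ Metric.closedBall (0 : ι → ℂ) R
  · rw [norm_mul]
    exact mul_le_mul_of_nonneg_right (hC z hz) (norm_nonneg _)
  · simp [indicator_of_notMem hz]

lemma LocL2.add {F G : (ι → ℂ) → ℂ} (hF : LocL2 F) (hG : LocL2 G) :
    LocL2 fun z => F z + G z := by
  intro R
  have := (hF R).add (hG R)
  rw [← indicator_add'] at this
  exact this

lemma LocL2.neg {F : (ι → ℂ) → ℂ} (hF : LocL2 F) : LocL2 fun z => -F z := by
  intro R
  have := (hF R).neg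
  rw [← indicator_neg'] at this
  exact this

lemma LocL2.sub {F G : (ι → ℂ) → ℂ} (hF : LocL2 F) (hG : LocL2 G) :
    LocL2 fun z => F z - G z := by
  simpa [sub_eq_add_neg] using hF.add hG.neg

lemma LocL2.sum {κ : Type*} {S : Finset κ} {F : κ → (ι → ℂ) → ℂ} (hF : ∀ i ∈ S, LocL2 (F i)) :
    LocL2 fun z => ∑ i ∈ S, F i z := by
  classical
  induction S using Finset.induction_on with
  | empty =>
    intro R
    simp only [Finset.sum_empty]
    have : (Metric.closedBall (0 : ι → ℂ) R).indicator (fun _ : ι → ℂ => (0 : ℂ)) = 0 := by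
      funext z
      simp [indicator]
    rw [this]
    exact MemLp.zero
  | insert i S hi ih =>
    simp only [Finset.sum_insert hi]
    exact (hF i (Finset.mem_insert_self i S)).add
      (ih fun k hk => hF k (Finset.mem_insert_of_mem hk))

lemma memLp_of_locL2 {F : (ι → ℂ) → ℂ} (hF : LocL2 F) {R : ℝ} (h0 : ∀ x, R < ‖x‖ → F x = 0) :
    MemLp F 2 volume := by
  have : (Metric.closedBall (0 : ι → ℂ) R).indicator F = F := by
    funext z
    by_cases hz : z ∈ Metric.closedBall (0 : ι → ℂ) R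
    · simp [indicator_of_mem hz]
    · rw [indicator_of_notMem hz, h0 z (by simpa using hz)]
  rw [← this]
  exact hF R

lemma D_mol_mul (m : ℕ) {F χ : (ι → ℂ) → ℂ} (hF : LocL2 F) (hχ : ContDiff ℝ ∞ χ)
    {s : ℂ} {j : ι} (x : ι → ℂ) :
    D s j (mol m fun z => χ z * F z) x = -(∫ y, F y * D s j (fun z => χ z * eta m x z) y) +
      mol m (fun z => D s j χ z * F z) x := by
  have hl := hF.locallyIntegrable
  rw [D_mol m (hF.mul_continuous hχ.continuous).locallyIntegrable, mol_eq_integral]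
  have h1 : ∀ y, D s j (fun z => χ z * eta m x z) y = D s j χ y * eta m x y +
      χ y * D s j (eta m x) y := fun y =>
    D_mul (hχ.differentiable (by simp) y) ((contDiff_eta m x).differentiable (by simp) y)
  have i1 : Integrable fun y => F y * D s j (fun z => χ z * eta m x z) y :=
    integrable_mul_of_compact hl (contDiff_D (hχ.mul (contDiff_eta m x))).continuous
      (hasCompactSupport_D ((hasCompactSupport_eta m x).mul_left))
  have i2 : Integrable fun y => F y * (D s j χ y * eta m x y) :=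
    integrable_mul_of_compact hl ((contDiff_D hχ).continuous.mul (contDiff_eta m x).continuous)
      ((hasCompactSupport_eta m x).mul_left)
  have e1 : ∫ y, D s j χ y * F y * eta m x y = ∫ y, F y * (D s j χ y * eta m x y) := by
    congr 1
    funext y
    ring
  have e2 : ∫ y, χ y * F y * D s j (eta m x) y =
      (∫ y, F y * D s j (fun z => χ z * eta m x z) y) - ∫ y, F y * (D s j χ y * eta m x y) := by
    rw [← integral_sub i1 i2]
    congr 1
    funext y
    rw [h1]
    ring
  rw [e1, e2]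
  ring

variable {φ : (ι → ℂ) → ℝ} {a : ι → (ι → ℂ) → ℂ} {h : (ι → ℂ) → ℂ} {χ : (ι → ℂ) → ℂ}

lemma mol_sub' (m : ℕ) {F G : (ι → ℂ) → ℂ} (hF : LocL2 F) (hG : LocL2 G) (x : ι → ℂ) :
    mol m (fun z => F z - G z) x = mol m F x - mol m G x :=
  congrFun (mol_sub m hF.locallyIntegrable hG.locallyIntegrable) x

lemma mol_sum' (m : ℕ) {κ : Type*} {S : Finset κ} {F : κ → (ι → ℂ) → ℂ}
    (hF : ∀ i ∈ S, LocL2 (F i)) (x : ι → ℂ) :
    mol m (fun z => ∑ i ∈ S, F i z) x = ∑ i ∈ S, mol m (F i) x := by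
  simp only [mol, conv]
  rw [← integral_finsetSum _ fun i hi => integrable_mol m (hF i hi).locallyIntegrable x]
  congr 1
  funext y
  rw [Finset.sum_mul]

lemma S_mol (hd : WeakData φ a h) (hχ : ContDiff ℝ ∞ χ) (hχc : HasCompactSupport χ) (m : ℕ)
    (j k : ι) (x : ι → ℂ) :
    dbar j (mol m fun z => χ z * a k z) x - dbar k (mol m fun z => χ z * a j z) x =
      mol m (fun z => D 1 j χ z * a k z - D 1 k χ z * a j z) x := by
  rw [dbar_eq, dbar_eq, D_mol_mul m (hd.ha k) hχ, D_mol_mul m (hd.ha j) hχ,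
    mol_sub' m ((hd.ha k).mul_continuous (contDiff_D hχ).continuous)
      ((hd.ha j).mul_continuous (contDiff_D hχ).continuous),
    hd.W1 k j _ (hχ.mul (contDiff_eta m x)) (hχc.mul_right)]
  ring

lemma T_mol (hφ : ContDiff ℝ ∞ φ) (hd : WeakData φ a h) (hχ : ContDiff ℝ ∞ χ)
    (hχc : HasCompactSupport χ) (m : ℕ) (x : ι → ℂ) :
    Tst φ (fun j => mol m fun z => χ z * a j z) x =
      mol m (fun z => χ z * h z - ∑ j, D (-1) j χ z * a j z) x +
      ∑ j, (del j (fun y => (φ y : ℂ)) x * mol m (fun z => χ z * a j z) x -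
        mol m (fun z => del j (fun y => (φ y : ℂ)) z * (χ z * a j z)) x) := by
  have hφc := contDiff_ofReal_comp hφ
  have hE : ContDiff ℝ ∞ fun z : ι → ℂ => (Real.exp (φ z) : ℂ) := contDiff_ofReal_comp hφ.exp
  have hW := contDiff_ofReal_comp (contDiff_W hφ)
  have hχη := hχ.mul (contDiff_eta m x)
  have hχηc : HasCompactSupport fun z => χ z * eta m x z := hχc.mul_right
  -- the test function
  set θ : (ι → ℂ) → ℂ := fun z => (χ z * eta m x z) * (Real.exp (φ z) : ℂ) with hθ
  have hθs : ContDiff ℝ ∞ θ := hχη.mul hE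
  have hθc : HasCompactSupport θ := hχηc.mul_right
  have hWE : ∀ z, (Real.exp (φ z) : ℂ) * (W φ z : ℂ) = 1 := by
    intro z
    rw [W, ← Complex.ofReal_mul, ← Real.exp_add]
    simp
  have hθW : (fun z => θ z * (W φ z : ℂ)) = fun z => χ z * eta m x z := by
    funext z
    rw [hθ]
    simp only
    rw [mul_assoc, hWE, mul_one]
  have hDθ : ∀ j z, D (-1) j θ z * (W φ z : ℂ) = D (-1) j (fun z => χ z * eta m x z) z +
      χ z * eta m x z * del j (fun y => (φ y : ℂ)) z := by
    intro j z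
    have h1 := D_mul (s := -1) (j := j) (hθs.differentiable (by simp) z)
      (hW.differentiable (by simp) z)
    rw [hθW, D_W hφ] at h1
    have h2 : χ z * eta m x z = θ z * (W φ z : ℂ) := (congrFun hθW z).symm
    rw [h1, del_eq, h2]
    ring
  have hW2 := hd.W2 θ hθs hθc
  have e1 : ∫ z, h z * (θ z * (W φ z : ℂ)) = ∫ z, h z * (χ z * eta m x z) := by
    congr 1
    funext z
    rw [congrFun hθW z]
  have i1 : ∀ j, Integrable fun z => a j z * D (-1) j (fun z => χ z * eta m x z) z := fun j =>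
    integrable_mul_of_compact (hd.ha j).locallyIntegrable (contDiff_D hχη).continuous
      (hasCompactSupport_D hχηc)
  have i2 : ∀ j, Integrable fun z => a j z * (χ z * eta m x z * del j (fun y => (φ y : ℂ)) z) :=
    fun j => integrable_mul_of_compact (hd.ha j).locallyIntegrable
      (hχη.continuous.mul (by rw [del_eq]; exact (contDiff_D hφc).continuous)) hχηc.mul_right
  have e2 : ∀ j, ∫ z, a j z * (D (-1) j θ z * (W φ z : ℂ)) =
      (∫ z, a j z * D (-1) j (fun z => χ z * eta m x z) z) +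
      ∫ z, a j z * (χ z * eta m x z * del j (fun y => (φ y : ℂ)) z) := by
    intro j
    rw [← integral_add (i1 j) (i2 j)]
    congr 1
    funext z
    rw [hDθ]
    ring
  simp only [e1, e2, Finset.sum_add_distrib] at hW2
  have e3 : mol m (fun z => χ z * h z) x = ∫ z, h z * (χ z * eta m x z) := by
    rw [mol_eq_integral]
    congr 1
    funext z
    ring
  have e4 : ∀ j, mol m (fun z => del j (fun y => (φ y : ℂ)) z * (χ z * a j z)) x =
      ∫ z, a j z * (χ z * eta m x z * del j (fun y => (φ y : ℂ)) z) := by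
    intro j
    rw [mol_eq_integral]
    congr 1
    funext z
    ring
  have e5 : Tst φ (fun j => mol m fun z => χ z * a j z) x =
      ∑ j, ((∫ z, a j z * D (-1) j (fun z => χ z * eta m x z) z) -
        mol m (fun z => D (-1) j χ z * a j z) x +
        del j (fun y => (φ y : ℂ)) x * mol m (fun z => χ z * a j z) x) := by
    rw [Tst, ← Finset.sum_neg_distrib]
    refine Finset.sum_congr rfl fun j _ => ?_
    rw [delta, del_eq j (mol m fun z => χ z * a j z), D_mol_mul m (hd.ha j) hχ]
    ring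
  rw [e5, mol_sub' m (hd.hh.mul_continuous hχ.continuous)
    (LocL2.sum fun j _ => (hd.ha j).mul_continuous (contDiff_D hχ).continuous),
    mol_sum' m (fun j _ => (hd.ha j).mul_continuous (contDiff_D hχ).continuous), e3, ← hW2]
  simp only [e4, Finset.sum_add_distrib, Finset.sum_sub_distrib]
  ring

end Pool.Agent.Lib.Hormander
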