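import Pool.Agent.Lib.Hormander.Closure

/-!
The basic estimate for weak solutions: passage to the limit in the mollification and the cut-off.
-/

namespace Pool.Agent.Lib.Hormander

open MeasureTheory Set Topology Filter
open scoped ContDiff ComplexConjugate ENNReal

set_option linter.unusedSectionVars false

variable {ι : Type*} [Fintype ι] [DecidableEq ι]
variable {φ κ : (ι → ℂ) → ℝ} {a : ι → (ι → ℂ) → ℂ} {h : (ι → ℂ) → ℂ} {χ : (ι → ℂ) → ℂ}

lemma integrable_weight {F : (ι → ℂ) → ℂ} {R : ℝ} (hF0 : ∀ x, R < ‖x‖ → F x = 0)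
    (hF : MemLp F 2 volume) {b : (ι → ℂ) → ℝ} (hb : Continuous b) :
    Integrable fun x => b x * ‖F x‖ ^ 2 := by
  obtain ⟨C, hC⟩ : ∃ C, ∀ x ∈ Metric.closedBall (0 : ι → ℂ) R, ‖b x‖ ≤ C :=
    (isCompact_closedBall (0 : ι → ℂ) R).exists_bound_of_continuousOn hb.continuousOn
  have h1 : Integrable fun x => ‖F x‖ ^ 2 := hF.integrable_norm_pow (by norm_num)
  refine (h1.const_mul C).mono' (hb.aestronglyMeasurable.mul (hF.1.norm.pow 2))
    (Eventually.of_forall fun x => ?_)
  by_cases hx : R < ‖x‖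
  · simp [hF0 x hx]
  · push Not at hx
    rw [norm_mul, norm_pow, norm_norm]
    exact mul_le_mul_of_nonneg_right (hC x (by simpa using hx)) (by positivity)

lemma basic_estimate' (hφ : ContDiff ℝ ∞ φ) (hκ : Continuous κ)
    (hlevi : ∀ z w, κ z * nsq w ≤ levi φ z w) {α : ι → (ι → ℂ) → ℂ}
    (hα : ∀ j, ContDiff ℝ ∞ (α j)) (hc : ∀ j, HasCompactSupport (α j)) :
    ∑ j, ∫ z, (κ z * W φ z) * ‖α j z‖ ^ 2 ≤ (∫ z, W φ z * ‖Tst φ α z‖ ^ 2) +
      (1 / 2) * ∑ j, ∑ k, ∫ z, W φ z * ‖dbar j (α k) z - dbar k (α j) z‖ ^ 2 := by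
  have hWc : Continuous (W φ) := (contDiff_W hφ).continuous
  have hφc := contDiff_ofReal_comp hφ
  have hnc : ∀ {f : (ι → ℂ) → ℂ}, HasCompactSupport f → HasCompactSupport fun z => ‖f z‖ ^ 2 :=
    fun hf => hf.norm.comp_left (g := fun x : ℝ => x ^ 2) (by simp)
  have i1 : ∀ j, Integrable fun z => (κ z * W φ z) * ‖α j z‖ ^ 2 := fun j =>
    ((hκ.mul hWc).mul ((hα j).continuous.norm.pow 2)).integrable_of_hasCompactSupport
      (hnc (hc j)).mul_left
  have hdbc : ∀ j k, HasCompactSupport fun z => dbar j (α k) z - dbar k (α j) z := by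
    intro j k
    rw [dbar_eq, dbar_eq]
    exact (hasCompactSupport_D (hc k)).sub (hasCompactSupport_D (hc j))
  have hdbs : ∀ j k, Continuous fun z => dbar j (α k) z - dbar k (α j) z := by
    intro j k
    rw [dbar_eq, dbar_eq]
    exact (contDiff_D (hα k)).continuous.sub (contDiff_D (hα j)).continuous
  have i2 : ∀ j k, Integrable fun z => W φ z * ‖dbar j (α k) z - dbar k (α j) z‖ ^ 2 := fun j k =>
    (hWc.mul ((hdbs j k).norm.pow 2)).integrable_of_hasCompactSupport (hnc (hdbc j k)).mul_left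
  have hb := basic_estimate hφ hα hc
  have e1 : ∫ z, (∑ j, ∑ k, ‖dbar j (α k) z - dbar k (α j) z‖ ^ 2) * W φ z =
      ∑ j, ∑ k, ∫ z, W φ z * ‖dbar j (α k) z - dbar k (α j) z‖ ^ 2 := by
    rw [← Finset.sum_congr rfl fun j _ => integral_finsetSum _ fun k _ => i2 j k,
      ← integral_finsetSum _ fun j _ => integrable_finsetSum _ fun k _ => i2 j k]
    congr 1
    funext z
    rw [mul_comm]
    simp only [Finset.mul_sum]
  have e2 : ∫ z, ‖Tst φ α z‖ ^ 2 * W φ z = ∫ z, W φ z * ‖Tst φ α z‖ ^ 2 := by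
    congr 1
    funext z
    ring
  rw [e1, e2] at hb
  refine le_trans ?_ hb
  rw [← integral_finsetSum _ fun j _ => i1 j]
  apply integral_mono (integrable_finsetSum _ fun j _ => i1 j)
  · have hcont : Continuous fun z => levi φ z (fun j => α j z) * W φ z := by
      apply Continuous.mul _ hWc
      unfold levi
      apply Complex.continuous_re.comp
      refine continuous_finsetSum _ fun j _ => continuous_finsetSum _ fun k _ => ?_
      rw [dbar_eq, del_eq]
      exact ((contDiff_D (contDiff_D hφc)).continuous.mul (hα j).continuous).mul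
        (Complex.continuous_conj.comp (hα k).continuous)
    apply hcont.integrable_of_hasCompactSupport
    have hK : IsCompact (⋃ j, tsupport (α j)) := isCompact_iUnion fun j => (hc j).isCompact
    apply HasCompactSupport.intro hK
    intro z hz
    have h0 : ∀ j, α j z = 0 := fun j => image_eq_zero_of_notMem_tsupport fun hj =>
      hz (mem_iUnion.2 ⟨j, hj⟩)
    simp [levi, h0]
  · intro z
    have h1 := hlevi z (fun j => α j z)
    calc ∑ j, (κ z * W φ z) * ‖α j z‖ ^ 2 = (κ z * nsq fun j => α j z) * W φ z := by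
          rw [← Finset.mul_sum, nsq]
          ring
      _ ≤ levi φ z (fun j => α j z) * W φ z := mul_le_mul_of_nonneg_right h1 (W_pos φ z).le

theorem local_estimate (hφ : ContDiff ℝ ∞ φ) (hκ : Continuous κ) (hκ0 : ∀ z, 0 ≤ κ z)
    (hlevi : ∀ z w, κ z * nsq w ≤ levi φ z w) (hd : WeakData φ a h)
    (hχ : ContDiff ℝ ∞ χ) (hχc : HasCompactSupport χ) :
    ∑ j, ∫ z, (κ z * W φ z) * ‖χ z * a j z‖ ^ 2 ≤
      (∫ z, W φ z * ‖χ z * h z - ∑ j, D (-1) j χ z * a j z‖ ^ 2) +
      (1 / 2) * ∑ j, ∑ k, ∫ z, W φ z * ‖D 1 j χ z * a k z - D 1 k χ z * a j z‖ ^ 2 := by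
  have hWc : Continuous (W φ) := (contDiff_W hφ).continuous
  have hφc := contDiff_ofReal_comp hφ
  have hφj : ∀ j, Continuous (del j (fun y => (φ y : ℂ))) := fun j => by
    rw [del_eq]; exact (contDiff_D hφc).continuous
  obtain ⟨R, hR⟩ := hχc.isCompact.isBounded.subset_closedBall (0 : ι → ℂ)
  have hout : ∀ x, R < ‖x‖ → x ∉ tsupport χ := by
    intro x hx hx'
    have := hR hx'
    simp only [Metric.mem_closedBall, dist_zero_right] at this
    linarith
  have hχ0 : ∀ x, R < ‖x‖ → χ x = 0 := fun x hx => image_eq_zero_of_notMem_tsupport (hout x hx)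
  have hDχ0 : ∀ s j x, R < ‖x‖ → D s j χ x = 0 := fun s j x hx => D_eq_zero_of_notMem (hout x hx)
  -- the limits
  set w : ι → (ι → ℂ) → ℂ := fun j z => χ z * a j z with hw
  set A : (ι → ℂ) → ℂ := fun z => χ z * h z - ∑ j, D (-1) j χ z * a j z with hA
  set B : ι → ι → (ι → ℂ) → ℂ := fun j k z => D 1 j χ z * a k z - D 1 k χ z * a j z with hB
  have hwL : ∀ j, LocL2 (w j) := fun j => (hd.ha j).mul_continuous hχ.continuous
  have hAL : LocL2 A := (hd.hh.mul_continuous hχ.continuous).sub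
    (LocL2.sum fun j _ => (hd.ha j).mul_continuous (contDiff_D hχ).continuous)
  have hBL : ∀ j k, LocL2 (B j k) := fun j k =>
    ((hd.ha k).mul_continuous (contDiff_D hχ).continuous).sub
      ((hd.ha j).mul_continuous (contDiff_D hχ).continuous)
  have hw0 : ∀ j x, R < ‖x‖ → w j x = 0 := fun j x hx => by simp [hw, hχ0 x hx]
  have hA0 : ∀ x, R < ‖x‖ → A x = 0 := fun x hx => by simp [hA, hχ0 x hx, hDχ0 _ _ x hx]
  have hB0 : ∀ j k x, R < ‖x‖ → B j k x = 0 := fun j k x hx => by simp [hB, hDχ0 _ _ x hx]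
  have hwM : ∀ j, MemLp (w j) 2 volume := fun j => memLp_of_locL2 (hwL j) (hw0 j)
  have hAM : MemLp A 2 volume := memLp_of_locL2 hAL hA0
  have hBM : ∀ j k, MemLp (B j k) 2 volume := fun j k => memLp_of_locL2 (hBL j k) (hB0 j k)
  have hR1 : ∀ {F : (ι → ℂ) → ℂ}, (∀ x, R < ‖x‖ → F x = 0) → ∀ x, R + 1 < ‖x‖ → F x = 0 :=
    fun hF x hx => hF x (by linarith)
  have hmol0 : ∀ {F : (ι → ℂ) → ℂ}, (∀ x, R < ‖x‖ → F x = 0) → ∀ m x, R + 1 < ‖x‖ →
      mol m F x = 0 := by
    intro F hF m x hx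
    apply mol_eq_zero m hF
    have h2 : 1 / ((m : ℝ) + 1) ≤ 1 := by
      rw [div_le_one (by positivity)]
      have : (0 : ℝ) ≤ m := Nat.cast_nonneg m
      linarith
    linarith
  have hmolM : ∀ {F : (ι → ℂ) → ℂ}, MemLp F 2 volume → ∀ m, MemLp (mol m F) 2 volume := by
    intro F hF m
    refine ⟨(contDiff_mol m (hF.locallyIntegrable (by norm_num))).continuous.aestronglyMeasurable,
      (eLpNorm_mol_le m hF.1).trans_lt hF.2⟩
  have hcs : ∀ {F : (ι → ℂ) → ℂ}, (∀ x, R + 1 < ‖x‖ → F x = 0) → HasCompactSupport F := by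
    intro F hF
    apply HasCompactSupport.intro (isCompact_closedBall (0 : ι → ℂ) (R + 1))
    intro x hx
    exact hF x (by simpa using hx)
  -- the estimate for the mollifications
  have key : ∀ m, ∑ j, ∫ z, (κ z * W φ z) * ‖mol m (w j) z‖ ^ 2 ≤
      (∫ z, W φ z * ‖Tst φ (fun j => mol m (w j)) z‖ ^ 2) +
      (1 / 2) * ∑ j, ∑ k, ∫ z, W φ z * ‖mol m (B j k) z‖ ^ 2 := by
    intro m
    have h1 := basic_estimate' hφ hκ hlevi (α := fun j => mol m (w j))
      (fun j => contDiff_mol m (hwL j).locallyIntegrable) (fun j => hcs (hmol0 (hw0 j) m))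
    have h2 : ∀ j k z, dbar j (mol m (w k)) z - dbar k (mol m (w j)) z = mol m (B j k) z :=
      fun j k z => S_mol hd hχ hχc m j k z
    simp only [h2] at h1
    exact h1
  -- the limit of the left hand side
  have lim1 : Tendsto (fun m => ∑ j, ∫ z, (κ z * W φ z) * ‖mol m (w j) z‖ ^ 2) atTop
      (𝓝 (∑ j, ∫ z, (κ z * W φ z) * ‖w j z‖ ^ 2)) := by
    apply tendsto_finsetSum
    intro j _
    exact tendsto_weight (R := R + 1) (hmol0 (hw0 j)) (hR1 (hw0 j)) (hmolM (hwM j)) (hwM j)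
      (tendsto_mol (hwM j)) (hκ.mul hWc) (fun x => mul_nonneg (hκ0 x) (W_pos φ x).le)
  have lim3 : Tendsto (fun m => ∑ j, ∑ k, ∫ z, W φ z * ‖mol m (B j k) z‖ ^ 2) atTop
      (𝓝 (∑ j, ∑ k, ∫ z, W φ z * ‖B j k z‖ ^ 2)) := by
    apply tendsto_finsetSum
    intro j _
    apply tendsto_finsetSum
    intro k _
    exact tendsto_weight (R := R + 1) (hmol0 (hB0 j k)) (hR1 (hB0 j k)) (hmolM (hBM j k)) (hBM j k)
      (tendsto_mol (hBM j k)) hWc (fun x => (W_pos φ x).le)
  -- the adjoint term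
  set P : ι → (ι → ℂ) → ℂ := fun j z => del j (fun y => (φ y : ℂ)) z * w j z with hP
  have hPL : ∀ j, LocL2 (P j) := fun j => (hwL j).mul_continuous (hφj j)
  have hP0 : ∀ j x, R < ‖x‖ → P j x = 0 := fun j x hx => by simp [hP, hw0 j x hx]
  have hPM : ∀ j, MemLp (P j) 2 volume := fun j => memLp_of_locL2 (hPL j) (hP0 j)
  have hT : ∀ m, Tst φ (fun j => mol m (w j)) = fun x => mol m A x +
      ∑ j, (del j (fun y => (φ y : ℂ)) x * mol m (w j) x - mol m (P j) x) := by
    intro m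
    funext x
    exact T_mol hφ hd hχ hχc m x
  have hT0 : ∀ m x, R + 1 < ‖x‖ → Tst φ (fun j => mol m (w j)) x = 0 := by
    intro m x hx
    rw [hT m]
    simp [hmol0 hA0 m x hx, hmol0 (hw0 _) m x hx, hmol0 (hP0 _) m x hx]
  have hmulM : ∀ m j, MemLp (fun x => del j (fun y => (φ y : ℂ)) x * mol m (w j) x) 2 volume := by
    intro m j
    have h1 : LocL2 (mol m (w j)) := by
      intro R'
      exact (hmolM (hwM j) m).indicator Metric.isClosed_closedBall.measurableSet
    exact memLp_of_locL2 (h1.mul_continuous (hφj j)) (R := R + 1) fun x hx => by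
      rw [hmol0 (hw0 j) m x hx, mul_zero]
  have hTM : ∀ m, MemLp (Tst φ (fun j => mol m (w j))) 2 volume := by
    intro m
    rw [hT m]
    exact (hmolM hAM m).add (memLp_finsetSum _ fun j _ => (hmulM m j).sub (hmolM (hPM j) m))
  have hTlim : Tendsto (fun m => eLpNorm (Tst φ (fun j => mol m (w j)) - A) 2 volume) atTop
      (𝓝 0) := by
    have hb : ∀ m, eLpNorm (Tst φ (fun j => mol m (w j)) - A) 2 volume ≤
        eLpNorm (mol m A - A) 2 volume + ∑ j, (eLpNorm ((fun x => del j (fun y => (φ y : ℂ)) x *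
          mol m (w j) x) - P j) 2 volume + eLpNorm (mol m (P j) - P j) 2 volume) := by
      intro m
      have e1 : Tst φ (fun j => mol m (w j)) - A = (mol m A - A) +
          ∑ j, (((fun x => del j (fun y => (φ y : ℂ)) x * mol m (w j) x) - P j) -
            (mol m (P j) - P j)) := by
        rw [hT m]
        funext x
        simp only [Pi.sub_apply, Pi.add_apply, Finset.sum_apply, sub_sub_sub_cancel_right]
        ring
      rw [e1]
      refine (eLpNorm_add_le ((hmolM hAM m).1.sub hAM.1) ?_ (by norm_num)).trans ?_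
      · exact (memLp_finsetSum' _ fun j _ => ((hmulM m j).sub (hPM j)).sub
          ((hmolM (hPM j) m).sub (hPM j))).1
      · gcongr
        refine (eLpNorm_sum_le (fun j _ => (((hmulM m j).sub (hPM j)).sub
          ((hmolM (hPM j) m).sub (hPM j))).1) (by norm_num)).trans ?_
        refine Finset.sum_le_sum fun j _ => ?_
        exact eLpNorm_sub_le ((hmulM m j).sub (hPM j)).1 ((hmolM (hPM j) m).sub (hPM j)).1
          (by norm_num)
    have hlim0 : Tendsto (fun m => eLpNorm (mol m A - A) 2 volume + ∑ j, (eLpNorm ((fun x =>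
        del j (fun y => (φ y : ℂ)) x * mol m (w j) x) - P j) 2 volume +
        eLpNorm (mol m (P j) - P j) 2 volume)) atTop (𝓝 (0 + ∑ _j : ι, ((0 : ℝ≥0∞) + 0))) := by
      apply (tendsto_mol hAM).add
      apply tendsto_finsetSum
      intro j _
      apply Tendsto.add _ (tendsto_mol (hPM j))
      exact tendsto_mul_bdd (R := R + 1) (hmol0 (hw0 j)) (hR1 (hw0 j)) (tendsto_mol (hwM j)) (hφj j)
    simp only [add_zero, Finset.sum_const_zero] at hlim0
    exact tendsto_of_tendsto_of_tendsto_of_le_of_le tendsto_const_nhds hlim0 (fun _ => zero_le) hb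
  have lim2 : Tendsto (fun m => ∫ z, W φ z * ‖Tst φ (fun j => mol m (w j)) z‖ ^ 2) atTop
      (𝓝 (∫ z, W φ z * ‖A z‖ ^ 2)) :=
    tendsto_weight (R := R + 1) hT0 (hR1 hA0) hTM hAM hTlim hWc (fun x => (W_pos φ x).le)
  exact le_of_tendsto_of_tendsto' lim1 (lim2.add (lim3.const_mul _)) key

end Pool.Agent.Lib.Hormander
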