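import Pool.Agent.Lib.Hormander.Estimate

/-!
The basic estimate for weak solutions on the whole space.
-/

namespace Pool.Agent.Lib.Hormander

open MeasureTheory Set Topology Filter
open scoped ContDiff ComplexConjugate ENNReal

set_option linter.unusedSectionVars false

variable {ι : Type*} [Fintype ι] [DecidableEq ι]

/-- the model cut-off -/
noncomputable def c1 (z : ι → ℂ) : ℂ := (Real.smoothTransition (2 - nsq z) : ℂ)

/-- the cut-off function at scale `N + 1` -/
noncomputable def cutN (N : ℕ) (z : ι → ℂ) : ℂ := c1 (((N : ℝ) + 1)⁻¹ • z)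

lemma contDiff_c1 : ContDiff ℝ ∞ (c1 : (ι → ℂ) → ℂ) := by
  unfold c1
  have h : ContDiff ℝ ∞ Real.smoothTransition := Real.smoothTransition.contDiff
  exact Complex.ofRealCLM.contDiff.comp (h.comp (contDiff_const.sub contDiff_nsq))

lemma contDiff_cutN (N : ℕ) : ContDiff ℝ ∞ (cutN N : (ι → ℂ) → ℂ) :=
  contDiff_c1.comp (contDiff_const_smul _)

lemma c1_eq_zero {z : ι → ℂ} (hz : 2 ≤ ‖z‖) : c1 z = 0 := by
  unfold c1
  rw [Real.smoothTransition.zero_of_nonpos, Complex.ofReal_zero]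
  have := norm_sq_le_nsq z
  nlinarith

lemma hasCompactSupport_c1 : HasCompactSupport (c1 : (ι → ℂ) → ℂ) := by
  apply HasCompactSupport.intro (isCompact_closedBall (0 : ι → ℂ) 2)
  intro z hz
  apply c1_eq_zero
  simp only [Metric.mem_closedBall, dist_zero_right, not_le] at hz
  exact hz.le

lemma hasCompactSupport_cutN (N : ℕ) : HasCompactSupport (cutN N : (ι → ℂ) → ℂ) := by
  apply HasCompactSupport.intro (isCompact_closedBall (0 : ι → ℂ) (2 * ((N : ℝ) + 1)))
  intro z hz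
  apply c1_eq_zero
  simp only [Metric.mem_closedBall, dist_zero_right, not_le] at hz
  rw [norm_smul, norm_inv, Real.norm_of_nonneg (by positivity), ← div_eq_inv_mul,
    le_div_iff₀ (by positivity)]
  exact hz.le

lemma norm_c1_le (z : ι → ℂ) : ‖c1 z‖ ≤ 1 := by
  rw [c1, Complex.norm_real, Real.norm_of_nonneg (Real.smoothTransition.nonneg _)]
  exact Real.smoothTransition.le_one _

lemma norm_cutN_le (N : ℕ) (z : ι → ℂ) : ‖cutN N z‖ ≤ 1 := norm_c1_le _

lemma nsq_smul (t : ℝ) (z : ι → ℂ) : nsq (t • z) = t ^ 2 * nsq z := by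
  simp only [nsq, Pi.smul_apply, norm_smul, mul_pow, Finset.mul_sum, Real.norm_eq_abs, sq_abs]

lemma cutN_eq_one (N : ℕ) {z : ι → ℂ} (hz : nsq z ≤ ((N : ℝ) + 1) ^ 2) : cutN N z = 1 := by
  unfold cutN c1
  rw [Real.smoothTransition.one_of_one_le, Complex.ofReal_one]
  rw [nsq_smul, inv_pow]
  have h1 : (((N : ℝ) + 1) ^ 2)⁻¹ * nsq z ≤ 1 := by
    rw [← div_eq_inv_mul, div_le_one (by positivity)]
    exact hz
  linarith

lemma tendsto_cutN (z : ι → ℂ) : Tendsto (fun N => cutN N z) atTop (𝓝 1) := by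
  apply tendsto_const_nhds.congr'
  obtain ⟨M, hM⟩ := exists_nat_ge (nsq z)
  filter_upwards [eventually_ge_atTop M] with N hN
  rw [cutN_eq_one]
  have h1 : (M : ℝ) ≤ N := by exact_mod_cast hN
  have h2 : (0 : ℝ) ≤ N := Nat.cast_nonneg N
  nlinarith

lemma D_comp_smul {u : (ι → ℂ) → ℂ} {s : ℂ} {j : ι} (t : ℝ) (z : ι → ℂ)
    (hu : DifferentiableAt ℝ u (t • z)) : D s j (fun y => u (t • y)) z = t * D s j u (t • z) := by
  have h1 : HasFDerivAt (fun y => u (t • y)) (t • (fderiv ℝ u (t • z))) z := by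
    have h2 := hu.hasFDerivAt.comp z ((hasFDerivAt_id z).const_smul t)
    refine h2.congr_fderiv ?_
    ext w
    simp
  simp only [D, h1.fderiv, _root_.smul_apply, Complex.real_smul]
  ring

lemma exists_D_cutN_bound : ∃ C : ℝ, 0 ≤ C ∧ ∀ (s : ℂ), s = 1 ∨ s = -1 → ∀ (j : ι) (N : ℕ)
    (z : ι → ℂ), ‖D s j (cutN N) z‖ ≤ C / ((N : ℝ) + 1) := by
  have h1 : ∀ s : ℂ, ∀ j : ι, ∃ C, ∀ z, ‖D s j (c1 : (ι → ℂ) → ℂ) z‖ ≤ C := fun s j =>
    (hasCompactSupport_D (s := s) (j := j) (hasCompactSupport_c1 (ι := ι))).exists_bound_of_continuous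
      (contDiff_D contDiff_c1).continuous
  choose C hC using h1
  refine ⟨∑ j, (|C 1 j| + |C (-1) j|), by positivity, ?_⟩
  rintro s hs j N z
  have h2 : D s j (cutN N) z = ((((N : ℝ) + 1)⁻¹ : ℝ) : ℂ) * D s j c1 (((N : ℝ) + 1)⁻¹ • z) :=
    D_comp_smul _ z (contDiff_c1.differentiable (by simp) _)
  rw [h2, norm_mul, Complex.norm_real, Real.norm_of_nonneg (by positivity), div_eq_inv_mul]
  apply mul_le_mul_of_nonneg_left _ (by positivity)
  have h3 : |C 1 j| + |C (-1) j| ≤ ∑ j, (|C 1 j| + |C (-1) j|) :=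
    Finset.single_le_sum (f := fun j => |C 1 j| + |C (-1) j|) (fun _ _ => by positivity)
      (Finset.mem_univ j)
  refine le_trans ?_ h3
  rcases hs with rfl | rfl
  · have := (hC 1 j (((N : ℝ) + 1)⁻¹ • z)).trans (le_abs_self _)
    have := abs_nonneg (C (-1) j)
    linarith
  · have := (hC (-1) j (((N : ℝ) + 1)⁻¹ • z)).trans (le_abs_self _)
    have := abs_nonneg (C 1 j)
    linarith

variable {φ κ : (ι → ℂ) → ℝ} {a : ι → (ι → ℂ) → ℂ} {h : (ι → ℂ) → ℂ}

lemma LocL2.aesm {F : (ι → ℂ) → ℂ} (hF : LocL2 F) : AEStronglyMeasurable F volume :=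
  hF.locallyIntegrable.aestronglyMeasurable

theorem global_estimate (hφ : ContDiff ℝ ∞ φ) (hκ : Continuous κ) (hκ0 : ∀ z, 0 ≤ κ z) {K : ℝ}
    (hκ1 : ∀ z, κ z ≤ K) (hlevi : ∀ z w, κ z * nsq w ≤ levi φ z w) (hd : WeakData φ a h)
    (ha2 : ∀ j, Integrable fun z => W φ z * ‖a j z‖ ^ 2)
    (hh2 : Integrable fun z => W φ z * ‖h z‖ ^ 2) :
    ∑ j, ∫ z, (κ z * W φ z) * ‖a j z‖ ^ 2 ≤ ∫ z, W φ z * ‖h z‖ ^ 2 := by
  have hWc : Continuous (W φ) := (contDiff_W hφ).continuous
  obtain ⟨C, hC0, hC⟩ := exists_D_cutN_bound (ι := ι)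
  have hCN : ∀ (s : ℂ), s = 1 ∨ s = -1 → ∀ (j : ι) (N : ℕ) (z : ι → ℂ),
      ‖D s j (cutN N) z‖ ≤ C := by
    intro s hs j N z
    refine (hC s hs j N z).trans ?_
    rw [div_le_iff₀ (by positivity)]
    have : (0 : ℝ) ≤ N := Nat.cast_nonneg N
    nlinarith
  have hDlim : ∀ (s : ℂ), s = 1 ∨ s = -1 → ∀ (j : ι) (z : ι → ℂ),
      Tendsto (fun N => D s j (cutN N) z) atTop (𝓝 0) := by
    intro s hs j z
    apply squeeze_zero_norm (fun N => hC s hs j N z)
    have h1 := tendsto_one_div_add_atTop_nhds_zero_nat (𝕜 := ℝ)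
    have h2 := h1.const_mul C
    simpa [div_eq_mul_inv] using h2
  have key := fun N => local_estimate hφ hκ hκ0 hlevi hd (contDiff_cutN N) (hasCompactSupport_cutN N)
  -- left hand side
  have lim1 : Tendsto (fun N => ∑ j, ∫ z, (κ z * W φ z) * ‖cutN N z * a j z‖ ^ 2) atTop
      (𝓝 (∑ j, ∫ z, (κ z * W φ z) * ‖a j z‖ ^ 2)) := by
    apply tendsto_finsetSum
    intro j _
    apply tendsto_integral_of_dominated_convergence (fun z => K * (W φ z * ‖a j z‖ ^ 2))
    · intro N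
      exact (hκ.mul hWc).aestronglyMeasurable.mul
        (((contDiff_cutN N).continuous.aestronglyMeasurable.mul (hd.ha j).aesm).norm.pow 2)
    · exact (ha2 j).const_mul K
    · intro N
      refine Eventually.of_forall fun z => ?_
      rw [Real.norm_of_nonneg (mul_nonneg (mul_nonneg (hκ0 z) (W_pos φ z).le) (sq_nonneg _)),
        norm_mul, mul_pow, ← mul_assoc K]
      have h1 : ‖cutN N z‖ ^ 2 ≤ 1 := by
        have := norm_cutN_le N z
        have := norm_nonneg (cutN N z)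
        nlinarith
      have h2 : 0 ≤ ‖a j z‖ ^ 2 := sq_nonneg _
      have h3 : κ z * W φ z ≤ K * W φ z := mul_le_mul_of_nonneg_right (hκ1 z) (W_pos φ z).le
      have h4 : 0 ≤ κ z * W φ z := mul_nonneg (hκ0 z) (W_pos φ z).le
      calc κ z * W φ z * (‖cutN N z‖ ^ 2 * ‖a j z‖ ^ 2)
          ≤ κ z * W φ z * (1 * ‖a j z‖ ^ 2) := by gcongr
        _ ≤ K * W φ z * ‖a j z‖ ^ 2 := by rw [one_mul]; gcongr
    · refine Eventually.of_forall fun z => ?_
      have h1 := ((tendsto_cutN z).mul_const (a j z)).norm.pow 2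
      rw [one_mul] at h1
      exact h1.const_mul _
  -- bound for the sums
  have hCS : ∀ z, (∑ j, C * ‖a j z‖) ^ 2 ≤ (Fintype.card ι : ℝ) * C ^ 2 * ∑ j, ‖a j z‖ ^ 2 := by
    intro z
    have := sq_sum_le_card_mul_sum_sq (s := (Finset.univ : Finset ι)) (f := fun j => C * ‖a j z‖)
    simp only [Finset.card_univ, mul_pow, ← Finset.mul_sum] at this
    rw [← Finset.mul_sum, mul_pow]
    linarith
  have lim2 : Tendsto (fun N => ∫ z, W φ z * ‖cutN N z * h z - ∑ j, D (-1) j (cutN N) z * a j z‖ ^ 2)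
      atTop (𝓝 (∫ z, W φ z * ‖h z‖ ^ 2)) := by
    apply tendsto_integral_of_dominated_convergence (fun z => 2 * (W φ z * ‖h z‖ ^ 2) +
      2 * ((Fintype.card ι : ℝ) * C ^ 2) * ∑ j, W φ z * ‖a j z‖ ^ 2)
    · intro N
      apply hWc.aestronglyMeasurable.mul
      apply AEStronglyMeasurable.pow
      apply AEStronglyMeasurable.norm
      apply AEStronglyMeasurable.sub
      · exact (contDiff_cutN N).continuous.aestronglyMeasurable.mul hd.hh.aesm
      · exact Finset.aestronglyMeasurable_fun_sum _ fun j _ =>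
          (contDiff_D (contDiff_cutN N)).continuous.aestronglyMeasurable.mul (hd.ha j).aesm
    · exact (hh2.const_mul 2).add ((integrable_finsetSum _ fun j _ => ha2 j).const_mul _)
    · intro N
      refine Eventually.of_forall fun z => ?_
      rw [Real.norm_of_nonneg (mul_nonneg (W_pos φ z).le (sq_nonneg _))]
      have h1 : ‖cutN N z * h z - ∑ j, D (-1) j (cutN N) z * a j z‖ ≤
          ‖h z‖ + ∑ j, C * ‖a j z‖ := by
        refine (norm_sub_le _ _).trans (add_le_add ?_ ?_)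
        · rw [norm_mul]
          exact mul_le_of_le_one_left (norm_nonneg _) (norm_cutN_le N z)
        · refine (norm_sum_le _ _).trans (Finset.sum_le_sum fun j _ => ?_)
          rw [norm_mul]
          exact mul_le_mul_of_nonneg_right (hCN (-1) (Or.inr rfl) j N z) (norm_nonneg _)
      have h2 : ‖cutN N z * h z - ∑ j, D (-1) j (cutN N) z * a j z‖ ^ 2 ≤
          2 * ‖h z‖ ^ 2 + 2 * ((Fintype.card ι : ℝ) * C ^ 2 * ∑ j, ‖a j z‖ ^ 2) := by
        have h3 := hCS z
        have h4 : ‖cutN N z * h z - ∑ j, D (-1) j (cutN N) z * a j z‖ ^ 2 ≤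
            (‖h z‖ + ∑ j, C * ‖a j z‖) ^ 2 := by gcongr
        nlinarith [sq_nonneg (‖h z‖ - ∑ j, C * ‖a j z‖)]
      calc W φ z * ‖cutN N z * h z - ∑ j, D (-1) j (cutN N) z * a j z‖ ^ 2
          ≤ W φ z * (2 * ‖h z‖ ^ 2 + 2 * ((Fintype.card ι : ℝ) * C ^ 2 * ∑ j, ‖a j z‖ ^ 2)) :=
            mul_le_mul_of_nonneg_left h2 (W_pos φ z).le
        _ = _ := by
            rw [← Finset.mul_sum]
            ring
    · refine Eventually.of_forall fun z => ?_
      have h1 : Tendsto (fun N => cutN N z * h z - ∑ j, D (-1) j (cutN N) z * a j z) atTop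
          (𝓝 (1 * h z - ∑ j, 0 * a j z)) := by
        apply ((tendsto_cutN z).mul_const (h z)).sub
        apply tendsto_finsetSum
        intro j _
        exact (hDlim (-1) (Or.inr rfl) j z).mul_const _
      simp only [one_mul, zero_mul, Finset.sum_const_zero, sub_zero] at h1
      exact (h1.norm.pow 2).const_mul _
  have lim3 : Tendsto (fun N => ∑ j, ∑ k, ∫ z, W φ z * ‖D 1 j (cutN N) z * a k z -
      D 1 k (cutN N) z * a j z‖ ^ 2) atTop (𝓝 (∑ _j : ι, ∑ _k : ι, ∫ _z : ι → ℂ, (0 : ℝ))) := by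
    apply tendsto_finsetSum
    intro j _
    apply tendsto_finsetSum
    intro k _
    apply tendsto_integral_of_dominated_convergence
      (fun z => 2 * C ^ 2 * (W φ z * ‖a k z‖ ^ 2) + 2 * C ^ 2 * (W φ z * ‖a j z‖ ^ 2))
    · intro N
      exact hWc.aestronglyMeasurable.mul
        ((((contDiff_D (contDiff_cutN N)).continuous.aestronglyMeasurable.mul (hd.ha k).aesm).sub
        ((contDiff_D (contDiff_cutN N)).continuous.aestronglyMeasurable.mul (hd.ha j).aesm)).norm.pow 2)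
    · exact ((ha2 k).const_mul _).add ((ha2 j).const_mul _)
    · intro N
      refine Eventually.of_forall fun z => ?_
      rw [Real.norm_of_nonneg (mul_nonneg (W_pos φ z).le (sq_nonneg _))]
      have h1 : ‖D 1 j (cutN N) z * a k z - D 1 k (cutN N) z * a j z‖ ≤
          C * ‖a k z‖ + C * ‖a j z‖ := by
        refine (norm_sub_le _ _).trans (add_le_add ?_ ?_)
        · rw [norm_mul]
          exact mul_le_mul_of_nonneg_right (hCN 1 (Or.inl rfl) j N z) (norm_nonneg _)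
        · rw [norm_mul]
          exact mul_le_mul_of_nonneg_right (hCN 1 (Or.inl rfl) k N z) (norm_nonneg _)
      have h2 : ‖D 1 j (cutN N) z * a k z - D 1 k (cutN N) z * a j z‖ ^ 2 ≤
          2 * C ^ 2 * ‖a k z‖ ^ 2 + 2 * C ^ 2 * ‖a j z‖ ^ 2 := by
        have h4 : ‖D 1 j (cutN N) z * a k z - D 1 k (cutN N) z * a j z‖ ^ 2 ≤
            (C * ‖a k z‖ + C * ‖a j z‖) ^ 2 := by gcongr
        nlinarith [sq_nonneg (C * ‖a k z‖ - C * ‖a j z‖)]
      calc W φ z * ‖D 1 j (cutN N) z * a k z - D 1 k (cutN N) z * a j z‖ ^ 2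
          ≤ W φ z * (2 * C ^ 2 * ‖a k z‖ ^ 2 + 2 * C ^ 2 * ‖a j z‖ ^ 2) :=
            mul_le_mul_of_nonneg_left h2 (W_pos φ z).le
        _ = _ := by ring
    · refine Eventually.of_forall fun z => ?_
      have h1 : Tendsto (fun N => D 1 j (cutN N) z * a k z - D 1 k (cutN N) z * a j z) atTop
          (𝓝 (0 * a k z - 0 * a j z)) :=
        ((hDlim 1 (Or.inl rfl) j z).mul_const _).sub ((hDlim 1 (Or.inl rfl) k z).mul_const _)
      simp only [zero_mul, sub_zero] at h1
      have h2 := (h1.norm.pow 2).const_mul (W φ z)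
      simpa using h2
  have hfin := le_of_tendsto_of_tendsto' lim1 (lim2.add (lim3.const_mul _)) key
  simpa using hfin

end Pool.Agent.Lib.Hormander
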