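import Pool.Agent.Lib.Hormander.Basic

/-!
Integration by parts and the Morrey-Kohn-Hormander inequality for compactly supported forms.
-/

namespace Pool.Agent.Lib.Hormander

open MeasureTheory Set Topology Filter
open scoped ContDiff ComplexConjugate

set_option linter.unusedSectionVars false

variable {ι : Type*} [Fintype ι] [DecidableEq ι]

/-- the weight `e^{-φ}` -/
noncomputable def W (φ : (ι → ℂ) → ℝ) (z : ι → ℂ) : ℝ := Real.exp (-φ z)

/-- the formal adjoint `δ_j u = e^φ ∂_j (e^{-φ} u)` -/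
noncomputable def delta (φ : (ι → ℂ) → ℝ) (j : ι) (u : (ι → ℂ) → ℂ) (z : ι → ℂ) : ℂ :=
  del j u z - del j (fun y => (φ y : ℂ)) z * u z

/-- the adjoint of `∂̄` on `(0,1)` forms -/
noncomputable def Tst (φ : (ι → ℂ) → ℝ) (α : ι → (ι → ℂ) → ℂ) (z : ι → ℂ) : ℂ :=
  -∑ j, delta φ j (α j) z

section

variable {s : ℂ} {j k : ι} {u v : (ι → ℂ) → ℂ} {φ : (ι → ℂ) → ℝ}

lemma integral_mul_fderiv (hu : ContDiff ℝ 1 u) (hv : ContDiff ℝ 1 v) (hc : HasCompactSupport v)
    (w : ι → ℂ) : ∫ z, u z * fderiv ℝ v z w = -∫ z, fderiv ℝ u z w * v z := by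
  have cu : Continuous fun z => fderiv ℝ u z w :=
    (hu.continuous_fderiv (by simp)).clm_apply continuous_const
  have cv : Continuous fun z => fderiv ℝ v z w :=
    (hv.continuous_fderiv (by simp)).clm_apply continuous_const
  have hcv : HasCompactSupport fun z => fderiv ℝ v z w := by
    have := hc.fderiv_apply (𝕜 := ℝ) w
    exact this
  apply integral_mul_fderiv_eq_neg_fderiv_mul_of_integrable
  · exact (cu.mul hv.continuous).integrable_of_hasCompactSupport hc.mul_left
  · exact (hu.continuous.mul cv).integrable_of_hasCompactSupport hcv.mul_left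
  · exact (hu.continuous.mul hv.continuous).integrable_of_hasCompactSupport hc.mul_left
  · intro x _
    exact hu.differentiable (by simp) x
  · intro x _
    exact hv.differentiable (by simp) x

lemma integral_mul_D (hu : ContDiff ℝ 1 u) (hv : ContDiff ℝ 1 v) (hc : HasCompactSupport v) :
    ∫ z, u z * D s j v z = -∫ z, D s j u z * v z := by
  have cu : ∀ w, Continuous fun z => fderiv ℝ u z w := fun w =>
    (hu.continuous_fderiv (by simp)).clm_apply continuous_const
  have cv : ∀ w, Continuous fun z => fderiv ℝ v z w := fun w =>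
    (hv.continuous_fderiv (by simp)).clm_apply continuous_const
  have hcv : ∀ w, HasCompactSupport fun z => fderiv ℝ v z w := fun w =>
    hc.fderiv_apply (𝕜 := ℝ) w
  have i1 : ∀ w, Integrable fun z => u z * fderiv ℝ v z w := fun w =>
    (hu.continuous.mul (cv w)).integrable_of_hasCompactSupport (hcv w).mul_left
  have i2 : ∀ w, Integrable fun z => fderiv ℝ u z w * v z := fun w =>
    ((cu w).mul hv.continuous).integrable_of_hasCompactSupport hc.mul_left
  have e1 : (fun z => u z * D s j v z) = fun z => (1 / 2 : ℂ) * (u z * fderiv ℝ v z (Pi.single j 1))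
      + (s * Complex.I / 2) * (u z * fderiv ℝ v z (Pi.single j Complex.I)) := by
    funext z
    simp only [D]
    ring
  have e2 : (fun z => D s j u z * v z) = fun z => (1 / 2 : ℂ) * (fderiv ℝ u z (Pi.single j 1) * v z)
      + (s * Complex.I / 2) * (fderiv ℝ u z (Pi.single j Complex.I) * v z) := by
    funext z
    simp only [D]
    ring
  rw [e1, e2, integral_add ((i1 _).const_mul _) ((i1 _).const_mul _),
    integral_add ((i2 _).const_mul _) ((i2 _).const_mul _), integral_const_mul, integral_const_mul,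
    integral_const_mul, integral_const_mul, integral_mul_fderiv hu hv hc,
    integral_mul_fderiv hu hv hc]
  ring

lemma W_pos (φ : (ι → ℂ) → ℝ) (z : ι → ℂ) : 0 < W φ z := Real.exp_pos _

lemma contDiff_W (hφ : ContDiff ℝ ∞ φ) : ContDiff ℝ ∞ (W φ) := by
  unfold W
  exact hφ.neg.exp

lemma contDiff_ofReal_comp (hφ : ContDiff ℝ ∞ φ) : ContDiff ℝ ∞ (fun z => (φ z : ℂ)) :=
  Complex.ofRealCLM.contDiff.comp hφ

lemma fderiv_ofReal_comp (hφ : ContDiff ℝ ∞ φ) (z w : ι → ℂ) :
    fderiv ℝ (fun y => (φ y : ℂ)) z w = (fderiv ℝ φ z w : ℂ) := by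
  have h1 : HasFDerivAt (fun y => (φ y : ℂ)) (Complex.ofRealCLM.comp (fderiv ℝ φ z)) z :=
    Complex.ofRealCLM.hasFDerivAt.comp z (hφ.differentiable (by simp) z).hasFDerivAt
  rw [h1.fderiv]
  rfl

lemma D_W (hφ : ContDiff ℝ ∞ φ) (z : ι → ℂ) :
    D s j (fun y => (W φ y : ℂ)) z = -(D s j (fun y => (φ y : ℂ)) z) * W φ z := by
  have h1 : ∀ w, fderiv ℝ (W φ) z w = -(fderiv ℝ φ z w) * W φ z := by
    intro w
    have h := (hφ.differentiable (by simp) z).hasFDerivAt.neg.exp
    have h' : HasFDerivAt (W φ) _ z := h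
    rw [h'.fderiv]
    simp only [W, _root_.smul_apply, _root_.neg_apply, smul_eq_mul, Pi.neg_apply]
    ring
  simp only [D, fderiv_ofReal_comp (contDiff_W hφ), fderiv_ofReal_comp hφ, h1]
  push_cast
  ring

lemma del_mul_W (hφ : ContDiff ℝ ∞ φ) (hu : ContDiff ℝ ∞ u) (z : ι → ℂ) :
    D (-1) j (fun y => u y * W φ y) z = delta φ j u z * W φ z := by
  rw [D_mul (hu.differentiable (by simp) z)
    ((contDiff_ofReal_comp (contDiff_W hφ)).differentiable (by simp) z), D_W hφ, delta, del_eq,
    del_eq]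
  ring

lemma contDiff_conj (hu : ContDiff ℝ ∞ u) : ContDiff ℝ ∞ (fun y => conj (u y)) :=
  (Complex.conjCLE : ℂ →L[ℝ] ℂ).contDiff.comp hu

lemma hasCompactSupport_conj (hc : HasCompactSupport u) : HasCompactSupport (fun y => conj (u y)) :=
  hc.comp_left (map_zero _)

lemma contDiff_delta (hφ : ContDiff ℝ ∞ φ) (hu : ContDiff ℝ ∞ u) :
    ContDiff ℝ ∞ (delta φ j u) := by
  unfold delta
  rw [del_eq, del_eq]
  exact (contDiff_D hu).sub ((contDiff_D (contDiff_ofReal_comp hφ)).mul hu)

lemma hasCompactSupport_delta (hc : HasCompactSupport u) : HasCompactSupport (delta φ j u) := by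
  apply HasCompactSupport.intro' hc.isCompact (isClosed_tsupport u)
  intro z hz
  rw [delta, del_eq, D_eq_zero_of_notMem hz, image_eq_zero_of_notMem_tsupport hz]
  simp

/-- `∫ u conj(∂̄_j v) e^{-φ} = - ∫ δ_j u conj(v) e^{-φ}` -/
lemma adj1 (hφ : ContDiff ℝ ∞ φ) (hu : ContDiff ℝ ∞ u) (hv : ContDiff ℝ ∞ v)
    (hc : HasCompactSupport v) :
    ∫ z, u z * conj (dbar j v z) * W φ z = -∫ z, delta φ j u z * conj (v z) * W φ z := by
  have hW := contDiff_ofReal_comp (contDiff_W hφ)
  have h1 : ∀ z, conj (dbar j v z) = D (-1) j (fun y => conj (v y)) z := by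
    intro z
    rw [D_conj (hv.differentiable (by simp) z), dbar_eq]
    simp
  have h2 : ∫ z, (u z * W φ z) * D (-1) j (fun y => conj (v y)) z =
      -∫ z, D (-1) j (fun y => u y * W φ y) z * conj (v z) :=
    integral_mul_D ((hu.mul hW).of_le (by simp)) ((contDiff_conj hv).of_le (by simp))
      (hasCompactSupport_conj hc)
  have e1 : (fun z => u z * conj (dbar j v z) * W φ z) =
      fun z => (u z * W φ z) * D (-1) j (fun y => conj (v y)) z := by
    funext z
    rw [h1]
    ring
  have e2 : (fun z => D (-1) j (fun y => u y * W φ y) z * conj (v z)) =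
      fun z => delta φ j u z * conj (v z) * W φ z := by
    funext z
    rw [del_mul_W hφ hu]
    ring
  rw [e1, h2, e2]

/-- `∫ v conj(δ_k u) e^{-φ} = - ∫ ∂̄_k v conj(u) e^{-φ}` -/
lemma adj2 (hφ : ContDiff ℝ ∞ φ) (hu : ContDiff ℝ ∞ u) (hv : ContDiff ℝ ∞ v)
    (hc : HasCompactSupport u) :
    ∫ z, v z * conj (delta φ k u z) * W φ z = -∫ z, dbar k v z * conj (u z) * W φ z := by
  have hW := contDiff_ofReal_comp (contDiff_W hφ)
  have h1 : ∀ z, conj (delta φ k u z) * W φ z = D 1 k (fun y => conj (u y * W φ y)) z := by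
    intro z
    rw [D_conj ((hu.mul hW).differentiable (by simp) z)]
    have : (-conj (1 : ℂ)) = -1 := by simp
    rw [this, del_mul_W hφ hu, map_mul, Complex.conj_ofReal]
  have h2 : ∫ z, v z * D 1 k (fun y => conj (u y * W φ y)) z =
      -∫ z, D 1 k v z * conj (u z * W φ z) :=
    integral_mul_D (hv.of_le (by simp)) ((contDiff_conj (hu.mul hW)).of_le (by simp))
      (hasCompactSupport_conj hc.mul_right)
  have e1 : (fun z => v z * conj (delta φ k u z) * W φ z) =
      fun z => v z * D 1 k (fun y => conj (u y * W φ y)) z := by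
    funext z
    rw [← h1]
    ring
  have e2 : (fun z => D 1 k v z * conj (u z * W φ z)) =
      fun z => dbar k v z * conj (u z) * W φ z := by
    funext z
    rw [dbar_eq, map_mul, Complex.conj_ofReal]
    ring
  rw [e1, h2, e2]

lemma dbar_delta (hφ : ContDiff ℝ ∞ φ) (hu : ContDiff ℝ ∞ u) (z : ι → ℂ) :
    dbar k (delta φ j u) z = delta φ j (dbar k u) z -
      dbar k (del j (fun y => (φ y : ℂ))) z * u z := by
  have hφc := contDiff_ofReal_comp hφ
  have e : delta φ j u = fun y => D (-1) j u y - D (-1) j (fun y => (φ y : ℂ)) y * u y := by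
    funext y
    rw [delta, del_eq, del_eq]
  have d1 : ∀ {f : (ι → ℂ) → ℂ}, ContDiff ℝ ∞ f → DifferentiableAt ℝ f z := fun hf =>
    hf.differentiable (by simp) z
  simp only [dbar_eq]
  rw [e, D_sub (d1 (contDiff_D hu)) ((d1 (contDiff_D hφc)).fun_mul (d1 hu)),
    D_mul (d1 (contDiff_D hφc)) (d1 hu), delta]
  simp only [del_eq]
  rw [D_comm hu]
  ring

lemma identity_jk (hφ : ContDiff ℝ ∞ φ) (hu : ContDiff ℝ ∞ u) (hv : ContDiff ℝ ∞ v)
    (hcv : HasCompactSupport v) :
    ∫ z, delta φ j u z * conj (delta φ k v z) * W φ z =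
      (∫ z, dbar k u z * conj (dbar j v z) * W φ z) +
      ∫ z, dbar k (del j (fun y => (φ y : ℂ))) z * u z * conj (v z) * W φ z := by
  have hφc := contDiff_ofReal_comp hφ
  have hW := contDiff_ofReal_comp (contDiff_W hφ)
  rw [adj2 hφ hv (contDiff_delta hφ hu) hcv, adj1 hφ (by rw [dbar_eq]; exact contDiff_D hu) hv hcv]
  have e : (fun z => dbar k (delta φ j u) z * conj (v z) * W φ z) = fun z =>
      delta φ j (dbar k u) z * conj (v z) * W φ z -
      dbar k (del j (fun y => (φ y : ℂ))) z * u z * conj (v z) * W φ z := by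
    funext z
    rw [dbar_delta hφ hu]
    ring
  rw [e, integral_sub, neg_sub]
  · ring
  · have h1 : ContDiff ℝ ∞ (dbar k u) := by rw [dbar_eq]; exact contDiff_D hu
    exact (((contDiff_delta hφ h1).mul (contDiff_conj hv)).mul hW).continuous.integrable_of_hasCompactSupport
      ((hasCompactSupport_conj hcv).mul_left.mul_right)
  · have h1 : ContDiff ℝ ∞ (dbar k (del j (fun y => (φ y : ℂ)))) := by
      rw [dbar_eq, del_eq]; exact contDiff_D (contDiff_D hφc)
    exact (((h1.mul hu).mul (contDiff_conj hv)).mul hW).continuous.integrable_of_hasCompactSupport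
      ((hasCompactSupport_conj hcv).mul_left.mul_right)

end

lemma matrix_id (A : ι → ι → ℂ) :
    ∑ j, ∑ k, ‖A k j - A j k‖ ^ 2 = 2 * (∑ j, ∑ k, ‖A j k‖ ^ 2) -
      2 * (∑ j, ∑ k, A j k * conj (A k j)).re := by
  have h : ∀ a b : ℂ, ‖a - b‖ ^ 2 = ‖a‖ ^ 2 + ‖b‖ ^ 2 - 2 * (b * conj a).re := by
    intro a b
    rw [← Complex.normSq_eq_norm_sq, ← Complex.normSq_eq_norm_sq, ← Complex.normSq_eq_norm_sq,
      Complex.normSq_sub]
    have : (a * conj b).re = (b * conj a).re := by
      simp [Complex.mul_re]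
      ring
    rw [this]
  simp only [h, Finset.sum_sub_distrib, Finset.sum_add_distrib, Complex.re_sum, ← Finset.mul_sum]
  rw [Finset.sum_comm (f := fun j k => ‖A k j‖ ^ 2)]
  ring

/-- The Morrey-Kohn-Hormander inequality. -/
theorem basic_estimate {φ : (ι → ℂ) → ℝ} (hφ : ContDiff ℝ ∞ φ) {α : ι → (ι → ℂ) → ℂ}
    (hα : ∀ j, ContDiff ℝ ∞ (α j)) (hc : ∀ j, HasCompactSupport (α j)) :
    ∫ z, levi φ z (fun j => α j z) * W φ z ≤ (∫ z, ‖Tst φ α z‖ ^ 2 * W φ z) +
      (1 / 2) * ∫ z, (∑ j, ∑ k, ‖dbar j (α k) z - dbar k (α j) z‖ ^ 2) * W φ z := by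
  have hφc := contDiff_ofReal_comp hφ
  have hW := contDiff_ofReal_comp (contDiff_W hφ)
  have hWr := contDiff_W hφ
  have hdb : ∀ j k, ContDiff ℝ ∞ (dbar k (α j)) := fun j k => by rw [dbar_eq]; exact contDiff_D (hα j)
  have hdbc : ∀ j k, HasCompactSupport (dbar k (α j)) := fun j k => by
    rw [dbar_eq]; exact hasCompactSupport_D (hc j)
  -- the cross term
  set X : (ι → ℂ) → ℂ := fun z => ∑ j, ∑ k, dbar k (α j) z * conj (dbar j (α k) z) with hX
  set Y : (ι → ℂ) → ℂ := fun z => ∑ j, ∑ k, dbar k (del j (fun y => (φ y : ℂ))) z * α j z *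
    conj (α k z) with hY
  have i1 : ∀ j k, Integrable fun z => dbar k (α j) z * conj (dbar j (α k) z) * W φ z := fun j k =>
    (((hdb j k).mul (contDiff_conj (hdb k j))).mul hW).continuous.integrable_of_hasCompactSupport
      ((hasCompactSupport_conj (hdbc k j)).mul_left.mul_right)
  have i2 : ∀ j k, Integrable fun z => dbar k (del j (fun y => (φ y : ℂ))) z * α j z *
      conj (α k z) * W φ z := fun j k => by
    have h1 : ContDiff ℝ ∞ (dbar k (del j (fun y => (φ y : ℂ)))) := by
      rw [dbar_eq, del_eq]; exact contDiff_D (contDiff_D hφc)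
    exact (((h1.mul (hα j)).mul (contDiff_conj (hα k))).mul hW).continuous.integrable_of_hasCompactSupport
      ((hasCompactSupport_conj (hc k)).mul_left.mul_right)
  have i3 : ∀ j k, Integrable fun z => delta φ j (α j) z * conj (delta φ k (α k) z) * W φ z :=
    fun j k => (((contDiff_delta hφ (hα j)).mul (contDiff_conj (contDiff_delta hφ (hα k)))).mul
      hW).continuous.integrable_of_hasCompactSupport
      ((hasCompactSupport_conj (hasCompactSupport_delta (hc k))).mul_left.mul_right)
  have iX : Integrable fun z => X z * W φ z := by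
    simp only [hX, Finset.sum_mul]
    exact integrable_finsetSum _ fun j _ => integrable_finsetSum _ fun k _ => i1 j k
  have iY : Integrable fun z => Y z * W φ z := by
    simp only [hY, Finset.sum_mul]
    exact integrable_finsetSum _ fun j _ => integrable_finsetSum _ fun k _ => i2 j k
  have key : ∫ z, ((‖Tst φ α z‖ ^ 2 * W φ z : ℝ) : ℂ) = (∫ z, X z * W φ z) + ∫ z, Y z * W φ z := by
    have e1 : (fun z => ((‖Tst φ α z‖ ^ 2 * W φ z : ℝ) : ℂ)) = fun z =>
        ∑ j, ∑ k, delta φ j (α j) z * conj (delta φ k (α k) z) * W φ z := by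
      funext z
      rw [Complex.ofReal_mul, Complex.ofReal_pow, ← Complex.mul_conj', Tst, map_neg, neg_mul_neg,
        map_sum, Finset.sum_mul_sum, Finset.sum_mul]
      simp only [Finset.sum_mul]
    rw [e1, integral_finsetSum _ fun j _ => integrable_finsetSum _ fun k _ => i3 j k]
    have e2 : ∀ j, ∫ z, ∑ k, delta φ j (α j) z * conj (delta φ k (α k) z) * W φ z =
        (∑ k, ∫ z, dbar k (α j) z * conj (dbar j (α k) z) * W φ z) +
        ∑ k, ∫ z, dbar k (del j (fun y => (φ y : ℂ))) z * α j z * conj (α k z) * W φ z := by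
      intro j
      rw [integral_finsetSum _ fun k _ => i3 j k, ← Finset.sum_add_distrib]
      exact Finset.sum_congr rfl fun k _ => identity_jk hφ (hα j) (hα k) (hc k)
    simp only [e2, Finset.sum_add_distrib]
    congr 1
    · simp only [hX, Finset.sum_mul]
      rw [integral_finsetSum _ fun j _ => integrable_finsetSum _ fun k _ => i1 j k]
      exact Finset.sum_congr rfl fun j _ => (integral_finsetSum _ fun k _ => i1 j k).symm
    · simp only [hY, Finset.sum_mul]
      rw [integral_finsetSum _ fun j _ => integrable_finsetSum _ fun k _ => i2 j k]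
      exact Finset.sum_congr rfl fun j _ => (integral_finsetSum _ fun k _ => i2 j k).symm
  have key' : ∫ z, ‖Tst φ α z‖ ^ 2 * W φ z = (∫ z, (X z).re * W φ z) + ∫ z, (Y z).re * W φ z := by
    have h := congrArg Complex.re key
    rw [integral_complex_ofReal, Complex.ofReal_re, Complex.add_re] at h
    rw [h]
    have hre : ∀ {f : (ι → ℂ) → ℂ}, Integrable (fun z => f z * W φ z) →
        (∫ z, f z * W φ z).re = ∫ z, (f z).re * W φ z := by
      intro f hf
      rw [← RCLike.re_eq_complex_re, ← integral_re hf]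
      simp
    rw [hre iX, hre iY]
  have hre_int : ∀ {f : (ι → ℂ) → ℂ}, Integrable (fun z => f z * W φ z) →
      Integrable (fun z => (f z).re * W φ z) := by
    intro f hf
    have := hf.re
    simpa using this
  have iN : Integrable fun z => (∑ j, ∑ k, ‖dbar k (α j) z‖ ^ 2) * W φ z := by
    simp only [Finset.sum_mul]
    refine integrable_finsetSum _ fun j _ => integrable_finsetSum _ fun k _ => ?_
    have hc' : HasCompactSupport fun z => ‖dbar k (α j) z‖ ^ 2 * W φ z := by
      apply HasCompactSupport.mul_right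
      exact (hdbc j k).norm.comp_left (g := fun x : ℝ => x ^ 2) (by simp)
    exact (((hdb j k).continuous.norm.pow 2).mul hWr.continuous).integrable_of_hasCompactSupport hc'
  have e3 : ∫ z, (∑ j, ∑ k, ‖dbar j (α k) z - dbar k (α j) z‖ ^ 2) * W φ z =
      2 * (∫ z, (∑ j, ∑ k, ‖dbar k (α j) z‖ ^ 2) * W φ z) - 2 * ∫ z, (X z).re * W φ z := by
    rw [← integral_const_mul, ← integral_const_mul, ← integral_sub (iN.const_mul _)
      ((hre_int iX).const_mul _)]
    congr 1
    funext z
    rw [matrix_id (fun j k => dbar k (α j) z)]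
    ring
  have e4 : ∫ z, levi φ z (fun j => α j z) * W φ z = ∫ z, (Y z).re * W φ z := rfl
  have e5 : 0 ≤ ∫ z, (∑ j, ∑ k, ‖dbar k (α j) z‖ ^ 2) * W φ z :=
    integral_nonneg fun z => mul_nonneg (Finset.sum_nonneg fun j _ => Finset.sum_nonneg fun k _ =>
      sq_nonneg _) (W_pos φ z).le
  rw [e3, e4, key']
  linarith

end Pool.Agent.Lib.Hormander
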