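import Pool.Agent.Lib.Hormander.Weyl

/-!
Auxiliary facts on `L²` convergence with weights.
-/

namespace Pool.Agent.Lib.Hormander

open MeasureTheory Set Topology Filter
open scoped ContDiff ComplexConjugate ENNReal

set_option linter.unusedSectionVars false

variable {ι : Type*} [Fintype ι] [DecidableEq ι]

lemma integral_norm_sq_eq {f : (ι → ℂ) → ℂ} (hf : AEStronglyMeasurable f volume) :
    ∫ x, ‖f x‖ ^ 2 = (eLpNorm f 2 volume).toReal ^ 2 := by
  rw [integral_eq_lintegral_of_nonneg_ae (Eventually.of_forall fun x => sq_nonneg _)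
    (hf.norm.pow 2), eLpNorm_two_eq, ← ENNReal.toReal_pow, ← ENNReal.rpow_two, ← ENNReal.rpow_mul]
  congr 1
  norm_num

/-- `L²` convergence of functions with supports in a fixed ball implies convergence of the weighted
square integrals. -/
lemma tendsto_weight {F : ℕ → (ι → ℂ) → ℂ} {G : (ι → ℂ) → ℂ} {R : ℝ}
    (hF0 : ∀ m x, R < ‖x‖ → F m x = 0) (hG0 : ∀ x, R < ‖x‖ → G x = 0)
    (hF : ∀ m, MemLp (F m) 2 volume) (hG : MemLp G 2 volume)
    (h : Tendsto (fun m => eLpNorm (F m - G) 2 volume) atTop (𝓝 0))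
    {b : (ι → ℂ) → ℝ} (hb : Continuous b) (hb0 : ∀ x, 0 ≤ b x) :
    Tendsto (fun m => ∫ x, b x * ‖F m x‖ ^ 2) atTop (𝓝 (∫ x, b x * ‖G x‖ ^ 2)) := by
  obtain ⟨C, hC⟩ : ∃ C, ∀ x ∈ Metric.closedBall (0 : ι → ℂ) R, ‖√(b x)‖ ≤ C :=
    (isCompact_closedBall (0 : ι → ℂ) R).exists_bound_of_continuousOn
      hb.sqrt.continuousOn
  have hmul : ∀ {f : (ι → ℂ) → ℂ}, (∀ x, R < ‖x‖ → f x = 0) → ∀ x,
      ‖(√(b x) : ℂ) * f x‖ ≤ C * ‖f x‖ := by
    intro f hf x
    by_cases hx : R < ‖x‖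
    · simp [hf x hx]
    · rw [norm_mul, Complex.norm_real]
      push Not at hx
      exact mul_le_mul_of_nonneg_right (hC x (by simpa using hx)) (norm_nonneg _)
  have hmeasb : AEStronglyMeasurable (fun x => (√(b x) : ℂ)) volume :=
    (Complex.continuous_ofReal.comp hb.sqrt).aestronglyMeasurable
  have hmem : ∀ {f : (ι → ℂ) → ℂ}, (∀ x, R < ‖x‖ → f x = 0) → MemLp f 2 volume →
      MemLp (fun x => (√(b x) : ℂ) * f x) 2 volume := by
    intro f hf hf2
    exact hf2.of_le_mul (hmeasb.mul hf2.1) (Eventually.of_forall (hmul hf))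
  have e : ∀ {f : (ι → ℂ) → ℂ}, AEStronglyMeasurable f volume →
      ∫ x, b x * ‖f x‖ ^ 2 = (eLpNorm (fun x => (√(b x) : ℂ) * f x) 2 volume).toReal ^ 2 := by
    intro f hf
    have h1 := integral_norm_sq_eq (f := fun x => (√(b x) : ℂ) * f x) (hmeasb.mul hf)
    rw [← h1]
    congr 1
    funext x
    rw [norm_mul, mul_pow, Complex.norm_real, Real.norm_of_nonneg (Real.sqrt_nonneg _),
      Real.sq_sqrt (hb0 x)]
  have hlim : Tendsto (fun m => eLpNorm ((fun x => (√(b x) : ℂ) * F m x) -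
      fun x => (√(b x) : ℂ) * G x) 2 volume) atTop (𝓝 0) := by
    have h1 : Tendsto (fun m => ENNReal.ofReal C * eLpNorm (F m - G) 2 volume) atTop (𝓝 0) := by
      have := ENNReal.Tendsto.const_mul (a := ENNReal.ofReal C) h (Or.inr ENNReal.ofReal_ne_top)
      rwa [mul_zero] at this
    refine tendsto_of_tendsto_of_tendsto_of_le_of_le tendsto_const_nhds h1 (fun _ => zero_le)
      fun m => ?_
    apply eLpNorm_le_mul_eLpNorm_of_ae_le_mul
    refine Eventually.of_forall fun x => ?_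
    have := hmul (f := F m - G) (fun x hx => by simp [hF0 m x hx, hG0 x hx]) x
    simpa [mul_sub] using this
  have hL := (Lp.tendsto_Lp_iff_tendsto_eLpNorm'' (fun m => fun x => (√(b x) : ℂ) * F m x)
    (fun m => hmem (hF0 m) (hF m)) (fun x => (√(b x) : ℂ) * G x) (hmem hG0 hG)).2 hlim
  have hn := (hL.norm).pow 2
  simp only [Lp.norm_toLp] at hn
  rw [e hG.1]
  refine hn.congr fun m => ?_
  rw [e (hF m).1]

/-- products with bounded functions -/
lemma tendsto_mul_bdd {F : ℕ → (ι → ℂ) → ℂ} {G : (ι → ℂ) → ℂ} {R : ℝ}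
    (hF0 : ∀ m x, R < ‖x‖ → F m x = 0) (hG0 : ∀ x, R < ‖x‖ → G x = 0)
    (h : Tendsto (fun m => eLpNorm (F m - G) 2 volume) atTop (𝓝 0))
    {b : (ι → ℂ) → ℂ} (hb : Continuous b) :
    Tendsto (fun m => eLpNorm ((fun x => b x * F m x) - fun x => b x * G x) 2 volume)
      atTop (𝓝 0) := by
  obtain ⟨C, hC⟩ : ∃ C, ∀ x ∈ Metric.closedBall (0 : ι → ℂ) R, ‖b x‖ ≤ C :=
    (isCompact_closedBall (0 : ι → ℂ) R).exists_bound_of_continuousOn hb.continuousOn
  have h1 : Tendsto (fun m => ENNReal.ofReal C * eLpNorm (F m - G) 2 volume) atTop (𝓝 0) := by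
    have := ENNReal.Tendsto.const_mul (a := ENNReal.ofReal C) h (Or.inr ENNReal.ofReal_ne_top)
    rwa [mul_zero] at this
  refine tendsto_of_tendsto_of_tendsto_of_le_of_le tendsto_const_nhds h1 (fun _ => zero_le)
    fun m => ?_
  apply eLpNorm_le_mul_eLpNorm_of_ae_le_mul
  refine Eventually.of_forall fun x => ?_
  simp only [Pi.sub_apply, ← mul_sub, norm_mul]
  by_cases hx : R < ‖x‖
  · simp [hF0 m x hx, hG0 x hx]
  · push Not at hx
    exact mul_le_mul_of_nonneg_right (hC x (by simpa using hx)) (norm_nonneg _)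

lemma integrable_mul_of_compact {f g : (ι → ℂ) → ℂ} (hf : LocallyIntegrable f)
    (hg : Continuous g) (hc : HasCompactSupport g) : Integrable fun x => f x * g x := by
  have h1 : IntegrableOn (fun x => f x * g x) (tsupport g) :=
    (hf.integrableOn_isCompact hc.isCompact).mul_continuousOn hg.continuousOn hc.isCompact
  rw [← integrableOn_iff_integrable_of_support_subset (s := tsupport g)]
  · exact h1
  · intro x hx
    apply subset_tsupport
    rw [Function.mem_support] at hx ⊢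
    exact right_ne_zero_of_mul hx

end Pool.Agent.Lib.Hormander
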