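import Pool.Agent.Lib.Hormander.Solve

/-!
Hormander's theorem for smooth plurisubharmonic weights on `ℂ^n`, in the form: a smooth function
`G` differs from an entire function `F` by a quantity controlled by `∂̄ G`.
-/

namespace Pool.Agent.Lib.Hormander

open MeasureTheory Set Topology Filter
open scoped ContDiff ComplexConjugate ENNReal InnerProductSpace

set_option linter.unusedSectionVars false

variable {ι : Type*} [Fintype ι] [DecidableEq ι]

/-! ### The weight `log (1 + |z|²)` -/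

/-- `log (1 + |z|²)` -/
noncomputable def Lg (z : ι → ℂ) : ℝ := Real.log (1 + nsq z)

lemma one_add_nsq_pos (z : ι → ℂ) : 0 < 1 + nsq z := by
  have := nsq_nonneg z
  linarith

lemma contDiff_Lg : ContDiff ℝ ∞ (Lg : (ι → ℂ) → ℝ) := by
  unfold Lg
  exact (contDiff_const.add contDiff_nsq).log fun z => (one_add_nsq_pos z).ne'

lemma fderiv_nsq (z w : ι → ℂ) : fderiv ℝ (nsq : (ι → ℂ) → ℝ) z w = 2 * ∑ j, ⟪z j, w j⟫_ℝ := by
  have h : HasFDerivAt (nsq : (ι → ℂ) → ℝ) (∑ j, 2 • (innerSL ℝ (z j)).comp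
      (ContinuousLinearMap.proj (R := ℝ) (φ := fun _ : ι => ℂ) j)) z := by
    unfold nsq
    apply HasFDerivAt.fun_sum
    intro j _
    have h1 : HasFDerivAt (fun y : ι → ℂ => y j)
        (ContinuousLinearMap.proj (R := ℝ) (φ := fun _ : ι => ℂ) j) z :=
      hasFDerivAt_apply (𝕜 := ℝ) (F' := fun _ : ι => ℂ) j z
    exact h1.norm_sq
  rw [h.fderiv, _root_.sum_apply, Finset.mul_sum]
  refine Finset.sum_congr rfl fun j _ => ?_
  simp
  ring

lemma D_nsq {s : ℂ} {j : ι} (z : ι → ℂ) :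
    D s j (fun y => (nsq y : ℂ)) z = (z j).re + s * Complex.I * (z j).im := by
  have h : ∀ c : ℂ, ∑ k, ⟪z k, (Pi.single j c : ι → ℂ) k⟫_ℝ = ⟪z j, c⟫_ℝ := by
    intro c
    rw [Finset.sum_eq_single j]
    · rw [Pi.single_eq_same]
    · intro k _ hk
      rw [Pi.single_eq_of_ne hk, inner_zero_right]
    · simp
  rw [D, fderiv_ofReal_comp contDiff_nsq, fderiv_ofReal_comp contDiff_nsq, fderiv_nsq, fderiv_nsq,
    h, h]
  simp only [Complex.inner, Complex.mul_re, Complex.conj_re, Complex.conj_im,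
    Complex.one_re, Complex.one_im, Complex.I_re, Complex.I_im]
  push_cast
  ring

lemma D_Lg {s : ℂ} {j : ι} (z : ι → ℂ) : D s j (fun y => (Lg y : ℂ)) z =
    D s j (fun y => (nsq y : ℂ)) z * ((1 + nsq z : ℝ) : ℂ)⁻¹ := by
  have h1 : ∀ w, fderiv ℝ (Lg : (ι → ℂ) → ℝ) z w = fderiv ℝ (nsq : (ι → ℂ) → ℝ) z w *
      (1 + nsq z)⁻¹ := by
    intro w
    have hn : HasFDerivAt (nsq : (ι → ℂ) → ℝ) (fderiv ℝ nsq z) z :=
      (contDiff_nsq.differentiable (by simp) z).hasFDerivAt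
    have h2 : HasFDerivAt (Lg : (ι → ℂ) → ℝ) _ z :=
      (hn.const_add 1).log (one_add_nsq_pos z).ne'
    rw [h2.fderiv]
    simp [mul_comm]
  simp only [D, fderiv_ofReal_comp contDiff_Lg, fderiv_ofReal_comp contDiff_nsq, h1]
  push_cast
  ring

lemma D_inv_nsq {s : ℂ} {k : ι} (z : ι → ℂ) :
    D s k (fun y => (((1 + nsq y : ℝ) : ℂ))⁻¹) z =
      -D s k (fun y => (nsq y : ℂ)) z * (((1 + nsq z : ℝ) : ℂ)⁻¹) ^ 2 := by
  have hs : ContDiff ℝ ∞ (fun y : ι → ℂ => (1 + nsq y)⁻¹) :=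
    (contDiff_const.add contDiff_nsq).inv fun z => (one_add_nsq_pos z).ne'
  have e : (fun y : ι → ℂ => (((1 + nsq y : ℝ) : ℂ))⁻¹) = fun y => (((1 + nsq y)⁻¹ : ℝ) : ℂ) := by
    funext y
    push_cast
    rfl
  have h1 : ∀ w, fderiv ℝ (fun y : ι → ℂ => (1 + nsq y)⁻¹) z w =
      -fderiv ℝ (nsq : (ι → ℂ) → ℝ) z w * ((1 + nsq z)⁻¹) ^ 2 := by
    intro w
    have hn : HasFDerivAt (nsq : (ι → ℂ) → ℝ) (fderiv ℝ nsq z) z :=
      (contDiff_nsq.differentiable (by simp) z).hasFDerivAt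
    have h2 := (hasDerivAt_inv (one_add_nsq_pos z).ne').comp_hasFDerivAt z (hn.const_add 1)
    have h3 : HasFDerivAt (fun y : ι → ℂ => (1 + nsq y)⁻¹) _ z := h2
    rw [h3.fderiv]
    simp only [_root_.smul_apply, smul_eq_mul]
    rw [inv_pow]
    ring
  rw [e]
  simp only [D, fderiv_ofReal_comp hs, fderiv_ofReal_comp contDiff_nsq, h1]
  push_cast
  ring

lemma D_coord {s : ℂ} {j k : ι} (z : ι → ℂ) :
    D s k (fun y : ι → ℂ => y j) z = if j = k then (1 - s) / 2 else 0 := by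
  have h1 : fderiv ℝ (fun y : ι → ℂ => y j) z =
      ContinuousLinearMap.proj (R := ℝ) (φ := fun _ : ι => ℂ) j :=
    (hasFDerivAt_apply (𝕜 := ℝ) (F' := fun _ : ι => ℂ) j z).fderiv
  rw [D, h1]
  simp only [ContinuousLinearMap.proj_apply]
  by_cases h : j = k
  · subst h
    simp only [Pi.single_eq_same, if_true]
    linear_combination (s / 2) * Complex.I_mul_I
  · simp [h]

lemma levi_Lg (z w : ι → ℂ) : nsq w / (1 + nsq z) ^ 2 ≤ levi (Lg : (ι → ℂ) → ℝ) z w := by
  have hn := one_add_nsq_pos z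
  have hdel : ∀ j, del j (fun y : ι → ℂ => (Lg y : ℂ)) =
      fun y => conj (y j) * (((1 + nsq y : ℝ) : ℂ))⁻¹ := by
    intro j
    funext y
    rw [del_eq, D_Lg, D_nsq]
    congr 1
    apply Complex.ext <;> simp
  have hinv : ContDiff ℝ ∞ (fun y : ι → ℂ => (((1 + nsq y : ℝ) : ℂ))⁻¹) := by
    have hs : ContDiff ℝ ∞ (fun y : ι → ℂ => (1 + nsq y)⁻¹) :=
      (contDiff_const.add contDiff_nsq).inv fun z => (one_add_nsq_pos z).ne'
    have e : (fun y : ι → ℂ => (((1 + nsq y : ℝ) : ℂ))⁻¹) = fun y => (((1 + nsq y)⁻¹ : ℝ) : ℂ) := by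
      funext y
      push_cast
      rfl
    rw [e]
    exact contDiff_ofReal_comp hs
  have hcoord : ∀ j, ContDiff ℝ ∞ (fun y : ι → ℂ => y j) := fun j => contDiff_apply ℝ ℂ j
  have hdd : ∀ j k, dbar k (del j (fun y : ι → ℂ => (Lg y : ℂ))) z =
      (if j = k then 1 else 0) * ((1 + nsq z : ℝ) : ℂ)⁻¹ -
        conj (z j) * z k * (((1 + nsq z : ℝ) : ℂ)⁻¹) ^ 2 := by
    intro j k
    rw [hdel, dbar_eq, D_mul ((contDiff_conj (hcoord j)).differentiable (by simp) z)
      (hinv.differentiable (by simp) z), D_conj ((hcoord j).differentiable (by simp) z),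
      D_coord, D_inv_nsq, D_nsq]
    have e1 : ((z k).re : ℂ) + 1 * Complex.I * (z k).im = z k := by
      rw [one_mul, mul_comm Complex.I]
      exact Complex.re_add_im (z k)
    rw [e1]
    by_cases h : j = k
    · simp only [h, if_true]
      simp
      ring
    · simp only [h, if_false, map_zero]
      ring
  set t : ℝ := (1 + nsq z)⁻¹ with ht
  have htc : (((1 + nsq z : ℝ) : ℂ))⁻¹ = (t : ℂ) := by
    rw [ht]
    push_cast
    rfl
  set S : ℂ := ∑ j, conj (z j) * w j with hS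
  have e1 : levi (Lg : (ι → ℂ) → ℝ) z w = t * nsq w - t ^ 2 * ‖S‖ ^ 2 := by
    have e2 : ∑ j, ∑ k, dbar k (del j (fun y : ι → ℂ => (Lg y : ℂ))) z * w j * conj (w k) =
        ((t * nsq w - t ^ 2 * ‖S‖ ^ 2 : ℝ) : ℂ) := by
      simp only [hdd, htc, sub_mul, Finset.sum_sub_distrib]
      have e3 : ∑ j, ∑ k, (if j = k then (1 : ℂ) else 0) * (t : ℂ) * w j * conj (w k) =
          (t : ℂ) * ((nsq w : ℝ) : ℂ) := by
        have : ∀ j, ∑ k, (if j = k then (1 : ℂ) else 0) * (t : ℂ) * w j * conj (w k) =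
            (t : ℂ) * ((‖w j‖ ^ 2 : ℝ) : ℂ) := by
          intro j
          rw [Finset.sum_eq_single j]
          · simp only [if_true, one_mul]
            rw [mul_assoc, Complex.mul_conj']
            push_cast
            rfl
          · intro k _ hk
            simp [Ne.symm hk]
          · simp
        simp only [this]
        rw [← Finset.mul_sum, nsq]
        push_cast
        rfl
      have e4 : ∑ j, ∑ k, conj (z j) * z k * (t : ℂ) ^ 2 * w j * conj (w k) =
          (t : ℂ) ^ 2 * ((‖S‖ ^ 2 : ℝ) : ℂ) := by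
        have : ((‖S‖ ^ 2 : ℝ) : ℂ) = S * conj S := by
          rw [Complex.mul_conj']
          push_cast
          rfl
        rw [this, hS, map_sum, Finset.sum_mul_sum, Finset.mul_sum]
        refine Finset.sum_congr rfl fun j _ => ?_
        rw [Finset.mul_sum]
        refine Finset.sum_congr rfl fun k _ => ?_
        rw [map_mul, Complex.conj_conj]
        ring
      rw [e3, e4]
      push_cast
      ring
    rw [levi, e2, Complex.ofReal_re]
  have hCS : ‖S‖ ^ 2 ≤ nsq z * nsq w := by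
    have h1 : ‖S‖ ≤ ∑ j, ‖z j‖ * ‖w j‖ := by
      refine (norm_sum_le _ _).trans (le_of_eq ?_)
      refine Finset.sum_congr rfl fun j _ => ?_
      rw [norm_mul, RCLike.norm_conj]
    have h2 := Finset.sum_mul_sq_le_sq_mul_sq Finset.univ (fun j => ‖z j‖) (fun j => ‖w j‖)
    calc ‖S‖ ^ 2 ≤ (∑ j, ‖z j‖ * ‖w j‖) ^ 2 := by gcongr
      _ ≤ _ := h2
  have ht0 : 0 < t := inv_pos.2 hn
  have ht1 : t * (1 + nsq z) = 1 := inv_mul_cancel₀ hn.ne'
  have hw := nsq_nonneg w
  have e5 : nsq w / (1 + nsq z) ^ 2 = t ^ 2 * nsq w := by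
    rw [ht, inv_pow]
    ring
  rw [e1, e5]
  have h6 : t ^ 2 * ‖S‖ ^ 2 ≤ t ^ 2 * (nsq z * nsq w) := by gcongr
  have h7 : t ^ 2 * (nsq z * nsq w) + t ^ 2 * nsq w = t * nsq w := by
    have : t ^ 2 * (nsq z * nsq w) + t ^ 2 * nsq w = t * (t * (1 + nsq z)) * nsq w := by ring
    rw [this, ht1, mul_one]
  linarith

lemma levi_add {φ ψ : (ι → ℂ) → ℝ} (hφ : ContDiff ℝ ∞ φ) (hψ : ContDiff ℝ ∞ ψ) (z w : ι → ℂ) :
    levi (fun y => φ y + ψ y) z w = levi φ z w + levi ψ z w := by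
  have hφc := contDiff_ofReal_comp hφ
  have hψc := contDiff_ofReal_comp hψ
  have h1 : ∀ j, del j (fun y => ((φ y + ψ y : ℝ) : ℂ)) =
      fun y => del j (fun y => (φ y : ℂ)) y + del j (fun y => (ψ y : ℂ)) y := by
    intro j
    funext y
    simp only [del_eq]
    have e : (fun y => ((φ y + ψ y : ℝ) : ℂ)) = fun y => (φ y : ℂ) + (ψ y : ℂ) := by
      funext y
      push_cast
      rfl
    rw [e, D_add (hφc.differentiable (by simp) y) (hψc.differentiable (by simp) y)]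
  have h2 : ∀ j k, dbar k (del j (fun y => ((φ y + ψ y : ℝ) : ℂ))) z =
      dbar k (del j (fun y => (φ y : ℂ))) z + dbar k (del j (fun y => (ψ y : ℂ))) z := by
    intro j k
    rw [h1]
    simp only [dbar_eq, del_eq]
    exact D_add ((contDiff_D hφc).differentiable (by simp) z)
      ((contDiff_D hψc).differentiable (by simp) z)
  simp only [levi, h2, ← Complex.add_re, ← Finset.sum_add_distrib]
  congr 1
  refine Finset.sum_congr rfl fun j _ => Finset.sum_congr rfl fun k _ => ?_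
  ring

/-- **Hormander's theorem** for a smooth plurisubharmonic weight: a smooth function differs from
an entire function by a function whose weighted `L²` norm is controlled by `∂̄ G`. -/
theorem exists_entire (φ : (ι → ℂ) → ℝ) (hφ : ContDiff ℝ ∞ φ) (hpsh : ∀ z w, 0 ≤ levi φ z w)
    (G : (ι → ℂ) → ℂ) (hG : ContDiff ℝ ∞ G)
    (hint : Integrable fun z => (∑ j, ‖dbar j G z‖ ^ 2) * Real.exp (-φ z)) :
    ∃ F : (ι → ℂ) → ℂ, Differentiable ℂ F ∧ ContDiff ℝ ∞ F ∧
      Integrable (fun z => ‖G z - F z‖ ^ 2 * Real.exp (-φ z) / (1 + ∑ j, ‖z j‖ ^ 2) ^ 2) ∧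
      ∫ z, ‖G z - F z‖ ^ 2 * Real.exp (-φ z) / (1 + ∑ j, ‖z j‖ ^ 2) ^ 2 ≤
        ∫ z, (∑ j, ‖dbar j G z‖ ^ 2) * Real.exp (-φ z) := by
  -- the new weight
  set ψ : (ι → ℂ) → ℝ := fun z => φ z + (Lg z + Lg z) with hψ
  have hLs := contDiff_Lg (ι := ι)
  have hψs : ContDiff ℝ ∞ ψ := hφ.add (hLs.add hLs)
  have hWψ : ∀ z, W ψ z = Real.exp (-φ z) / (1 + nsq z) ^ 2 := by
    intro z
    have h1 := one_add_nsq_pos z
    rw [W, hψ]
    have : -(φ z + (Lg z + Lg z)) = -φ z + (-Lg z + -Lg z) := by ring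
    simp only
    rw [this, Real.exp_add, Real.exp_add, Real.exp_neg (Lg z), Lg, Real.exp_log h1, div_eq_mul_inv,
      pow_two, mul_inv]
  set κ : (ι → ℂ) → ℝ := fun z => 2 / (1 + nsq z) ^ 2 with hκ
  have hκc : Continuous κ :=
    continuous_const.div ((continuous_const.add contDiff_nsq.continuous).pow 2)
      fun z => (pow_pos (one_add_nsq_pos z) 2).ne'
  have hκ0 : ∀ z, 0 < κ z := fun z => div_pos two_pos (pow_pos (one_add_nsq_pos z) 2)
  have hκ1 : ∀ z, κ z ≤ 2 := by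
    intro z
    rw [hκ]
    simp only
    rw [div_le_iff₀ (pow_pos (one_add_nsq_pos z) 2)]
    nlinarith [nsq_nonneg z]
  have hlevi : ∀ z w, κ z * nsq w ≤ levi ψ z w := by
    intro z w
    rw [hψ, levi_add hφ (hLs.add hLs), levi_add hLs hLs]
    have h1 := levi_Lg z w
    have h2 := hpsh z w
    have h3 : κ z * nsq w = nsq w / (1 + nsq z) ^ 2 + nsq w / (1 + nsq z) ^ 2 := by
      rw [hκ]
      ring
    linarith
  have hkW : ∀ z, (κ z)⁻¹ * W ψ z = Real.exp (-φ z) / 2 := by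
    intro z
    have h1 := (one_add_nsq_pos z).ne'
    rw [hWψ, hκ]
    field_simp
  have hintj : ∀ j, Integrable fun z => (κ z)⁻¹ * W ψ z * ‖D 1 j G z‖ ^ 2 := by
    intro j
    have hcont : Continuous fun z => (κ z)⁻¹ * W ψ z * ‖D 1 j G z‖ ^ 2 :=
      ((hκc.inv₀ fun z => (hκ0 z).ne').mul (contDiff_W hψs).continuous).mul
        ((contDiff_D hG).continuous.norm.pow 2)
    refine hint.mono' hcont.aestronglyMeasurable (Eventually.of_forall fun z => ?_)
    rw [hkW, Real.norm_of_nonneg (by positivity)]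
    have h1 : ‖D 1 j G z‖ ^ 2 ≤ ∑ j, ‖dbar j G z‖ ^ 2 := by
      simp only [dbar_eq]
      exact Finset.single_le_sum (f := fun j => ‖D 1 j G z‖ ^ 2) (fun _ _ => sq_nonneg _)
        (Finset.mem_univ j)
    have h2 := Real.exp_pos (-φ z)
    have h3 : 0 ≤ ‖D 1 j G z‖ ^ 2 := sq_nonneg _
    calc Real.exp (-φ z) / 2 * ‖D 1 j G z‖ ^ 2 ≤ Real.exp (-φ z) * ‖D 1 j G z‖ ^ 2 := by
          nlinarith
      _ ≤ (∑ j, ‖dbar j G z‖ ^ 2) * Real.exp (-φ z) := by
          rw [mul_comm]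
          gcongr
  obtain ⟨u, huL, hui, hub, hue⟩ := solve_kappa hψs hκc hκ0 hκ1 hlevi (g := fun j => D 1 j G)
    (fun j => contDiff_D hG) (fun j k z => D_comm hG) hintj
  -- `G - u` is weakly holomorphic
  have hGL : LocL2 G := fun R => by
    refine (memLp_indicator_iff_restrict Metric.isClosed_closedBall.measurableSet).2 ?_
    have : IsFiniteMeasure (volume.restrict (Metric.closedBall (0 : ι → ℂ) R)) :=
      ⟨by simpa using (isCompact_closedBall (0 : ι → ℂ) R).measure_lt_top⟩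
    obtain ⟨C, hC⟩ := (isCompact_closedBall (0 : ι → ℂ) R).exists_bound_of_continuousOn
      hG.continuous.continuousOn
    exact MemLp.of_bound hG.continuous.aestronglyMeasurable C
      ((ae_restrict_iff' Metric.isClosed_closedBall.measurableSet).2 (Eventually.of_forall hC))
  have hwL : LocL2 fun z => G z - u z := hGL.sub huL
  have hweak : ∀ j, ∀ η : (ι → ℂ) → ℂ, ContDiff ℝ ∞ η → HasCompactSupport η →
      ∫ z, (G z - u z) * dbar j η z = 0 := by
    intro j η hη hc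
    have i1 : Integrable fun z => G z * dbar j η z :=
      integrable_mul_of_compact hGL.locallyIntegrable
        (by rw [dbar_eq]; exact (contDiff_D hη).continuous)
        (by rw [dbar_eq]; exact hasCompactSupport_D hc)
    have i2 : Integrable fun z => u z * dbar j η z :=
      integrable_mul_of_compact huL.locallyIntegrable
        (by rw [dbar_eq]; exact (contDiff_D hη).continuous)
        (by rw [dbar_eq]; exact hasCompactSupport_D hc)
    have e1 : ∫ z, (G z - u z) * dbar j η z =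
        (∫ z, G z * dbar j η z) - ∫ z, u z * dbar j η z := by
      rw [← integral_sub i1 i2]
      congr 1
      funext z
      ring
    rw [e1, dbar_eq, integral_mul_D (hG.of_le (by simp)) (hη.of_le (by simp)) hc, hue j η hη hc]
    ring
  obtain ⟨F, hF1, hF2, hF3⟩ := weyl hwL hweak
  have hae : (fun z => ‖G z - F z‖ ^ 2 * Real.exp (-φ z) / (1 + ∑ j, ‖z j‖ ^ 2) ^ 2) =ᵐ[volume]
      fun z => W ψ z * ‖u z‖ ^ 2 := by
    filter_upwards [hF3] with z hz
    rw [← hz, sub_sub_cancel, hWψ, nsq]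
    ring
  refine ⟨F, hF1, hF2, hui.congr hae.symm, ?_⟩
  rw [integral_congr_ae hae]
  refine hub.trans ?_
  have e2 : ∑ j, ∫ z, (κ z)⁻¹ * W ψ z * ‖D 1 j G z‖ ^ 2 =
      (1 / 2) * ∫ z, (∑ j, ‖dbar j G z‖ ^ 2) * Real.exp (-φ z) := by
    rw [← integral_finsetSum _ fun j _ => hintj j, ← integral_const_mul]
    congr 1
    funext z
    simp only [hkW, dbar_eq]
    rw [← Finset.mul_sum]
    ring
  rw [e2]
  have h0 : 0 ≤ ∫ z, (∑ j, ‖dbar j G z‖ ^ 2) * Real.exp (-φ z) :=
    integral_nonneg fun z => mul_nonneg (Finset.sum_nonneg fun _ _ => sq_nonneg _)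
      (Real.exp_pos _).le
  linarith

end Pool.Agent.Lib.Hormander
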