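import Pool.Agent.Lib.Hormander.Identity

/-!
Mollifiers on `ι → ℂ` and convergence of mollifications in `L²`.
-/

namespace Pool.Agent.Lib.Hormander

open MeasureTheory Set Topology Filter
open scoped ContDiff ComplexConjugate ENNReal Convolution

set_option linter.unusedSectionVars false

variable {ι : Type*} [Fintype ι] [DecidableEq ι]

/-- the squared Euclidean norm -/
noncomputable def nsq (z : ι → ℂ) : ℝ := ∑ j, ‖z j‖ ^ 2

lemma nsq_nonneg (z : ι → ℂ) : 0 ≤ nsq z := Finset.sum_nonneg fun _ _ => sq_nonneg _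

lemma contDiff_nsq : ContDiff ℝ ∞ (nsq : (ι → ℂ) → ℝ) := by
  unfold nsq
  apply ContDiff.sum
  intro j _
  have : ContDiff ℝ ∞ fun z : ι → ℂ => z j := contDiff_apply ℝ ℂ j
  exact this.norm_sq ℝ

lemma norm_sq_le_nsq (z : ι → ℂ) : ‖z‖ ^ 2 ≤ nsq z := by
  have h : ‖z‖ ≤ √(nsq z) := by
    rw [pi_norm_le_iff_of_nonneg (Real.sqrt_nonneg _)]
    intro i
    apply Real.le_sqrt_of_sq_le
    exact Finset.single_le_sum (f := fun j => ‖z j‖ ^ 2) (fun _ _ => sq_nonneg _)
      (Finset.mem_univ i)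
  calc ‖z‖ ^ 2 ≤ √(nsq z) ^ 2 := by gcongr
    _ = nsq z := Real.sq_sqrt (nsq_nonneg z)

/-- a bump function of width `1/t` -/
noncomputable def bump (t : ℝ) (z : ι → ℂ) : ℝ := Real.smoothTransition (1 - t ^ 2 * nsq z)

lemma bump_nonneg (t : ℝ) (z : ι → ℂ) : 0 ≤ bump t z := Real.smoothTransition.nonneg _

lemma contDiff_bump (t : ℝ) : ContDiff ℝ ∞ (bump t : (ι → ℂ) → ℝ) := by
  unfold bump
  have h : ContDiff ℝ ∞ Real.smoothTransition := Real.smoothTransition.contDiff
  exact h.comp (contDiff_const.sub (contDiff_const.mul contDiff_nsq))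

lemma bump_eq_zero {t : ℝ} (ht : 0 < t) {z : ι → ℂ} (hz : 1 / t ≤ ‖z‖) : bump t z = 0 := by
  apply Real.smoothTransition.zero_of_nonpos
  have h1 := norm_sq_le_nsq z
  have h2 : 1 ≤ t * ‖z‖ := by
    rw [div_le_iff₀ ht] at hz
    linarith
  nlinarith [sq_nonneg (t * ‖z‖ - 1), sq_nonneg t]

lemma hasCompactSupport_bump {t : ℝ} (ht : 0 < t) :
    HasCompactSupport (bump t : (ι → ℂ) → ℝ) := by
  apply HasCompactSupport.intro (isCompact_closedBall (0 : ι → ℂ) (1 / t))
  intro z hz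
  apply bump_eq_zero ht
  simp only [Metric.mem_closedBall, dist_zero_right, not_le] at hz
  exact hz.le

lemma integral_bump_pos {t : ℝ} (ht : 0 < t) : 0 < ∫ z : ι → ℂ, bump t z := by
  apply (contDiff_bump t).continuous.integral_pos_of_hasCompactSupport_nonneg_nonzero
    (hasCompactSupport_bump ht) (bump_nonneg t) (x := 0)
  simp [bump, nsq]

/-- a mollifier of width `1/t` -/
noncomputable def rho (t : ℝ) (z : ι → ℂ) : ℝ := bump t z / ∫ y : ι → ℂ, bump t y

lemma rho_nonneg {t : ℝ} (ht : 0 < t) (z : ι → ℂ) : 0 ≤ rho t z :=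
  div_nonneg (bump_nonneg t z) (integral_bump_pos ht).le

lemma contDiff_rho (t : ℝ) : ContDiff ℝ ∞ (rho t : (ι → ℂ) → ℝ) :=
  (contDiff_bump t).div_const _

lemma rho_eq_zero {t : ℝ} (ht : 0 < t) {z : ι → ℂ} (hz : 1 / t ≤ ‖z‖) : rho t z = 0 := by
  rw [rho, bump_eq_zero ht hz, zero_div]

lemma hasCompactSupport_rho {t : ℝ} (ht : 0 < t) : HasCompactSupport (rho t : (ι → ℂ) → ℝ) := by
  apply HasCompactSupport.intro (isCompact_closedBall (0 : ι → ℂ) (1 / t))
  intro z hz
  apply rho_eq_zero ht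
  simp only [Metric.mem_closedBall, dist_zero_right, not_le] at hz
  exact hz.le

lemma integral_rho {t : ℝ} (ht : 0 < t) : ∫ z : ι → ℂ, rho t z = 1 := by
  unfold rho
  rw [integral_div, div_self (integral_bump_pos ht).ne']

lemma rho_smul (t : ℝ) {c : ℂ} (hc : ‖c‖ = 1) (z : ι → ℂ) : rho t (c • z) = rho t z := by
  have : nsq (c • z) = nsq z := by simp [nsq, hc]
  simp [rho, bump, this]

lemma rho_neg (t : ℝ) (z : ι → ℂ) : rho t (-z) = rho t z := by
  have : nsq (-z) = nsq z := by simp [nsq]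
  simp [rho, bump, this]

/-- convolution with a mollifier -/
noncomputable def conv (F : (ι → ℂ) → ℂ) (r : (ι → ℂ) → ℂ) (x : ι → ℂ) : ℂ :=
  ∫ y, F y * r (x - y)

lemma conv_eq (F : (ι → ℂ) → ℂ) (r : (ι → ℂ) → ℂ) :
    conv F r = F ⋆[ContinuousLinearMap.mul ℝ ℂ, volume] r := rfl

section

variable {F : (ι → ℂ) → ℂ} {r : (ι → ℂ) → ℂ}

lemma contDiff_conv (hF : LocallyIntegrable F) (hr : ContDiff ℝ ∞ r) (hc : HasCompactSupport r) :
    ContDiff ℝ ∞ (conv F r) := by
  rw [conv_eq]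
  exact hc.contDiff_convolution_right _ hF hr

lemma D_conv (hF : LocallyIntegrable F) (hr : ContDiff ℝ ∞ r) (hc : HasCompactSupport r)
    {s : ℂ} {j : ι} (x : ι → ℂ) : D s j (conv F r) x = conv F (D s j r) x := by
  have h1 : ∀ w : ι → ℂ, fderiv ℝ (conv F r) x w = conv F (fun y => fderiv ℝ r y w) x := by
    intro w
    have h := hc.hasFDerivAt_convolution_right (ContinuousLinearMap.mul ℝ ℂ) hF
      (hr.of_le (by simp)) x
    rw [conv_eq, h.fderiv, convolution_precompR_apply _ hF (hc.fderiv ℝ)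
      (hr.continuous_fderiv (by simp))]
    rfl
  have h2 : ∀ w : ι → ℂ, Integrable fun y => F y * fderiv ℝ r (x - y) w := by
    intro w
    have h := (hc.fderiv_apply (𝕜 := ℝ) w).convolutionExists_right (ContinuousLinearMap.mul ℝ ℂ) hF
      ((hr.continuous_fderiv (by simp)).clm_apply continuous_const) x
    exact h
  rw [D, h1, h1]
  simp only [conv, D]
  rw [← integral_const_mul, ← integral_add (h2 _) ((h2 _).const_mul _), ← integral_div]
  congr 1
  funext y
  ring

/-- mollification of order `m` -/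
noncomputable def mol (m : ℕ) (F : (ι → ℂ) → ℂ) : (ι → ℂ) → ℂ :=
  conv F (fun z => (rho ((m : ℝ) + 1) z : ℂ))

lemma contDiff_rhoC (t : ℝ) : ContDiff ℝ ∞ (fun z : ι → ℂ => (rho t z : ℂ)) :=
  Complex.ofRealCLM.contDiff.comp (contDiff_rho t)

lemma hasCompactSupport_rhoC {t : ℝ} (ht : 0 < t) :
    HasCompactSupport (fun z : ι → ℂ => (rho t z : ℂ)) :=
  (hasCompactSupport_rho ht).comp_left (g := fun x : ℝ => (x : ℂ)) (by simp)

lemma contDiff_mol (m : ℕ) (hF : LocallyIntegrable F) : ContDiff ℝ ∞ (mol m F) :=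
  contDiff_conv hF (contDiff_rhoC _) (hasCompactSupport_rhoC (by positivity))

lemma mol_eq_zero (m : ℕ) {R : ℝ} (hF : ∀ y, R < ‖y‖ → F y = 0) {x : ι → ℂ}
    (hx : R + 1 / ((m : ℝ) + 1) ≤ ‖x‖) : mol m F x = 0 := by
  unfold mol conv
  have : (fun y => F y * (rho ((m : ℝ) + 1) (x - y) : ℂ)) = fun _ => 0 := by
    funext y
    by_cases h : R < ‖y‖
    · rw [hF y h, zero_mul]
    · push Not at h
      rw [rho_eq_zero (by positivity)]
      · simp
      · have := norm_sub_norm_le x y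
        linarith
  rw [this, integral_zero]

end

end Pool.Agent.Lib.Hormander
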