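import Pool.Agent.Lib.Hormander.Moll

/-!
Mollifications converge in `L²`.
-/

namespace Pool.Agent.Lib.Hormander

open MeasureTheory Set Topology Filter
open scoped ContDiff ComplexConjugate ENNReal Convolution

set_option linter.unusedSectionVars false

variable {ι : Type*} [Fintype ι] [DecidableEq ι]

lemma sq_lintegral_mul_le {α : Type*} [MeasurableSpace α] (μ : Measure α) {f k : α → ℝ≥0∞}
    (hf : AEMeasurable f μ) (hk : AEMeasurable k μ) (h1 : ∫⁻ a, k a ∂μ ≤ 1) :
    (∫⁻ a, f a * k a ∂μ) ^ 2 ≤ ∫⁻ a, f a ^ 2 * k a ∂μ := by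
  have hsq : ∀ a : ℝ≥0∞, (a ^ (1 / 2 : ℝ)) * (a ^ (1 / 2 : ℝ)) = a := by
    intro a
    rw [← ENNReal.rpow_add_of_nonneg _ _ (by norm_num) (by norm_num)]
    norm_num
  have h := ENNReal.lintegral_mul_le_Lp_mul_Lq μ Real.HolderConjugate.two_two
    (f := fun a => f a * k a ^ (1 / 2 : ℝ)) (g := fun a => k a ^ (1 / 2 : ℝ))
    (hf.mul (hk.pow_const _)) (hk.pow_const _)
  have e1 : ∀ a, ((fun a => f a * k a ^ (1 / 2 : ℝ)) * fun a => k a ^ (1 / 2 : ℝ)) a =
      f a * k a := by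
    intro a
    simp only [Pi.mul_apply]
    rw [mul_assoc, hsq]
  have e2 : ∀ a, (f a * k a ^ (1 / 2 : ℝ)) ^ (2 : ℝ) = f a ^ 2 * k a := by
    intro a
    rw [ENNReal.rpow_two, mul_pow, pow_two (k a ^ (1 / 2 : ℝ)), hsq]
  have e3 : ∀ a, (k a ^ (1 / 2 : ℝ)) ^ (2 : ℝ) = k a := by
    intro a
    rw [ENNReal.rpow_two, pow_two, hsq]
  simp only [e1, e2, e3] at h
  calc (∫⁻ a, f a * k a ∂μ) ^ 2
      ≤ ((∫⁻ a, f a ^ 2 * k a ∂μ) ^ (1 / 2 : ℝ) * (∫⁻ a, k a ∂μ) ^ (1 / 2 : ℝ)) ^ 2 := by gcongr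
    _ = (∫⁻ a, f a ^ 2 * k a ∂μ) * (∫⁻ a, k a ∂μ) := by
        rw [mul_pow, pow_two, pow_two, hsq, hsq]
    _ ≤ (∫⁻ a, f a ^ 2 * k a ∂μ) * 1 := by gcongr
    _ = _ := mul_one _

variable {F G : (ι → ℂ) → ℂ}

lemma lintegral_rho_left {t : ℝ} (ht : 0 < t) (x : ι → ℂ) :
    ∫⁻ y : ι → ℂ, ENNReal.ofReal (rho t (x - y)) = 1 := by
  rw [← ofReal_integral_eq_lintegral_ofReal]
  · rw [integral_sub_left_eq_self (fun y => rho t y) volume x, integral_rho ht]
    simp
  · have := (contDiff_rho (ι := ι) t).continuous.integrable_of_hasCompactSupport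
      (μ := volume) (hasCompactSupport_rho ht)
    exact this.comp_sub_left x
  · exact Eventually.of_forall fun y => rho_nonneg ht _

lemma lintegral_rho_right {t : ℝ} (ht : 0 < t) (y : ι → ℂ) :
    ∫⁻ x : ι → ℂ, ENNReal.ofReal (rho t (x - y)) = 1 := by
  rw [← lintegral_rho_left ht y]
  congr 1
  funext x
  rw [← rho_neg, neg_sub]

lemma enorm_mol_le (m : ℕ) (x : ι → ℂ) : ‖mol m F x‖ₑ ≤
    ∫⁻ y, ‖F y‖ₑ * ENNReal.ofReal (rho ((m : ℝ) + 1) (x - y)) := by
  refine (enorm_integral_le_lintegral_enorm _).trans (lintegral_mono fun y => ?_)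
  rw [enorm_mul]
  gcongr
  rw [← ofReal_norm, Complex.norm_real, Real.norm_of_nonneg (rho_nonneg (by positivity) _)]

lemma lintegral_mol_sq_le (m : ℕ) (hF : AEStronglyMeasurable F volume) :
    ∫⁻ x, ‖mol m F x‖ₑ ^ 2 ≤ ∫⁻ x, ‖F x‖ₑ ^ 2 := by
  have ht : (0 : ℝ) < (m : ℝ) + 1 := by positivity
  have hmeas : Measurable fun p : (ι → ℂ) × (ι → ℂ) =>
      ENNReal.ofReal (rho ((m : ℝ) + 1) (p.1 - p.2)) :=
    ENNReal.measurable_ofReal.comp ((contDiff_rho (ι := ι) _).continuous.measurable.comp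
      (measurable_fst.sub measurable_snd))
  calc ∫⁻ x, ‖mol m F x‖ₑ ^ 2
      ≤ ∫⁻ x, ∫⁻ y, ‖F y‖ₑ ^ 2 * ENNReal.ofReal (rho ((m : ℝ) + 1) (x - y)) := by
        refine lintegral_mono fun x => ?_
        refine (pow_le_pow_left' (enorm_mol_le m x) 2).trans ?_
        exact sq_lintegral_mul_le volume hF.enorm
          (hmeas.comp (measurable_const.prodMk measurable_id)).aemeasurable
          (lintegral_rho_left ht x).le
    _ = ∫⁻ y, ∫⁻ x, ‖F y‖ₑ ^ 2 * ENNReal.ofReal (rho ((m : ℝ) + 1) (x - y)) := by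
        apply lintegral_lintegral_swap
        have h1 : AEMeasurable (fun p : (ι → ℂ) × (ι → ℂ) => ‖F p.2‖ₑ ^ 2)
            (volume.prod volume) :=
          (hF.enorm.comp_quasiMeasurePreserving (Measure.quasiMeasurePreserving_snd)).pow_const 2
        exact h1.mul hmeas.aemeasurable
    _ = ∫⁻ y, ‖F y‖ₑ ^ 2 := by
        congr 1
        funext y
        have h1 : Measurable fun x : ι → ℂ => ENNReal.ofReal (rho ((m : ℝ) + 1) (x - y)) :=
          ENNReal.measurable_ofReal.comp ((contDiff_rho (ι := ι) _).continuous.measurable.comp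
            (measurable_id.sub_const y))
        rw [lintegral_const_mul _ h1, lintegral_rho_right ht, mul_one]

lemma eLpNorm_two_eq (F : (ι → ℂ) → ℂ) :
    eLpNorm F 2 volume = (∫⁻ x, ‖F x‖ₑ ^ 2) ^ (1 / 2 : ℝ) := by
  rw [eLpNorm_eq_lintegral_rpow_enorm_toReal (by norm_num) (by norm_num)]
  simp

lemma eLpNorm_mol_le (m : ℕ) (hF : AEStronglyMeasurable F volume) :
    eLpNorm (mol m F) 2 volume ≤ eLpNorm F 2 volume := by
  rw [eLpNorm_two_eq, eLpNorm_two_eq]
  exact ENNReal.rpow_le_rpow (lintegral_mol_sq_le m hF) (by norm_num)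

lemma integrable_mol (m : ℕ) (hF : LocallyIntegrable F) (x : ι → ℂ) :
    Integrable fun y => F y * (rho ((m : ℝ) + 1) (x - y) : ℂ) :=
  (hasCompactSupport_rhoC (ι := ι) (t := (m : ℝ) + 1) (by positivity)).convolutionExists_right
    (ContinuousLinearMap.mul ℝ ℂ) hF (contDiff_rhoC _).continuous x

lemma mol_sub (m : ℕ) (hF : LocallyIntegrable F) (hG : LocallyIntegrable G) :
    mol m (F - G) = mol m F - mol m G := by
  funext x
  simp only [mol, conv, Pi.sub_apply]
  rw [← integral_sub (integrable_mol m hF x) (integrable_mol m hG x)]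
  congr 1
  funext y
  ring

lemma mol_sub_const (m : ℕ) (hF : LocallyIntegrable F) (x : ι → ℂ) (c : ℂ) :
    mol m F x - c = ∫ y, (F y - c) * (rho ((m : ℝ) + 1) (x - y) : ℂ) := by
  have ht : (0 : ℝ) < (m : ℝ) + 1 := by positivity
  have h1 : ∫ y, c * (rho ((m : ℝ) + 1) (x - y) : ℂ) = c := by
    rw [integral_const_mul, integral_complex_ofReal,
      integral_sub_left_eq_self (fun y => rho ((m : ℝ) + 1) y) volume x, integral_rho ht]
    simp
  have h2 := integrable_mol m (locallyIntegrable_const (μ := volume) c) x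
  have h3 : ∫ y, (F y - c) * (rho ((m : ℝ) + 1) (x - y) : ℂ) =
      (∫ y, F y * (rho ((m : ℝ) + 1) (x - y) : ℂ)) -
      ∫ y, c * (rho ((m : ℝ) + 1) (x - y) : ℂ) := by
    rw [← integral_sub (integrable_mol m hF x) h2]
    congr 1
    funext y
    ring
  rw [h3, h1]
  rfl

lemma norm_mol_sub_le (m : ℕ) {g : (ι → ℂ) → ℂ} (hg : Continuous g) {δ : ℝ}
    (h : ∀ x y : ι → ℂ, dist x y < 1 / ((m : ℝ) + 1) → dist (g x) (g y) ≤ δ) (x : ι → ℂ) :
    ‖mol m g x - g x‖ ≤ δ := by
  have ht : (0 : ℝ) < (m : ℝ) + 1 := by positivity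
  have hL : LocallyIntegrable g := hg.locallyIntegrable
  rw [mol_sub_const m hL]
  have hr : Integrable fun y : ι → ℂ => rho ((m : ℝ) + 1) (x - y) :=
    ((contDiff_rho (ι := ι) _).continuous.integrable_of_hasCompactSupport
      (μ := volume) (hasCompactSupport_rho ht)).comp_sub_left x
  calc ‖∫ y, (g y - g x) * (rho ((m : ℝ) + 1) (x - y) : ℂ)‖
      ≤ ∫ y, δ * rho ((m : ℝ) + 1) (x - y) := by
        apply norm_integral_le_of_norm_le (hr.const_mul δ)
        refine Eventually.of_forall fun y => ?_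
        rw [norm_mul, Complex.norm_real, Real.norm_of_nonneg (rho_nonneg ht _)]
        by_cases hxy : 1 / ((m : ℝ) + 1) ≤ ‖x - y‖
        · rw [rho_eq_zero ht hxy]
          simp
        · push Not at hxy
          have := h y x (by rw [dist_comm, dist_eq_norm]; exact hxy)
          rw [dist_eq_norm] at this
          exact mul_le_mul_of_nonneg_right this (rho_nonneg ht _)
    _ = δ := by
        rw [integral_const_mul, integral_sub_left_eq_self (fun y => rho ((m : ℝ) + 1) y) volume x,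
          integral_rho ht, mul_one]

/-- Mollifications converge in `L²`. -/
theorem tendsto_mol (hF : MemLp F 2 volume) :
    Tendsto (fun m => eLpNorm (mol m F - F) 2 volume) atTop (𝓝 0) := by
  rw [ENNReal.tendsto_nhds_zero]
  intro ε hε
  have hε3 : ε / 3 ≠ 0 := by
    rw [Ne, ENNReal.div_eq_zero_iff]
    push Not
    exact ⟨hε.ne', by norm_num⟩
  obtain ⟨g, hgc, hg1, hg2, hg3⟩ := hF.exists_hasCompactSupport_eLpNorm_sub_le (by norm_num) hε3
  have hFl : LocallyIntegrable F := hF.locallyIntegrable (by norm_num)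
  have hgl : LocallyIntegrable g := hg2.locallyIntegrable
  -- radius of the support of g
  obtain ⟨R, hR⟩ := hgc.isCompact.isBounded.subset_closedBall (0 : ι → ℂ)
  have hg0 : ∀ y, R < ‖y‖ → g y = 0 := by
    intro y hy
    apply image_eq_zero_of_notMem_tsupport
    intro hy'
    have := hR hy'
    simp only [Metric.mem_closedBall, dist_zero_right] at this
    linarith
  set B : Set (ι → ℂ) := Metric.closedBall 0 (R + 1)
  set χ : (ι → ℂ) → ℂ := B.indicator (fun _ => 1)
  have hBf : volume B ≠ ⊤ := (isCompact_closedBall (0 : ι → ℂ) (R + 1)).measure_lt_top.ne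
  have hχ : eLpNorm χ 2 volume ≠ ⊤ := by
    have : MemLp χ 2 volume := memLp_indicator_const 2 Metric.isClosed_closedBall.measurableSet 1
      (Or.inr hBf)
    exact this.eLpNorm_ne_top
  obtain ⟨δ, hδ0, hδ⟩ : ∃ δ : ℝ, 0 < δ ∧ ENNReal.ofReal δ * eLpNorm χ 2 volume ≤ ε / 3 := by
    have hlim : Tendsto (fun δ : ℝ => ENNReal.ofReal δ * eLpNorm χ 2 volume) (𝓝[>] 0) (𝓝 0) := by
      have h1 : Tendsto (fun δ : ℝ => ENNReal.ofReal δ) (𝓝[>] 0) (𝓝 0) := by
        have := (ENNReal.continuous_ofReal.tendsto 0)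
        rw [ENNReal.ofReal_zero] at this
        exact this.mono_left nhdsWithin_le_nhds
      have := ENNReal.Tendsto.mul_const (b := eLpNorm χ 2 volume) h1 (Or.inr hχ)
      rwa [zero_mul] at this
    have h2 := (ENNReal.tendsto_nhds_zero.1 hlim) (ε / 3) (pos_iff_ne_zero.2 hε3)
    obtain ⟨δ, h3, h4⟩ := (h2.and self_mem_nhdsWithin).exists
    exact ⟨δ, h4, h3⟩
  have huc : UniformContinuous g := hgc.uniformContinuous_of_continuous hg2
  obtain ⟨η, hη, hη'⟩ := Metric.uniformContinuous_iff.1 huc δ hδ0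
  obtain ⟨M, hM⟩ := exists_nat_gt (1 / η)
  filter_upwards [eventually_ge_atTop M] with m hm
  have hm1 : 1 / ((m : ℝ) + 1) < η := by
    rw [div_lt_iff₀ (by positivity)]
    have h1 : (M : ℝ) ≤ m := by exact_mod_cast hm
    rw [div_lt_iff₀ hη] at hM
    nlinarith
  have h3 : eLpNorm (mol m g - g) 2 volume ≤ ε / 3 := by
    refine le_trans ?_ hδ
    apply eLpNorm_le_mul_eLpNorm_of_ae_le_mul
    refine Eventually.of_forall fun x => ?_
    by_cases hx : x ∈ B
    · simp only [χ, indicator_of_mem hx, norm_one, mul_one, Pi.sub_apply]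
      apply norm_mol_sub_le m hg2
      intro x y hxy
      exact (hη' (hxy.trans hm1)).le
    · have hx' : R + 1 < ‖x‖ := by
        simpa [B] using hx
      have h1 : 1 / ((m : ℝ) + 1) ≤ 1 := by
        rw [div_le_one (by positivity)]
        have : (0 : ℝ) ≤ m := Nat.cast_nonneg m
        linarith
      rw [Pi.sub_apply, mol_eq_zero m hg0 (by linarith), hg0 x (by linarith)]
      simp [χ, indicator_of_notMem hx]
  have h4 : mol m F - F = mol m (F - g) + (mol m g - g) - (F - g) := by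
    rw [mol_sub m hFl hgl]
    abel
  have hmeas1 : AEStronglyMeasurable (F - g) volume := hF.1.sub hg3.1
  have hmF : ∀ {H : (ι → ℂ) → ℂ}, LocallyIntegrable H → AEStronglyMeasurable (mol m H) volume :=
    fun hH => (contDiff_mol m hH).continuous.aestronglyMeasurable
  have h5 : eLpNorm (mol m (F - g)) 2 volume ≤ ε / 3 := (eLpNorm_mol_le m hmeas1).trans hg1
  calc eLpNorm (mol m F - F) 2 volume
      = eLpNorm (mol m (F - g) + (mol m g - g) - (F - g)) 2 volume := by rw [h4]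
    _ ≤ eLpNorm (mol m (F - g) + (mol m g - g)) 2 volume + eLpNorm (F - g) 2 volume :=
        eLpNorm_sub_le ((hmF (hFl.sub hgl)).add ((hmF hgl).sub hg3.1)) hmeas1 (by norm_num)
    _ ≤ (eLpNorm (mol m (F - g)) 2 volume + eLpNorm (mol m g - g) 2 volume) +
        eLpNorm (F - g) 2 volume := by
        gcongr
        exact eLpNorm_add_le (hmF (hFl.sub hgl)) ((hmF hgl).sub hg3.1) (by norm_num)
    _ ≤ (ε / 3 + ε / 3) + ε / 3 := by gcongr
    _ = ε := ENNReal.add_thirds ε

end Pool.Agent.Lib.Hormander
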