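import Pool.Agent.Lib.Hormander.Global

/-!
Solution of `∂̄ u = g` with `L²` estimates, for a weight with Levi form bounded below by `κ > 0`.
-/

namespace Pool.Agent.Lib.Hormander

open MeasureTheory Set Topology Filter
open scoped ContDiff ComplexConjugate ENNReal InnerProductSpace

set_option linter.unusedSectionVars false

/-- Riesz representation of a functional dominated by a linear map. -/
lemma exists_repr {V H : Type*} [AddCommGroup V] [Module ℂ V] [NormedAddCommGroup H]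
    [InnerProductSpace ℂ H] [CompleteSpace H] (T : V →ₗ[ℂ] H) (G : V →ₗ[ℂ] ℂ) {c : ℝ} (hc : 0 ≤ c)
    (hG : ∀ v, ‖G v‖ ≤ c * ‖T v‖) : ∃ u : H, ‖u‖ ≤ c ∧ ∀ v, ⟪u, T v⟫_ℂ = G v := by
  obtain ⟨s, hs⟩ := T.rangeRestrict.exists_rightInverse_of_surjective
    (LinearMap.range_eq_top.2 T.surjective_rangeRestrict)
  have hs' : ∀ y : LinearMap.range T, T (s y) = y := fun y =>
    congrArg Subtype.val (LinearMap.congr_fun hs y)
  have hGs : ∀ v, G (s ⟨T v, LinearMap.mem_range_self T v⟩) = G v := by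
    intro v
    have h1 : T (s ⟨T v, LinearMap.mem_range_self T v⟩ - v) = 0 := by
      rw [map_sub, hs', sub_self]
    have h2 := hG (s ⟨T v, LinearMap.mem_range_self T v⟩ - v)
    rw [h1, norm_zero, mul_zero] at h2
    have h3 : G (s ⟨T v, LinearMap.mem_range_self T v⟩ - v) = 0 := norm_le_zero_iff.1 h2
    rw [map_sub, sub_eq_zero] at h3
    exact h3
  let f : LinearMap.range T →L[ℂ] ℂ := (G.comp s).mkContinuous c (by
    intro y
    have := hG (s y)
    rw [hs'] at this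
    exact this)
  obtain ⟨F, hF1, hF2⟩ := exists_extension_norm_eq (LinearMap.range T) f
  refine ⟨(InnerProductSpace.toDual ℂ H).symm F, ?_, ?_⟩
  · rw [LinearIsometryEquiv.norm_map, hF2]
    exact LinearMap.mkContinuous_norm_le _ hc _
  · intro v
    rw [InnerProductSpace.toDual_symm_apply]
    have := hF1 ⟨T v, LinearMap.mem_range_self T v⟩
    rw [this]
    exact hGs v

variable {ι : Type*} [Fintype ι] [DecidableEq ι]

/-- `e^{-φ/2}` -/
noncomputable def w1 (φ : (ι → ℂ) → ℝ) (z : ι → ℂ) : ℂ := (Real.exp (-φ z / 2) : ℂ)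

/-- `e^{φ/2}` -/
noncomputable def w2 (φ : (ι → ℂ) → ℝ) (z : ι → ℂ) : ℂ := (Real.exp (φ z / 2) : ℂ)

lemma w1_mul_w2 (φ : (ι → ℂ) → ℝ) (z : ι → ℂ) : w1 φ z * w2 φ z = 1 := by
  rw [w1, w2, ← Complex.ofReal_mul, ← Real.exp_add]
  have : -φ z / 2 + φ z / 2 = 0 := by ring
  rw [this]
  simp

lemma w1_mul_w1 (φ : (ι → ℂ) → ℝ) (z : ι → ℂ) : w1 φ z * w1 φ z = (W φ z : ℂ) := by
  rw [w1, W, ← Complex.ofReal_mul, ← Real.exp_add]
  have : -φ z / 2 + -φ z / 2 = -φ z := by ring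
  rw [this]

lemma norm_w1_sq (φ : (ι → ℂ) → ℝ) (z : ι → ℂ) : ‖w1 φ z‖ ^ 2 = W φ z := by
  rw [w1, Complex.norm_real, Real.norm_of_nonneg (Real.exp_pos _).le, W, ← Real.exp_nat_mul]
  congr 1
  push_cast
  ring

lemma conj_w1 (φ : (ι → ℂ) → ℝ) (z : ι → ℂ) : conj (w1 φ z) = w1 φ z := Complex.conj_ofReal _

lemma conj_w2 (φ : (ι → ℂ) → ℝ) (z : ι → ℂ) : conj (w2 φ z) = w2 φ z := Complex.conj_ofReal _

variable {φ : (ι → ℂ) → ℝ}

lemma contDiff_w1 (hφ : ContDiff ℝ ∞ φ) : ContDiff ℝ ∞ (w1 φ) :=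
  contDiff_ofReal_comp (hφ.neg.div_const 2).exp

lemma contDiff_w2 (hφ : ContDiff ℝ ∞ φ) : ContDiff ℝ ∞ (w2 φ) :=
  contDiff_ofReal_comp (hφ.div_const 2).exp

/-- the space of scalar functions -/
abbrev H0 (ι : Type*) [Fintype ι] : Type _ := Lp ℂ 2 (volume : Measure (ι → ℂ))

/-- the space of `(0,1)` forms -/
abbrev H1 (ι : Type*) [Fintype ι] : Type _ :=
  PiLp 2 (fun _ : ι => Lp ℂ 2 (volume : Measure (ι → ℂ)))

lemma inner_toLp_left {F : (ι → ℂ) → ℂ} (hF : MemLp F 2 volume) (b : H0 ι) :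
    ⟪hF.toLp F, b⟫_ℂ = ∫ x, conj (F x) * b x := by
  rw [L2.inner_def]
  apply integral_congr_ae
  filter_upwards [hF.coeFn_toLp] with x hx
  rw [hx]
  simp [mul_comm]

lemma inner_toLp {F G : (ι → ℂ) → ℂ} (hF : MemLp F 2 volume) (hG : MemLp G 2 volume) :
    ⟪hF.toLp F, hG.toLp G⟫_ℂ = ∫ x, conj (F x) * G x := by
  rw [inner_toLp_left hF]
  apply integral_congr_ae
  filter_upwards [hG.coeFn_toLp] with x hx
  rw [hx]

/-- a form from its components -/
noncomputable def mk1 (F : ι → (ι → ℂ) → ℂ) (hF : ∀ j, MemLp (F j) 2 volume) : H1 ι :=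
  WithLp.toLp 2 fun j => (hF j).toLp (F j)

/-- a form with one component -/
noncomputable def single1 (j : ι) (F : (ι → ℂ) → ℂ) (hF : MemLp F 2 volume) : H1 ι :=
  WithLp.toLp 2 (Pi.single j (hF.toLp F))

lemma inner_single1 (j : ι) {F : (ι → ℂ) → ℂ} (hF : MemLp F 2 volume) (b : H1 ι) :
    ⟪single1 j F hF, b⟫_ℂ = ∫ x, conj (F x) * b j x := by
  rw [PiLp.inner_apply, Finset.sum_eq_single j]
  · simp only [single1, Pi.single_eq_same]
    exact inner_toLp_left hF (b j)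
  · intro k _ hk
    simp only [single1, Pi.single_eq_of_ne hk]
    exact inner_zero_left _
  · simp

lemma inner_mk1 (F : ι → (ι → ℂ) → ℂ) (hF : ∀ j, MemLp (F j) 2 volume) (b : H1 ι) :
    ⟪mk1 F hF, b⟫_ℂ = ∑ j, ∫ x, conj (F j x) * b j x := by
  rw [PiLp.inner_apply]
  exact Finset.sum_congr rfl fun j _ => inner_toLp_left (hF j) (b j)

lemma memLp_smooth {F : (ι → ℂ) → ℂ} (hF : Continuous F) (hc : HasCompactSupport F) :
    MemLp F 2 volume := hF.memLp_of_hasCompactSupport hc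

/-- test forms -/
def TestForm (ι : Type*) [Fintype ι] : Submodule ℂ (ι → (ι → ℂ) → ℂ) where
  carrier := {α | ∀ j, ContDiff ℝ ∞ (α j) ∧ HasCompactSupport (α j)}
  add_mem' := fun ha hb j => ⟨(ha j).1.add (hb j).1, (ha j).2.add (hb j).2⟩
  zero_mem' := fun _ => ⟨contDiff_const, HasCompactSupport.zero⟩
  smul_mem' := fun c _ ha j => ⟨(ha j).1.const_smul c, (ha j).2.smul_left (f := fun _ => c)⟩

/-- the test vectors expressing weak closedness -/
def closedTests (φ : (ι → ℂ) → ℝ) : Set (H1 ι) :=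
  {τ | ∃ (j k : ι) (η : (ι → ℂ) → ℂ), ContDiff ℝ ∞ η ∧ HasCompactSupport η ∧
    ∃ (h1 : MemLp (fun z => conj (D 1 k η z * w2 φ z)) 2 volume)
      (h2 : MemLp (fun z => conj (D 1 j η z * w2 φ z)) 2 volume),
      τ = single1 j _ h1 - single1 k _ h2}

lemma mem_closedTests (hφ : ContDiff ℝ ∞ φ) (j k : ι) {η : (ι → ℂ) → ℂ} (hη : ContDiff ℝ ∞ η)
    (hc : HasCompactSupport η) :
    ∃ (h1 : MemLp (fun z => conj (D 1 k η z * w2 φ z)) 2 volume)
      (h2 : MemLp (fun z => conj (D 1 j η z * w2 φ z)) 2 volume),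
      single1 j _ h1 - single1 k _ h2 ∈ closedTests φ := by
  have h : ∀ i, MemLp (fun z => conj (D 1 i η z * w2 φ z)) 2 volume := fun i =>
    memLp_smooth (contDiff_conj ((contDiff_D hη).mul (contDiff_w2 hφ))).continuous
      (hasCompactSupport_conj (hasCompactSupport_D hc).mul_right)
  exact ⟨h k, h j, j, k, η, hη, hc, h k, h j, rfl⟩

/-- closed forms are orthogonal to the test vectors -/
lemma mem_orthogonal_of_closed {g : ι → (ι → ℂ) → ℂ}
    (hg : ∀ j, ContDiff ℝ ∞ (g j)) (hcl : ∀ j k z, D 1 k (g j) z = D 1 j (g k) z)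
    (hgM : ∀ j, MemLp (fun z => g j z * w1 φ z) 2 volume) :
    mk1 _ hgM ∈ (Submodule.span ℂ (closedTests φ))ᗮ := by
  rw [Submodule.mem_orthogonal]
  intro u hu
  induction hu using Submodule.span_induction with
  | mem τ hτ =>
    obtain ⟨j, k, η, hη, hc, h1, h2, rfl⟩ := hτ
    rw [inner_sub_left, inner_single1, inner_single1]
    have e : ∀ (i l : ι), ∫ x, conj (conj (D 1 l η x * w2 φ x)) * (mk1 _ hgM : H1 ι) i x =
        -∫ x, D 1 l (g i) x * η x := by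
      intro i l
      rw [← integral_mul_D ((hg i).of_le (by simp)) (hη.of_le (by simp)) hc]
      apply integral_congr_ae
      have := (hgM i).coeFn_toLp
      filter_upwards [this] with x hx
      have h3 : (mk1 _ hgM : H1 ι) i x = g i x * w1 φ x := hx
      rw [h3, Complex.conj_conj]
      linear_combination (D 1 l η x * g i x) * w1_mul_w2 φ x
    rw [e, e]
    simp only [hcl j k]
    ring
  | zero => exact inner_zero_left _
  | add x y _ _ hx hy => rw [inner_add_left, hx, hy, add_zero]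
  | smul c x _ hx => rw [inner_smul_left, hx, mul_zero]

lemma TestForm.smooth (α : TestForm ι) (j : ι) : ContDiff ℝ ∞ (α.1 j) := (α.2 j).1

lemma TestForm.compact (α : TestForm ι) (j : ι) : HasCompactSupport (α.1 j) := (α.2 j).2

lemma contDiff_Tst (hφ : ContDiff ℝ ∞ φ) {α : ι → (ι → ℂ) → ℂ} (hα : ∀ j, ContDiff ℝ ∞ (α j)) :
    ContDiff ℝ ∞ (Tst φ α) := by
  unfold Tst
  exact (ContDiff.sum fun j _ => contDiff_delta hφ (hα j)).neg

lemma hasCompactSupport_Tst {α : ι → (ι → ℂ) → ℂ} (hc : ∀ j, HasCompactSupport (α j)) :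
    HasCompactSupport (Tst φ α) := by
  have hK : IsCompact (⋃ j, tsupport (α j)) := isCompact_iUnion fun j => (hc j).isCompact
  apply HasCompactSupport.intro hK
  intro z hz
  rw [Tst, neg_eq_zero]
  refine Finset.sum_eq_zero fun j _ => ?_
  have hj : z ∉ tsupport (α j) := fun hj => hz (mem_iUnion.2 ⟨j, hj⟩)
  rw [delta, del_eq, D_eq_zero_of_notMem hj, image_eq_zero_of_notMem_tsupport hj]
  simp

lemma memLp_E (hφ : ContDiff ℝ ∞ φ) (α : TestForm ι) (j : ι) :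
    MemLp (fun z => α.1 j z * w1 φ z) 2 volume :=
  memLp_smooth ((TestForm.smooth α j).mul (contDiff_w1 hφ)).continuous
    (TestForm.compact α j).mul_right

lemma memLp_T (hφ : ContDiff ℝ ∞ φ) (α : TestForm ι) :
    MemLp (fun z => Tst φ α.1 z * w1 φ z) 2 volume :=
  memLp_smooth ((contDiff_Tst hφ (TestForm.smooth α)).mul (contDiff_w1 hφ)).continuous
    (hasCompactSupport_Tst (TestForm.compact α)).mul_right

/-- test forms as elements of the Hilbert space -/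
noncomputable def E1 (hφ : ContDiff ℝ ∞ φ) : TestForm ι →ₗ[ℂ] H1 ι where
  toFun α := mk1 _ (memLp_E hφ α)
  map_add' α β := by
    have h : ∀ j, (memLp_E hφ (α + β) j).toLp _ =
        (memLp_E hφ α j).toLp _ + (memLp_E hφ β j).toLp _ := by
      intro j
      rw [← MemLp.toLp_add]
      congr 1
      funext z
      simp [add_mul]
    ext1 j
    exact h j
  map_smul' c α := by
    have h : ∀ j, (memLp_E hφ (c • α) j).toLp _ = c • (memLp_E hφ α j).toLp _ := by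
      intro j
      rw [← MemLp.toLp_const_smul]
      congr 1
      funext z
      simp [mul_assoc]
    ext1 j
    exact h j

lemma Tst_add {α β : ι → (ι → ℂ) → ℂ} (hα : ∀ j, ContDiff ℝ ∞ (α j))
    (hβ : ∀ j, ContDiff ℝ ∞ (β j)) (z : ι → ℂ) :
    Tst φ (α + β) z = Tst φ α z + Tst φ β z := by
  simp only [Tst, delta, del_eq, Pi.add_apply]
  rw [← neg_add, ← Finset.sum_add_distrib]
  congr 1
  refine Finset.sum_congr rfl fun j _ => ?_
  have h : D (-1) j (α j + β j) z = D (-1) j (α j) z + D (-1) j (β j) z :=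
    D_add ((hα j).differentiable (by simp) z) ((hβ j).differentiable (by simp) z)
  rw [h]
  ring

lemma Tst_smul (c : ℂ) {α : ι → (ι → ℂ) → ℂ} (hα : ∀ j, ContDiff ℝ ∞ (α j)) (z : ι → ℂ) :
    Tst φ (c • α) z = c * Tst φ α z := by
  simp only [Tst, delta, del_eq, Pi.smul_apply, smul_eq_mul]
  rw [mul_neg, Finset.mul_sum]
  congr 1
  refine Finset.sum_congr rfl fun j _ => ?_
  have h : D (-1) j (c • α j) z = c * D (-1) j (α j) z :=
    D_const_mul c ((hα j).differentiable (by simp) z)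
  rw [h]
  ring

/-- the adjoint of `∂̄` on test forms -/
noncomputable def T1 (hφ : ContDiff ℝ ∞ φ) : TestForm ι →ₗ[ℂ] H0 ι where
  toFun α := (memLp_T hφ α).toLp _
  map_add' α β := by
    rw [← MemLp.toLp_add]
    congr 1
    funext z
    have := Tst_add (φ := φ) (TestForm.smooth α) (TestForm.smooth β) z
    simp only [Submodule.coe_add, Pi.add_apply] at this ⊢
    rw [this]
    ring
  map_smul' c α := by
    rw [RingHom.id_apply, ← MemLp.toLp_const_smul]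
    congr 1
    funext z
    have := Tst_smul (φ := φ) c (TestForm.smooth α) z
    simp only [Submodule.coe_smul, Pi.smul_apply, smul_eq_mul] at this ⊢
    rw [this]
    ring

lemma norm_toLp_sq {F : (ι → ℂ) → ℂ} (hF : MemLp F 2 volume) :
    ‖hF.toLp F‖ ^ 2 = ∫ x, ‖F x‖ ^ 2 := by
  rw [Lp.norm_toLp, integral_norm_sq_eq hF.1]

lemma norm_mk1_sq {F : ι → (ι → ℂ) → ℂ} (hF : ∀ j, MemLp (F j) 2 volume) :
    ‖mk1 F hF‖ ^ 2 = ∑ j, ∫ x, ‖F j x‖ ^ 2 := by
  rw [PiLp.norm_sq_eq_of_L2]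
  exact Finset.sum_congr rfl fun j _ => norm_toLp_sq (hF j)

lemma norm_w2_sq (φ : (ι → ℂ) → ℝ) (z : ι → ℂ) : W φ z * ‖w2 φ z‖ ^ 2 = 1 := by
  rw [← norm_w1_sq, ← mul_pow, ← norm_mul, w1_mul_w2]
  simp

lemma locL2_of_memLp {F : (ι → ℂ) → ℂ} (hF : MemLp F 2 volume) : LocL2 F := fun _ =>
  hF.indicator Metric.isClosed_closedBall.measurableSet

lemma exists_proj {H : Type*} [NormedAddCommGroup H] [InnerProductSpace ℂ H] [CompleteSpace H]
    (K : Submodule ℂ H) (x : H) : ∃ a ∈ Kᗮ, ∀ b ∈ Kᗮ, ⟪b, x⟫_ℂ = ⟪b, a⟫_ℂ := by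
  have : CompleteSpace Kᗮ := (Submodule.isClosed_orthogonal K).completeSpace_coe
  refine ⟨Kᗮ.starProjection x, Submodule.starProjection_apply_mem Kᗮ x, fun b hb => ?_⟩
  have h := (Submodule.mem_orthogonal Kᗮ _).1
    (Submodule.sub_starProjection_mem_orthogonal (K := Kᗮ) x) b hb
  rwa [inner_sub_right, sub_eq_zero] at h

lemma weakData_of (hφ : ContDiff ℝ ∞ φ) (α : TestForm ι) (a' : H1 ι)
    (ha'N : a' ∈ (Submodule.span ℂ (closedTests φ))ᗮ)
    (hort : ∀ b ∈ (Submodule.span ℂ (closedTests φ))ᗮ, ⟪b, E1 hφ α⟫_ℂ = ⟪b, a'⟫_ℂ) :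
    WeakData φ (fun j z => w2 φ z * a' j z) (Tst φ α.1) := by
  have hw2c : Continuous (w2 φ) := (contDiff_w2 hφ).continuous
  have ham : ∀ j, MemLp (a' j : (ι → ℂ) → ℂ) 2 volume := fun j => Lp.memLp (a' j)
  refine ⟨fun j => (locL2_of_memLp (ham j)).mul_continuous hw2c, ?_, ?_, ?_⟩
  · apply locL2_of_memLp
    exact memLp_smooth (contDiff_Tst hφ (TestForm.smooth α)).continuous
      (hasCompactSupport_Tst (TestForm.compact α))
  · intro j k η hη hc
    obtain ⟨h1, h2, h3⟩ := mem_closedTests hφ j k hη hc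
    have h4 : ⟪single1 j _ h1 - single1 k _ h2, a'⟫_ℂ = 0 :=
      (Submodule.mem_orthogonal _ _).1 ha'N _ (Submodule.subset_span h3)
    rw [inner_sub_left, inner_single1, inner_single1, sub_eq_zero] at h4
    simp only [Complex.conj_conj] at h4
    have e : ∀ i l : ι, ∫ z, w2 φ z * a' i z * D 1 l η z = ∫ z, D 1 l η z * w2 φ z * a' i z := by
      intro i l
      congr 1
      funext z
      ring
    rw [e, e]
    exact h4
  · intro η hη hc
    -- test with the closed form `∂̄ (conj η)`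
    have hη' := contDiff_conj hη
    have hc' := hasCompactSupport_conj hc
    have hDc : ∀ j z, D 1 j (fun y => conj (η y)) z = conj (D (-1) j η z) := by
      intro j z
      rw [D_conj (hη.differentiable (by simp) z)]
      simp
    have hbM : ∀ j, MemLp (fun z => D 1 j (fun y => conj (η y)) z * w1 φ z) 2 volume :=
      fun j => memLp_smooth ((contDiff_D hη').mul (contDiff_w1 hφ)).continuous
        (hasCompactSupport_D hc').mul_right
    have hbN : mk1 _ hbM ∈ (Submodule.span ℂ (closedTests φ))ᗮ :=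
      mem_orthogonal_of_closed (g := fun j => D 1 j (fun y =>
        conj (η y))) (fun j => contDiff_D hη') (fun j k z => D_comm hη') hbM
    have h1 := hort _ hbN
    rw [inner_mk1, inner_mk1] at h1
    have e1 : ∀ j, ∫ x, conj (D 1 j (fun y => conj (η y)) x * w1 φ x) * a' j x =
        ∫ z, w2 φ z * a' j z * (D (-1) j η z * W φ z) := by
      intro j
      congr 1
      funext z
      rw [hDc, map_mul, Complex.conj_conj, conj_w1, ← w1_mul_w1]
      linear_combination (-(D (-1) j η z * w1 φ z * a' j z)) * w1_mul_w2 φ z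
    have e2 : ∀ j, ∫ x, conj (D 1 j (fun y => conj (η y)) x * w1 φ x) * (E1 hφ α) j x =
        -∫ z, delta φ j (α.1 j) z * (η z * W φ z) := by
      intro j
      have e3 : ∫ x, conj (D 1 j (fun y => conj (η y)) x * w1 φ x) * (E1 hφ α) j x =
          ∫ x, (α.1 j x * W φ x) * D (-1) j η x := by
        apply integral_congr_ae
        filter_upwards [(memLp_E hφ α j).coeFn_toLp] with z hz
        have h3 : (E1 hφ α) j z = α.1 j z * w1 φ z := hz
        rw [h3, hDc, map_mul, Complex.conj_conj, conj_w1, ← w1_mul_w1]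
        ring
      rw [e3, integral_mul_D (((TestForm.smooth α j).mul (contDiff_ofReal_comp
        (contDiff_W hφ))).of_le (by simp)) (hη.of_le (by simp)) hc]
      congr 2
      funext z
      rw [del_mul_W hφ (TestForm.smooth α j)]
      ring
    simp only [e1, e2] at h1
    rw [← h1, Finset.sum_neg_distrib, ← integral_finsetSum, ← integral_neg]
    · congr 1
      funext z
      rw [Tst, ← Finset.sum_mul]
      ring
    · intro j _
      exact (((contDiff_delta hφ (TestForm.smooth α j)).mul (hη.mul (contDiff_ofReal_comp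
        (contDiff_W hφ)))).continuous).integrable_of_hasCompactSupport hc.mul_right.mul_left

lemma W_mul_norm (φ : (ι → ℂ) → ℝ) (z : ι → ℂ) (c : ℂ) : W φ z * ‖w2 φ z * c‖ ^ 2 = ‖c‖ ^ 2 := by
  rw [norm_mul, mul_pow, ← mul_assoc, norm_w2_sq, one_mul]

lemma norm_T1_sq (hφ : ContDiff ℝ ∞ φ) (α : TestForm ι) :
    ‖T1 hφ α‖ ^ 2 = ∫ z, W φ z * ‖Tst φ α.1 z‖ ^ 2 := by
  have h1 : ‖T1 hφ α‖ ^ 2 = ∫ z, ‖Tst φ α.1 z * w1 φ z‖ ^ 2 := norm_toLp_sq (memLp_T hφ α)
  rw [h1]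
  congr 1
  funext z
  rw [norm_mul, mul_pow, norm_w1_sq, mul_comm]

variable {κ : (ι → ℂ) → ℝ} {g : ι → (ι → ℂ) → ℂ} {K : ℝ}

lemma hasCompactSupport_norm_sq {f : (ι → ℂ) → ℂ} (hf : HasCompactSupport f) :
    HasCompactSupport fun z => ‖f z‖ ^ 2 :=
  hf.norm.comp_left (g := fun x : ℝ => x ^ 2) (by simp)

lemma est_proj (hφ : ContDiff ℝ ∞ φ) (hκ : Continuous κ) (hκ0 : ∀ z, 0 < κ z)
    (hκ1 : ∀ z, κ z ≤ K) (hlevi : ∀ z w, κ z * nsq w ≤ levi φ z w) (α : TestForm ι) (a' : H1 ι)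
    (hd : WeakData φ (fun j z => w2 φ z * a' j z) (Tst φ α.1)) :
    ∑ j, ∫ z, κ z * ‖a' j z‖ ^ 2 ≤ ‖T1 hφ α‖ ^ 2 := by
  have ham : ∀ j, MemLp (a' j : (ι → ℂ) → ℂ) 2 volume := fun j => Lp.memLp (a' j)
  have ha2 : ∀ j, Integrable fun z => W φ z * ‖w2 φ z * a' j z‖ ^ 2 := by
    intro j
    simp only [W_mul_norm]
    have := (ham j).integrable_norm_pow (by norm_num)
    exact this
  have hTc : Continuous (Tst φ α.1) := (contDiff_Tst hφ (TestForm.smooth α)).continuous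
  have hTs : HasCompactSupport (Tst φ α.1) := hasCompactSupport_Tst (TestForm.compact α)
  have hh2 : Integrable fun z => W φ z * ‖Tst φ α.1 z‖ ^ 2 :=
    ((contDiff_W hφ).continuous.mul (hTc.norm.pow 2)).integrable_of_hasCompactSupport
      (hasCompactSupport_norm_sq hTs).mul_left
  have hglob : ∑ j, ∫ z, κ z * W φ z * ‖w2 φ z * a' j z‖ ^ 2 ≤
      ∫ z, W φ z * ‖Tst φ α.1 z‖ ^ 2 :=
    global_estimate hφ hκ (fun z => (hκ0 z).le) hκ1 hlevi hd ha2 hh2
  have e : ∀ j, ∫ z, κ z * W φ z * ‖w2 φ z * a' j z‖ ^ 2 = ∫ z, κ z * ‖a' j z‖ ^ 2 := by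
    intro j
    congr 1
    funext z
    rw [mul_assoc, W_mul_norm]
  simp only [e] at hglob
  rw [norm_T1_sq]
  exact hglob

lemma memLp_g (hφ : ContDiff ℝ ∞ φ) (hκ0 : ∀ z, 0 < κ z) (hκ1 : ∀ z, κ z ≤ K)
    (hg : ∀ j, ContDiff ℝ ∞ (g j))
    (hint : ∀ j, Integrable fun z => (κ z)⁻¹ * W φ z * ‖g j z‖ ^ 2) (j : ι) :
    MemLp (fun z => g j z * w1 φ z) 2 volume := by
  have hw1c : Continuous (w1 φ) := (contDiff_w1 hφ).continuous
  have hcont : Continuous fun z => g j z * w1 φ z := (hg j).continuous.mul hw1c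
  refine (memLp_two_iff_integrable_sq_norm hcont.aestronglyMeasurable).2 ?_
  refine ((hint j).const_mul K).mono' (hcont.norm.pow 2).aestronglyMeasurable
    (Eventually.of_forall fun z => ?_)
  rw [Real.norm_of_nonneg (sq_nonneg _), norm_mul, mul_pow, norm_w1_sq]
  have h1 : 1 ≤ K * (κ z)⁻¹ := by
    rw [← div_eq_mul_inv, le_div_iff₀ (hκ0 z), one_mul]
    exact hκ1 z
  have h2 : 0 ≤ W φ z * ‖g j z‖ ^ 2 := mul_nonneg (W_pos φ z).le (sq_nonneg _)
  calc ‖g j z‖ ^ 2 * W φ z = 1 * (W φ z * ‖g j z‖ ^ 2) := by ring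
    _ ≤ (K * (κ z)⁻¹) * (W φ z * ‖g j z‖ ^ 2) := by gcongr
    _ = K * ((κ z)⁻¹ * W φ z * ‖g j z‖ ^ 2) := by ring

lemma inner_le_of (hφ : ContDiff ℝ ∞ φ) (hκ : Continuous κ) (hκ0 : ∀ z, 0 < κ z)
    (hκ1 : ∀ z, κ z ≤ K) (hg : ∀ j, ContDiff ℝ ∞ (g j))
    (hint : ∀ j, Integrable fun z => (κ z)⁻¹ * W φ z * ‖g j z‖ ^ 2)
    (hgM : ∀ j, MemLp (fun z => g j z * w1 φ z) 2 volume) (a' : H1 ι) {t : ℝ} (ht : 0 ≤ t)
    (ha' : ∑ j, ∫ z, κ z * ‖a' j z‖ ^ 2 ≤ t ^ 2) :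
    ‖⟪mk1 _ hgM, a'⟫_ℂ‖ ≤ √(∑ j, ∫ z, (κ z)⁻¹ * W φ z * ‖g j z‖ ^ 2) * t := by
  have hw1c : Continuous (w1 φ) := (contDiff_w1 hφ).continuous
  have ham : ∀ j, MemLp (a' j : (ι → ℂ) → ℂ) 2 volume := fun j => Lp.memLp (a' j)
  have hsκ : Continuous fun z => (√(κ z) : ℂ) := Complex.continuous_ofReal.comp hκ.sqrt
  have hsκ0 : ∀ z, 0 < √(κ z) := fun z => Real.sqrt_pos.2 (hκ0 z)
  have hpn' : ∀ j z, ‖g j z * w1 φ z * (((√(κ z))⁻¹ : ℝ) : ℂ)‖ ^ 2 =
      (κ z)⁻¹ * W φ z * ‖g j z‖ ^ 2 := by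
    intro j z
    rw [norm_mul, norm_mul, mul_pow, mul_pow, norm_w1_sq, Complex.norm_real,
      Real.norm_of_nonneg (inv_nonneg.2 (hsκ0 z).le), inv_pow, Real.sq_sqrt (hκ0 z).le]
    ring
  have hp : ∀ j, MemLp (fun z => g j z * w1 φ z * (((√(κ z))⁻¹ : ℝ) : ℂ)) 2 volume := by
    intro j
    have hcont : Continuous fun z => g j z * w1 φ z * (((√(κ z))⁻¹ : ℝ) : ℂ) :=
      ((hg j).continuous.mul hw1c).mul (Complex.continuous_ofReal.comp
        (hκ.sqrt.inv₀ fun z => (hsκ0 z).ne'))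
    refine (memLp_two_iff_integrable_sq_norm hcont.aestronglyMeasurable).2 ?_
    refine (hint j).congr (Eventually.of_forall fun z => ?_)
    exact (hpn' j z).symm
  have hq : ∀ j, MemLp (fun z => (√(κ z) : ℂ) * a' j z) 2 volume := by
    intro j
    refine (ham j).of_le_mul (c := √K) (hsκ.aestronglyMeasurable.mul (ham j).1)
      (Eventually.of_forall fun z => ?_)
    rw [norm_mul, Complex.norm_real, Real.norm_of_nonneg (hsκ0 z).le]
    exact mul_le_mul_of_nonneg_right (Real.sqrt_le_sqrt (hκ1 z)) (norm_nonneg _)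
  have hpq : ⟪mk1 _ hgM, a'⟫_ℂ = ⟪mk1 _ hp, mk1 _ hq⟫_ℂ := by
    rw [inner_mk1, inner_mk1]
    refine Finset.sum_congr rfl fun j _ => ?_
    apply integral_congr_ae
    filter_upwards [(hq j).coeFn_toLp] with z hz
    have h3 : (mk1 _ hq : H1 ι) j z = (√(κ z) : ℂ) * a' j z := hz
    rw [h3, map_mul, map_mul, map_mul, Complex.conj_ofReal]
    have h4 : (((√(κ z))⁻¹ : ℝ) : ℂ) * (√(κ z) : ℂ) = 1 := by
      rw [← Complex.ofReal_mul, inv_mul_cancel₀ (hsκ0 z).ne', Complex.ofReal_one]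
    linear_combination (-(conj (g j z) * conj (w1 φ z) * a' j z)) * h4
  have hpn : ‖mk1 _ hp‖ ^ 2 = ∑ j, ∫ z, (κ z)⁻¹ * W φ z * ‖g j z‖ ^ 2 := by
    rw [norm_mk1_sq]
    refine Finset.sum_congr rfl fun j _ => ?_
    congr 1
    funext z
    exact hpn' j z
  have hqn : ‖mk1 _ hq‖ ^ 2 ≤ t ^ 2 := by
    rw [norm_mk1_sq]
    refine le_trans (le_of_eq ?_) ha'
    refine Finset.sum_congr rfl fun j _ => ?_
    congr 1
    funext z
    rw [norm_mul, mul_pow, Complex.norm_real, Real.norm_of_nonneg (hsκ0 z).le,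
      Real.sq_sqrt (hκ0 z).le]
  rw [hpq]
  refine (norm_inner_le_norm _ _).trans ?_
  have h1 : ‖mk1 _ hp‖ = √(∑ j, ∫ z, (κ z)⁻¹ * W φ z * ‖g j z‖ ^ 2) := by
    rw [← hpn, Real.sqrt_sq (norm_nonneg _)]
  have h2 : ‖mk1 _ hq‖ ≤ t := (pow_le_pow_iff_left₀ (norm_nonneg _) ht two_ne_zero).1 hqn
  rw [h1]
  gcongr

/-- the test form `conj η e^φ dz̄_j` -/
noncomputable def tf (hφ : ContDiff ℝ ∞ φ) (j : ι) {η : (ι → ℂ) → ℂ} (hη : ContDiff ℝ ∞ η)
    (hc : HasCompactSupport η) : TestForm ι :=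
  ⟨Pi.single j (fun z => conj (η z) * (Real.exp (φ z) : ℂ)), by
    intro k
    by_cases hk : k = j
    · subst hk
      rw [Pi.single_eq_same]
      exact ⟨(contDiff_conj hη).mul (contDiff_ofReal_comp hφ.exp),
        (hasCompactSupport_conj hc).mul_right⟩
    · rw [Pi.single_eq_of_ne hk]
      exact ⟨contDiff_const, HasCompactSupport.zero⟩⟩

lemma exp_mul_W (φ : (ι → ℂ) → ℝ) (z : ι → ℂ) : (Real.exp (φ z) : ℂ) * (W φ z : ℂ) = 1 := by
  rw [W, ← Complex.ofReal_mul, ← Real.exp_add]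
  simp

lemma tf_same (hφ : ContDiff ℝ ∞ φ) (j : ι) {η : (ι → ℂ) → ℂ} (hη : ContDiff ℝ ∞ η)
    (hc : HasCompactSupport η) : (tf hφ j hη hc).1 j = fun z => conj (η z) * (Real.exp (φ z) : ℂ) :=
  Pi.single_eq_same _ _

lemma tf_ne (hφ : ContDiff ℝ ∞ φ) (j : ι) {η : (ι → ℂ) → ℂ} (hη : ContDiff ℝ ∞ η)
    (hc : HasCompactSupport η) {k : ι} (hk : k ≠ j) : (tf hφ j hη hc).1 k = 0 :=
  Pi.single_eq_of_ne hk _

lemma Tst_tf (hφ : ContDiff ℝ ∞ φ) (j : ι) {η : (ι → ℂ) → ℂ} (hη : ContDiff ℝ ∞ η)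
    (hc : HasCompactSupport η) (z : ι → ℂ) :
    Tst φ (tf hφ j hη hc).1 z = -((Real.exp (φ z) : ℂ) * conj (D 1 j η z)) := by
  have hvs : ContDiff ℝ ∞ fun z => conj (η z) * (Real.exp (φ z) : ℂ) :=
    (contDiff_conj hη).mul (contDiff_ofReal_comp hφ.exp)
  have hvW : (fun z => (conj (η z) * (Real.exp (φ z) : ℂ)) * (W φ z : ℂ)) =
      fun z => conj (η z) := by
    funext z
    rw [mul_assoc, exp_mul_W, mul_one]
  have hdel : delta φ j (fun z => conj (η z) * (Real.exp (φ z) : ℂ)) z =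
      (Real.exp (φ z) : ℂ) * conj (D 1 j η z) := by
    have h1 := del_mul_W (j := j) hφ hvs z
    rw [hvW, D_conj (hη.differentiable (by simp) z)] at h1
    have h2 : (-conj (-1 : ℂ)) = 1 := by simp
    rw [h2] at h1
    rw [h1]
    linear_combination (-(delta φ j (fun z => conj (η z) * (Real.exp (φ z) : ℂ)) z)) *
      exp_mul_W φ z
  rw [Tst, Finset.sum_eq_single j]
  · rw [tf_same, hdel]
  · intro k _ hk
    rw [tf_ne hφ j hη hc hk, delta, del_eq]
    have : D (-1) k (0 : (ι → ℂ) → ℂ) z = 0 := D_const 0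
    rw [this]
    simp
  · simp

theorem solve_kappa (hφ : ContDiff ℝ ∞ φ) (hκ : Continuous κ)
    (hκ0 : ∀ z, 0 < κ z) (hκ1 : ∀ z, κ z ≤ K)
    (hlevi : ∀ z w, κ z * nsq w ≤ levi φ z w)
    (hg : ∀ j, ContDiff ℝ ∞ (g j)) (hcl : ∀ j k z, D 1 k (g j) z = D 1 j (g k) z)
    (hint : ∀ j, Integrable fun z => (κ z)⁻¹ * W φ z * ‖g j z‖ ^ 2) :
    ∃ u : (ι → ℂ) → ℂ, LocL2 u ∧ Integrable (fun z => W φ z * ‖u z‖ ^ 2) ∧
      ∫ z, W φ z * ‖u z‖ ^ 2 ≤ ∑ j, ∫ z, (κ z)⁻¹ * W φ z * ‖g j z‖ ^ 2 ∧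
      ∀ (j : ι) (η : (ι → ℂ) → ℂ), ContDiff ℝ ∞ η → HasCompactSupport η →
        ∫ z, u z * D 1 j η z = -∫ z, g j z * η z := by
  have hw2c : Continuous (w2 φ) := (contDiff_w2 hφ).continuous
  have hgM := memLp_g hφ hκ0 hκ1 hg hint
  have hbgN : mk1 _ hgM ∈ (Submodule.span ℂ (closedTests φ))ᗮ :=
    mem_orthogonal_of_closed hg hcl hgM
  set C2 : ℝ := ∑ j, ∫ z, (κ z)⁻¹ * W φ z * ‖g j z‖ ^ 2 with hC2
  have hC20 : 0 ≤ C2 := Finset.sum_nonneg fun j _ => integral_nonneg fun z =>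
    mul_nonneg (mul_nonneg (inv_nonneg.2 (hκ0 z).le) (W_pos φ z).le) (sq_nonneg _)
  let G : TestForm ι →ₗ[ℂ] ℂ := (innerSL ℂ (mk1 _ hgM)).toLinearMap.comp (E1 hφ)
  have hGapp : ∀ α, G α = ⟪mk1 _ hgM, E1 hφ α⟫_ℂ := fun α => rfl
  have hmain : ∀ α, ‖G α‖ ≤ √C2 * ‖T1 hφ α‖ := by
    intro α
    obtain ⟨a', ha'N, hort⟩ := exists_proj (Submodule.span ℂ (closedTests φ)) (E1 hφ α)
    have hd := weakData_of hφ α a' ha'N hort
    have h1 := est_proj hφ hκ hκ0 hκ1 hlevi α a' hd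
    rw [hGapp, hort _ hbgN]
    exact inner_le_of hφ hκ hκ0 hκ1 hg hint hgM a' (norm_nonneg _) h1
  obtain ⟨u', hu1, hu2⟩ := exists_repr (T1 hφ) G (Real.sqrt_nonneg C2) hmain
  have hum : MemLp (u' : (ι → ℂ) → ℂ) 2 volume := Lp.memLp u'
  refine ⟨fun z => w2 φ z * u' z, (locL2_of_memLp hum).mul_continuous hw2c, ?_, ?_, ?_⟩
  · simp only [W_mul_norm]
    exact hum.integrable_norm_pow (by norm_num)
  · simp only [W_mul_norm]
    have h1 : ∫ z, ‖u' z‖ ^ 2 = ‖u'‖ ^ 2 := by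
      rw [← norm_toLp_sq hum, Lp.toLp_coeFn]
    rw [h1]
    calc ‖u'‖ ^ 2 ≤ √C2 ^ 2 := by gcongr
      _ = C2 := Real.sq_sqrt hC20
  · intro j η hη hc
    have hG1 : G (tf hφ j hη hc) = conj (∫ z, g j z * η z) := by
      rw [hGapp, inner_mk1, Finset.sum_eq_single j]
      · rw [← integral_conj]
        apply integral_congr_ae
        filter_upwards [(memLp_E hφ (tf hφ j hη hc) j).coeFn_toLp] with z hz
        have h3 : (E1 hφ (tf hφ j hη hc)) j z = conj (η z) * (Real.exp (φ z) : ℂ) * w1 φ z := by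
          have : (E1 hφ (tf hφ j hη hc)) j z = (tf hφ j hη hc).1 j z * w1 φ z := hz
          rw [this, tf_same]
        rw [h3, map_mul, conj_w1, map_mul]
        have h4 : w1 φ z * w1 φ z * (Real.exp (φ z) : ℂ) = 1 := by
          rw [w1_mul_w1, mul_comm]
          exact exp_mul_W φ z
        linear_combination (conj (g j z) * conj (η z)) * h4
      · intro k _ hk
        apply integral_eq_zero_of_ae
        filter_upwards [(memLp_E hφ (tf hφ j hη hc) k).coeFn_toLp] with z hz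
        have h3 : (E1 hφ (tf hφ j hη hc)) k z = (tf hφ j hη hc).1 k z * w1 φ z := hz
        rw [h3, tf_ne hφ j hη hc hk]
        simp
      · simp
    have hG2 : ⟪u', T1 hφ (tf hφ j hη hc)⟫_ℂ = -conj (∫ z, w2 φ z * u' z * D 1 j η z) := by
      rw [L2.inner_def, ← integral_conj, ← integral_neg]
      apply integral_congr_ae
      filter_upwards [(memLp_T hφ (tf hφ j hη hc)).coeFn_toLp] with z hz
      have h3 : (T1 hφ (tf hφ j hη hc)) z = Tst φ (tf hφ j hη hc).1 z * w1 φ z := hz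
      rw [h3, Tst_tf, map_mul, map_mul, conj_w2]
      have h4 : (Real.exp (φ z) : ℂ) * w1 φ z = w2 φ z := by
        rw [w1, w2, ← Complex.ofReal_mul, ← Real.exp_add]
        congr 2
        ring
      simp only [RCLike.inner_apply]
      linear_combination (-(conj (D 1 j η z) * conj (u' z))) * h4
    have h5 := hu2 (tf hφ j hη hc)
    rw [hG1, hG2] at h5
    have h6 : conj (-∫ z, w2 φ z * u' z * D 1 j η z) = conj (∫ z, g j z * η z) := by
      rw [map_neg]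
      exact h5
    have h7 := (starRingEnd ℂ).injective h6
    rw [← h7, neg_neg]

end Pool.Agent.Lib.Hormander
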