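import Pool.Agent.Lib.Hormander.MollConv

/-!
Weyl's lemma for `∂̄`: a weakly holomorphic locally square integrable function is almost everywhere
equal to an entire function.
-/

namespace Pool.Agent.Lib.Hormander

open MeasureTheory Set Topology Filter
open scoped ContDiff ComplexConjugate ENNReal

set_option linter.unusedSectionVars false

variable {ι : Type*} [Fintype ι] [DecidableEq ι]

/-! ### The Cauchy-Riemann equations -/

lemma differentiable_of_dbar {u : (ι → ℂ) → ℂ} (hu : Differentiable ℝ u)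
    (h : ∀ j z, dbar j u z = 0) : Differentiable ℂ u := by
  intro z
  rw [differentiableAt_iff_restrictScalars ℝ (hu z)]
  set L := fderiv ℝ u z
  have h1 : ∀ j, L (Pi.single j Complex.I) = Complex.I * L (Pi.single j 1) := by
    intro j
    have h2 := h j z
    have h3 : L (Pi.single j 1) + Complex.I * L (Pi.single j Complex.I) = 0 := by
      unfold dbar at h2
      rw [div_eq_zero_iff] at h2
      exact h2.resolve_right two_ne_zero
    linear_combination (-Complex.I) * h3 + L (Pi.single j Complex.I) * Complex.I_mul_I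
  refine ⟨∑ j, (L (Pi.single j 1)) • ContinuousLinearMap.proj (R := ℂ) (φ := fun _ : ι => ℂ) j, ?_⟩
  ext v
  have hv : v = ∑ j, ((v j).re • (Pi.single j (1 : ℂ) : ι → ℂ) +
      (v j).im • (Pi.single j Complex.I : ι → ℂ)) := by
    conv_lhs => rw [← Finset.univ_sum_single v]
    refine Finset.sum_congr rfl fun j _ => ?_
    rw [← Pi.single_smul, ← Pi.single_smul, ← Pi.single_add]
    congr 1
    simp only [Complex.real_smul, mul_one]
    exact (Complex.re_add_im (v j)).symm
  have e1 : L v = ∑ j, v j * L (Pi.single j 1) := by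
    conv_lhs => rw [hv]
    rw [map_sum]
    refine Finset.sum_congr rfl fun j _ => ?_
    rw [map_add, map_smul, map_smul, h1, Complex.real_smul, Complex.real_smul]
    conv_rhs => rw [← Complex.re_add_im (v j)]
    ring
  rw [e1]
  simp only [ContinuousLinearMap.coe_restrictScalars', _root_.sum_apply, _root_.smul_apply,
    ContinuousLinearMap.proj_apply, smul_eq_mul]
  exact Finset.sum_congr rfl fun j _ => mul_comm _ _

lemma dbar_of_differentiable {u : (ι → ℂ) → ℂ} (hu : Differentiable ℂ u) (j : ι) (z : ι → ℂ) :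
    dbar j u z = 0 := by
  have h1 : fderiv ℝ u z = (fderiv ℂ u z).restrictScalars ℝ :=
    ((hu z).hasFDerivAt.restrictScalars ℝ).fderiv
  have h2 : (Pi.single j Complex.I : ι → ℂ) = Complex.I • Pi.single j (1 : ℂ) := by
    rw [← Pi.single_smul]
    simp
  rw [dbar, h1, ContinuousLinearMap.coe_restrictScalars', h2, map_smul, smul_eq_mul, ← mul_assoc,
    Complex.I_mul_I]
  ring

lemma D_comp_sub {u : (ι → ℂ) → ℂ} {s : ℂ} {j : ι} (x z : ι → ℂ)
    (hu : DifferentiableAt ℝ u (x - z)) : D s j (fun y => u (x - y)) z = -D s j u (x - z) := by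
  have h1 : HasFDerivAt (fun y => u (x - y)) (-(fderiv ℝ u (x - z))) z := by
    have h2 := hu.hasFDerivAt.comp z ((hasFDerivAt_id z).const_sub x)
    refine h2.congr_fderiv ?_
    ext w
    simp
  simp only [D, h1.fderiv, _root_.neg_apply]
  ring

/-! ### The mean value property -/

lemma integral_smul_unit {c : ℂ} (hc : ‖c‖ = 1) (F : (ι → ℂ) → ℂ) :
    ∫ y, F (c • y) = ∫ y, F y := by
  have hc0 : c ≠ 0 := by
    rintro rfl
    simp at hc
  have h1 : MeasurePreserving (fun x : ℂ => c * x) := by
    have := (rotation ⟨c, by simp [Submonoid.unitSphere, hc]⟩).measurePreserving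
    exact this
  have h2 : MeasurePreserving (fun y : ι → ℂ => c • y) :=
    volume_preserving_pi (f := fun _ : ι => fun x : ℂ => c * x) (fun _ => h1)
  exact h2.integral_comp (Homeomorph.smulOfNeZero c hc0).measurableEmbedding F

lemma circle_mean {h : (ι → ℂ) → ℂ} (hh : Differentiable ℂ h) (x y : ι → ℂ) :
    (2 * Real.pi)⁻¹ • ∫ θ in (0 : ℝ)..2 * Real.pi, h (x - circleMap 0 1 θ • y) = h x := by
  have h1 : Differentiable ℂ fun ζ : ℂ => h (x - ζ • y) :=
    hh.comp ((differentiable_const _).sub (differentiable_id.smul_const y))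
  have h2 := DiffContOnCl.circleAverage (f := fun ζ : ℂ => h (x - ζ • y)) (c := 0) (R := 1)
    h1.diffContOnCl
  rw [Real.circleAverage_def] at h2
  rw [h2]
  simp

lemma mol_of_holomorphic (m : ℕ) {h : (ι → ℂ) → ℂ} (hh : Differentiable ℂ h) :
    mol m h = h := by
  funext x
  have ht : (0 : ℝ) < (m : ℝ) + 1 := by positivity
  set r : (ι → ℂ) → ℂ := fun y => (rho ((m : ℝ) + 1) y : ℂ) with hr
  have hrc : Continuous r := (contDiff_rhoC _).continuous
  have hi : ∫ y, r y = 1 := by
    rw [hr, integral_complex_ofReal, integral_rho ht]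
    simp
  set I : ℂ := ∫ y, h (x - y) * r y with hI
  have h1 : mol m h x = I := by
    rw [hI, ← integral_sub_left_eq_self (fun y => h (x - y) * r y) volume x]
    simp only [mol, conv, sub_sub_cancel, hr]
  have h2 : ∀ θ : ℝ, ∫ y, h (x - circleMap 0 1 θ • y) * r y = I := by
    intro θ
    have hc : ‖circleMap 0 1 θ‖ = 1 := by simp
    rw [hI, ← integral_smul_unit hc (fun y => h (x - y) * r y)]
    congr 1
    funext y
    simp only [hr, rho_smul _ hc]
  have hcont : Continuous fun p : ℝ × (ι → ℂ) => h (x - circleMap 0 1 p.1 • p.2) * r p.2 := by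
    have h3 : Continuous fun p : ℝ × (ι → ℂ) => circleMap 0 1 p.1 :=
      (continuous_circleMap 0 1).comp continuous_fst
    exact (hh.continuous.comp (continuous_const.sub (h3.smul continuous_snd))).mul
      (hrc.comp continuous_snd)
  have hint : Integrable (fun p : ℝ × (ι → ℂ) => h (x - circleMap 0 1 p.1 • p.2) * r p.2)
      ((volume.restrict (Ioc 0 (2 * Real.pi))).prod volume) := by
    have e : (volume.restrict (Ioc 0 (2 * Real.pi))).prod (volume : Measure (ι → ℂ)) =
        (volume.prod volume).restrict (Ioc 0 (2 * Real.pi) ×ˢ univ) := by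
      rw [← Measure.prod_restrict, Measure.restrict_univ]
    rw [e]
    have h3 : IntegrableOn (fun p : ℝ × (ι → ℂ) => h (x - circleMap 0 1 p.1 • p.2) * r p.2)
        (Icc 0 (2 * Real.pi) ×ˢ Metric.closedBall 0 (1 / ((m : ℝ) + 1))) (volume.prod volume) :=
      hcont.continuousOn.integrableOn_compact (isCompact_Icc.prod (isCompact_closedBall _ _))
    have h4 := h3.of_forall_sdiff_eq_zero (t := Icc 0 (2 * Real.pi) ×ˢ univ)
      (measurableSet_Icc.prod MeasurableSet.univ) (by
        rintro ⟨θ, y⟩ ⟨hy1, hy2⟩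
        have hy3 : y ∉ Metric.closedBall (0 : ι → ℂ) (1 / ((m : ℝ) + 1)) := fun h =>
          hy2 ⟨hy1.1, h⟩
        simp only [Metric.mem_closedBall, dist_zero_right, not_le] at hy3
        simp only [hr, rho_eq_zero ht hy3.le]
        simp)
    exact h4.mono_set (prod_mono Ioc_subset_Icc_self Subset.rfl)
  have h5 : I = ∫ y, h x * r y := by
    have h6 : I = (2 * Real.pi)⁻¹ • ∫ θ in (0 : ℝ)..2 * Real.pi, I := by
      rw [intervalIntegral.integral_const, sub_zero, smul_smul,
        inv_mul_cancel₀ (by positivity), one_smul]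
    rw [h6]
    have h7 : ∫ θ in (0 : ℝ)..2 * Real.pi, I =
        ∫ θ in (0 : ℝ)..2 * Real.pi, ∫ y, h (x - circleMap 0 1 θ • y) * r y := by
      congr 1
      funext θ
      exact (h2 θ).symm
    rw [h7, intervalIntegral.integral_of_le (by positivity), integral_integral_swap hint,
      ← integral_smul]
    congr 1
    funext y
    rw [integral_mul_const, ← intervalIntegral.integral_of_le (by positivity), ← smul_mul_assoc,
      circle_mean hh]
  rw [h1, h5, integral_const_mul, hi, mul_one]

/-! ### Weyl's lemma -/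

/-- local square integrability -/
def LocL2 (w : (ι → ℂ) → ℂ) : Prop :=
  ∀ R : ℝ, MemLp ((Metric.closedBall (0 : ι → ℂ) R).indicator w) 2 volume

lemma LocL2.locallyIntegrable {w : (ι → ℂ) → ℂ} (hw : LocL2 w) : LocallyIntegrable w := by
  intro x
  refine ⟨Metric.closedBall 0 (‖x‖ + 1), ?_, ?_⟩
  · apply mem_of_superset (Metric.ball_mem_nhds x one_pos)
    intro y hy
    simp only [Metric.mem_ball, Metric.mem_closedBall, dist_eq_norm, sub_zero] at hy ⊢
    have := norm_sub_norm_le y x
    linarith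
  · have h1 := hw (‖x‖ + 1)
    rw [memLp_indicator_iff_restrict Metric.isClosed_closedBall.measurableSet] at h1
    have : IsFiniteMeasure (volume.restrict (Metric.closedBall (0 : ι → ℂ) (‖x‖ + 1))) :=
      ⟨by simpa using (isCompact_closedBall (0 : ι → ℂ) (‖x‖ + 1)).measure_lt_top⟩
    exact h1.integrable (by norm_num)

lemma mol_indicator (m : ℕ) (w : (ι → ℂ) → ℂ) {R : ℝ} {x : ι → ℂ} (hx : ‖x‖ ≤ R) :
    mol m w x = mol m ((Metric.closedBall 0 (R + 1)).indicator w) x := by
  unfold mol conv
  congr 1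
  funext y
  by_cases hy : y ∈ Metric.closedBall (0 : ι → ℂ) (R + 1)
  · rw [indicator_of_mem hy]
  · simp only
    rw [rho_eq_zero (by positivity)]
    · simp
    · simp only [Metric.mem_closedBall, dist_zero_right, not_le] at hy
      have h1 := norm_sub_norm_le y x
      rw [norm_sub_rev] at h1
      have h2 : 1 / ((m : ℝ) + 1) ≤ 1 := by
        rw [div_le_one (by positivity)]
        have : (0 : ℝ) ≤ m := Nat.cast_nonneg m
        linarith
      linarith

lemma exists_mol_bound (k : ℕ) : ∃ C : ℝ≥0∞, C ≠ ⊤ ∧ ∀ (G : (ι → ℂ) → ℂ),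
    AEStronglyMeasurable G volume → ∀ x, ‖mol k G x‖ₑ ^ 2 ≤ C * ∫⁻ y, ‖G y‖ₑ ^ 2 := by
  have ht : (0 : ℝ) < (k : ℝ) + 1 := by positivity
  obtain ⟨C, hC⟩ := (hasCompactSupport_rho (ι := ι) ht).exists_bound_of_continuous
    (contDiff_rho (ι := ι) ((k : ℝ) + 1)).continuous
  refine ⟨ENNReal.ofReal C, ENNReal.ofReal_ne_top, fun G hG x => ?_⟩
  have hk : Measurable fun y : ι → ℂ => ENNReal.ofReal (rho ((k : ℝ) + 1) (x - y)) :=
    ENNReal.measurable_ofReal.comp ((contDiff_rho (ι := ι) _).continuous.measurable.comp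
      (measurable_const.sub measurable_id))
  calc ‖mol k G x‖ₑ ^ 2
      ≤ (∫⁻ y, ‖G y‖ₑ * ENNReal.ofReal (rho ((k : ℝ) + 1) (x - y))) ^ 2 := by
        gcongr
        exact enorm_mol_le k x
    _ ≤ ∫⁻ y, ‖G y‖ₑ ^ 2 * ENNReal.ofReal (rho ((k : ℝ) + 1) (x - y)) :=
        sq_lintegral_mul_le volume hG.enorm hk.aemeasurable (lintegral_rho_left ht x).le
    _ ≤ ∫⁻ y, ENNReal.ofReal C * ‖G y‖ₑ ^ 2 := by
        refine lintegral_mono fun y => ?_
        rw [mul_comm]
        gcongr
        exact (le_abs_self _).trans (hC _)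
    _ = ENNReal.ofReal C * ∫⁻ y, ‖G y‖ₑ ^ 2 := lintegral_const_mul' _ _ ENNReal.ofReal_ne_top

lemma tendsto_lintegral_mol {F : (ι → ℂ) → ℂ} (hF : MemLp F 2 volume) :
    Tendsto (fun m => ∫⁻ y, ‖(mol m F - F) y‖ₑ ^ 2) atTop (𝓝 0) := by
  have h := tendsto_mol hF
  have h2 : Tendsto (fun m => (eLpNorm (mol m F - F) 2 volume) ^ 2) atTop (𝓝 0) := by
    have := ENNReal.Tendsto.pow (n := 2) h
    simpa using this
  refine h2.congr fun m => ?_
  rw [eLpNorm_two_eq, ← ENNReal.rpow_two, ← ENNReal.rpow_mul]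
  norm_num

theorem weyl {w : (ι → ℂ) → ℂ} (hw : LocL2 w)
    (h : ∀ j, ∀ η : (ι → ℂ) → ℂ, ContDiff ℝ ∞ η → HasCompactSupport η →
      ∫ z, w z * dbar j η z = 0) :
    ∃ f : (ι → ℂ) → ℂ, Differentiable ℂ f ∧ ContDiff ℝ ∞ f ∧ w =ᵐ[volume] f := by
  have hwl := hw.locallyIntegrable
  have hol : ∀ m, Differentiable ℂ (mol m w) := by
    intro m
    apply differentiable_of_dbar ((contDiff_mol m hwl).differentiable (by simp))
    intro j x
    have hr := contDiff_rhoC (ι := ι) ((m : ℝ) + 1)
    have hc := hasCompactSupport_rhoC (ι := ι) (t := (m : ℝ) + 1) (by positivity)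
    rw [dbar_eq, mol, D_conv hwl hr hc, conv]
    have h1 := h j (fun y => (rho ((m : ℝ) + 1) (x - y) : ℂ))
      (hr.comp (contDiff_const.sub contDiff_id)) (by
        have := hc.comp_homeomorph (Homeomorph.subLeft x)
        exact this)
    have h2 : (fun y => w y * D 1 j (fun z => (rho ((m : ℝ) + 1) z : ℂ)) (x - y)) =
        fun y => -(w y * dbar j (fun y => (rho ((m : ℝ) + 1) (x - y) : ℂ)) y) := by
      funext y
      have := D_comp_sub (s := 1) (j := j) x y
        (u := fun z => (rho ((m : ℝ) + 1) z : ℂ)) (hr.differentiable (by simp) _)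
      rw [dbar_eq, this]
      ring
    rw [h2, integral_neg, h1, neg_zero]
  -- all mollifications agree
  have hlim : ∀ k x, Tendsto (fun m => mol m w x) atTop (𝓝 (mol k w x)) := by
    intro k x
    obtain ⟨C, hC, hCb⟩ := exists_mol_bound (ι := ι) k
    set R : ℝ := ‖x‖ + 1 with hR
    set F := (Metric.closedBall (0 : ι → ℂ) (R + 1)).indicator w with hF
    have hFL : MemLp F 2 volume := hw _
    have e1 : ∀ m, mol m w x - mol k w x = mol k (mol m F - F) x := by
      intro m
      conv_lhs => rw [← mol_of_holomorphic k (hol m)]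
      have e2 : mol k (mol m w) x - mol k w x =
          ∫ y, (mol m w y * (rho ((k : ℝ) + 1) (x - y) : ℂ) -
            w y * (rho ((k : ℝ) + 1) (x - y) : ℂ)) :=
        (integral_sub (integrable_mol k (hol m).continuous.locallyIntegrable x)
        (integrable_mol k hwl x)).symm
      rw [e2]
      conv_rhs => rw [mol, conv]
      congr 1
      funext y
      by_cases hy : ‖y‖ ≤ R
      · rw [mol_indicator m w hy, Pi.sub_apply, hF]
        rw [indicator_of_mem (by simp; linarith)]
        ring
      · rw [rho_eq_zero (by positivity)]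
        · simp
        · push Not at hy
          have h1 := norm_sub_norm_le y x
          rw [norm_sub_rev] at h1
          have h2 : 1 / ((k : ℝ) + 1) ≤ 1 := by
            rw [div_le_one (by positivity)]
            have : (0 : ℝ) ≤ k := Nat.cast_nonneg k
            linarith
          linarith
    rw [tendsto_iff_norm_sub_tendsto_zero]
    have h1 : Tendsto (fun m => C * ∫⁻ y, ‖(mol m F - F) y‖ₑ ^ 2) atTop (𝓝 0) := by
      have := ENNReal.Tendsto.const_mul (a := C) (tendsto_lintegral_mol hFL) (Or.inr hC)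
      rwa [mul_zero] at this
    have hmeas : ∀ m, AEStronglyMeasurable (mol m F - F) volume := fun m =>
      (contDiff_mol m (hFL.locallyIntegrable (by norm_num))).continuous.aestronglyMeasurable.sub hFL.1
    have h2 : Tendsto (fun m => ‖mol m w x - mol k w x‖ₑ ^ 2) atTop (𝓝 0) := by
      refine tendsto_of_tendsto_of_tendsto_of_le_of_le tendsto_const_nhds h1 (fun _ => zero_le)
        fun m => ?_
      rw [e1]
      exact hCb _ (hmeas m) x
    have h3 : Tendsto (fun m => (‖mol m w x - mol k w x‖ₑ ^ 2) ^ (1 / 2 : ℝ)) atTop (𝓝 0) := by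
      have := ((ENNReal.continuous_rpow_const (y := (1 / 2 : ℝ))).tendsto 0).comp h2
      simpa [Function.comp_def] using this
    have h4 : Tendsto (fun m => ‖mol m w x - mol k w x‖ₑ) atTop (𝓝 0) := by
      refine h3.congr fun m => ?_
      rw [← ENNReal.rpow_two, ← ENNReal.rpow_mul]
      norm_num
    have h5 := (ENNReal.tendsto_toReal ENNReal.zero_ne_top).comp h4
    simpa [Function.comp_def] using h5
  have heq : ∀ m, mol m w = mol 0 w := by
    intro m
    funext x
    exact tendsto_nhds_unique (hlim m x) (hlim 0 x)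
  refine ⟨mol 0 w, hol 0, contDiff_mol 0 hwl, ?_⟩
  have hball : ∀ N : ℕ, ∀ᵐ y ∂volume, y ∈ Metric.closedBall (0 : ι → ℂ) N → w y = mol 0 w y := by
    intro N
    set F := (Metric.closedBall (0 : ι → ℂ) ((N : ℝ) + 1)).indicator w with hF
    have hFL : MemLp F 2 volume := hw _
    have hms : MeasurableSet (Metric.closedBall (0 : ι → ℂ) (N : ℝ)) :=
      Metric.isClosed_closedBall.measurableSet
    have h1 : ∀ m, ∫⁻ y in Metric.closedBall (0 : ι → ℂ) N, ‖(mol 0 w - w) y‖ₑ ^ 2 ≤
        ∫⁻ y, ‖(mol m F - F) y‖ₑ ^ 2 := by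
      intro m
      calc ∫⁻ y in Metric.closedBall (0 : ι → ℂ) N, ‖(mol 0 w - w) y‖ₑ ^ 2
          = ∫⁻ y in Metric.closedBall (0 : ι → ℂ) N, ‖(mol m F - F) y‖ₑ ^ 2 := by
            apply setLIntegral_congr_fun hms
            intro y hy
            have hy' : ‖y‖ ≤ N := by simpa using hy
            simp only [Pi.sub_apply]
            rw [← heq m, mol_indicator m w hy', hF, indicator_of_mem (by simp; linarith)]
        _ ≤ ∫⁻ y, ‖(mol m F - F) y‖ₑ ^ 2 := setLIntegral_le_lintegral _ _
    have h2 : ∫⁻ y in Metric.closedBall (0 : ι → ℂ) N, ‖(mol 0 w - w) y‖ₑ ^ 2 = 0 :=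
      le_antisymm (ge_of_tendsto' (tendsto_lintegral_mol hFL) h1) zero_le
    have hmeas : AEStronglyMeasurable (mol 0 w - w) volume :=
      (contDiff_mol 0 hwl).continuous.aestronglyMeasurable.sub hwl.aestronglyMeasurable
    rw [lintegral_eq_zero_iff' ((hmeas.enorm.pow_const 2).restrict)] at h2
    rw [← ae_restrict_iff' hms]
    filter_upwards [h2] with y hy
    simp only [Pi.zero_apply, pow_eq_zero_iff two_ne_zero, enorm_eq_zero, Pi.sub_apply,
      sub_eq_zero] at hy
    exact hy.symm
  have hall := ae_all_iff.2 hball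
  filter_upwards [hall] with y hy
  obtain ⟨N, hN⟩ := exists_nat_ge ‖y‖
  exact hy N (by simpa using hN)

end Pool.Agent.Lib.Hormander
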